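import Pool.Agent.Lib.MP_17a322_ntLX.Defs
import Pool.Agent.Lib.MP_17a322_ntLH.PDefs

/-! Interface definitions. -/

namespace LVX

open NumberField
open LVH (Vr fv co Pl)

/-- the coordinates `x_l` and the values of the forms -/
def cmp {R : Type} [CommRing R] {j q s : ℕ} {d : Fin s → ℕ} (a : Mo j q d → R) (x : Vr j q → R) : Fin j ⊕ Fin s → R :=
  Sum.elim (fun l => x (Sum.inl l)) (fun i => Fv a i x)

/-- the set `Z` of vectors is stable under scalars, and its slices have few elements -/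
def Cn {p : ℕ} {j q : ℕ} (s : ℕ) (Z : Set (Vr j q → ZMod p)) : Prop :=
  (∀ x ∈ Z, ∀ l : ZMod p, l • x ∈ Z) ∧
    (∀ u : Fin j → ZMod p, (∀ l, u l ≠ 0) →
      10 * Nat.card {z : Fin q → ZMod p // (Sum.elim u z : Vr j q → ZMod p) ∈ Z} ≤ 11 * p ^ s) ∧
      Nat.card {z : Fin q → ZMod p // (Sum.elim (fun _ => 0) z : Vr j q → ZMod p) ∈ Z} ≤ 2 * p ^ s

/-- the local condition: a point of `Z` with the given units, or a point of `Z` at infinity -/
def RR {p j q s e : ℕ} (Z : Set (Vr j q → ZMod p)) (d : Fin s → ℕ) (ω : Fin e → ZMod p) (u : Fin j → ZMod p)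
    (y : Fin s → ZMod p) : Set (Mo j q d × Fin e → ZMod p) :=
  {c | (∃ z : Fin q → ZMod p, Sum.elim u z ∈ Z ∧ ∀ i, Fv (co ω c) i (Sum.elim u z) = y i) ∨
    ∃ z : Fin q → ZMod p, z ≠ 0 ∧ Sum.elim (fun _ => 0) z ∈ Z ∧ ∀ i, Fv (co ω c) i (Sum.elim (fun _ => 0) z) = 0}

/-- the ring of integers is contained in every valuation ring -/
theorem int_mem {K : Type} [Field K] [NumberField K] {p : ℕ} (π : Pl K p) (x : 𝓞 K) : (x : K) ∈ π.V := by
  have h1 : IsIntegral ℤ (algebraMap (𝓞 K) K x) := x.2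
  have h2 : IsIntegral π.V (algebraMap (𝓞 K) K x) := h1.tower_top
  obtain ⟨y, hy⟩ := IsIntegrallyClosed.algebraMap_eq_of_integral h2
  have hy' : (x : K) = algebraMap π.V K y := hy.symm
  rw [hy']
  exact y.2

/-- the residue map on the ring of integers -/
noncomputable def ro {K : Type} [Field K] [NumberField K] {p : ℕ} (π : Pl K p) : 𝓞 K →+* ZMod p :=
  π.ρ.comp ((algebraMap (𝓞 K) K).codRestrict π.V.toSubring (int_mem π))

/-- the common zeros of the elements of `G` modulo `p` -/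
def Zs {K : Type} [Field K] [NumberField K] {p j q : ℕ} (G : Finset (MvPolynomial (Vr j q) (𝓞 K)))
    (φ : 𝓞 K →+* ZMod p) : Set (Vr j q → ZMod p) := {x | ∀ g ∈ G, MvPolynomial.eval₂ φ x g = 0}

end LVX
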