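import Mathlib

/-! The number of finite sets of places of bounded norm. -/

namespace LVX

open NumberField

private theorem ideal_dvd {K : Type} [Field K] [NumberField K] {v w : FinitePlace K}
    (h : v.maximalIdeal.asIdeal ∣ w.maximalIdeal.asIdeal) : v = w := by
  have h1 : v.maximalIdeal.asIdeal = w.maximalIdeal.asIdeal := by
    have h2 := Ideal.dvd_iff_le.1 h
    exact (w.maximalIdeal.isMaximal.eq_of_le v.maximalIdeal.isMaximal.ne_top h2).symm
  exact FinitePlace.maximalIdeal_injective (IsDedekindDomain.HeightOneSpectrum.ext h1)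

private theorem prod_inj {K : Type} [Field K] [NumberField K] {T T' : Finset (FinitePlace K)}
    (h : ∏ v ∈ T, v.maximalIdeal.asIdeal = ∏ v ∈ T', v.maximalIdeal.asIdeal) : T ⊆ T' := by
  intro w hw
  have h1 : w.maximalIdeal.asIdeal ∣ ∏ v ∈ T', v.maximalIdeal.asIdeal := by
    rw [← h]
    exact Finset.dvd_prod_of_mem (fun v : FinitePlace K => v.maximalIdeal.asIdeal) hw
  have h2 : Prime w.maximalIdeal.asIdeal := w.maximalIdeal.prime
  obtain ⟨v, hv, hvw⟩ := (Prime.dvd_finsetProd_iff h2 _).1 h1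
  rw [ideal_dvd hvw]
  exact hv

/-- the finite sets of places whose norms have product at most `X` -/
theorem setT (K : Type) [Field K] [NumberField K] (X : ℝ) (hX : 0 < X) :
    ∃ TT : Finset (Finset (FinitePlace K)), TT.card ≤ Nat.card {I : Ideal (𝓞 K) // (Ideal.absNorm I : ℝ) ≤ X} ∧
      ∀ T : Finset (FinitePlace K), T ∈ TT ↔
        ∑ v ∈ T, Real.log (Ideal.absNorm v.maximalIdeal.asIdeal : ℝ) ≤ Real.log X := by
  classical
  have hf : {I : Ideal (𝓞 K) | (Ideal.absNorm I : ℝ) ≤ X}.Finite := by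
    refine (Ideal.finite_setOfPred_absNorm_le (S := 𝓞 K) ⌊X⌋₊).subset ?_
    intro I hI
    exact Nat.le_floor hI
  have : Finite {I : Ideal (𝓞 K) // (Ideal.absNorm I : ℝ) ≤ X} := hf.to_subtype
  have h0 : ∀ v : FinitePlace K, Ideal.absNorm v.maximalIdeal.asIdeal ≠ 0 := fun v =>
    Ideal.absNorm_eq_zero_iff.not.mpr v.maximalIdeal.ne_bot
  have h1 : ∀ T : Finset (FinitePlace K), ∑ v ∈ T, Real.log (Ideal.absNorm v.maximalIdeal.asIdeal : ℝ) =
      Real.log (Ideal.absNorm (∏ v ∈ T, v.maximalIdeal.asIdeal) : ℝ) := by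
    intro T
    rw [map_prod, Nat.cast_prod, Real.log_prod fun v _ => Nat.cast_ne_zero.2 (h0 v)]
  have h2 : ∀ T : Finset (FinitePlace K), Ideal.absNorm (∏ v ∈ T, v.maximalIdeal.asIdeal) ≠ 0 := by
    intro T
    rw [map_prod, Finset.prod_ne_zero_iff]
    exact fun v _ => h0 v
  let S : Set (Finset (FinitePlace K)) :=
    {T | ∑ v ∈ T, Real.log (Ideal.absNorm v.maximalIdeal.asIdeal : ℝ) ≤ Real.log X}
  have h3 : ∀ T ∈ S, (Ideal.absNorm (∏ v ∈ T, v.maximalIdeal.asIdeal) : ℝ) ≤ X := by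
    intro T hT
    have h4 : Real.log (Ideal.absNorm (∏ v ∈ T, v.maximalIdeal.asIdeal) : ℝ) ≤ Real.log X := by
      rw [← h1]
      exact hT
    exact (Real.log_le_log_iff (by exact_mod_cast Nat.pos_of_ne_zero (h2 T)) hX).1 h4
  let f : S → {I : Ideal (𝓞 K) // (Ideal.absNorm I : ℝ) ≤ X} := fun T => ⟨∏ v ∈ T.1, v.maximalIdeal.asIdeal, h3 T.1 T.2⟩
  have hinj : Function.Injective f := by
    intro T T' h
    have h4 := congrArg Subtype.val h
    exact Subtype.ext (Finset.Subset.antisymm (prod_inj h4) (prod_inj h4.symm))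
  have hfin0 : Finite S := Finite.of_injective f hinj
  have hfin : S.Finite := Set.toFinite S
  refine ⟨hfin.toFinset, ?_, fun T => ?_⟩
  · have h5 := Nat.card_le_card_of_injective f hinj
    rw [Nat.card_coe_set_eq, Set.ncard_eq_toFinset_card S hfin] at h5
    exact h5
  · rw [Set.Finite.mem_toFinset]
    exact Iff.rfl

end LVX
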