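import Pool.Agent.Lib.MP_17a322_ntLX.PDefs
import Pool.Agent.Lib.LW.Main

/-!
# LEAF Cone: the cones of geometrically integral varieties modulo primes

PROOF.  If `P = ⊥`: `q = s` (`MvPolynomial.ringKrullDim` or similar for the polynomial ring in `j + q` variables), `G = ∅`, `Zs` is everything, and `Cn s` is clear.  If `j = 0`: rename the variables (`Vr 0 q ≃ Fin q`; the image of `P` is geometrically prime of the same dimension `s ≥ 2`), `G0` from `LW.lang_weil`, `G` the set of the homogeneous components of the elements of `G0` (in `P` after mapping to `K`, as `P` is homogeneous; `MvPolynomial.homogeneousComponent` commutes with `MvPolynomial.map`).  The zeros of `G` are stable under scalars and are zeros of `G0` (an element is the sum of its homogeneous components); `11 p ^ s / 10 ≤ 2 p ^ s` for the last clause (`Fin 0 → ZMod p` has one element).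
-/

namespace LVX

open Finset NumberField
open LVH (Vr)

private theorem cone_card_all {p q : ℕ} [Fact p.Prime] : Nat.card (Fin q → ZMod p) = p ^ q := by
  rw [Nat.card_fun]
  simp

private theorem cone_map_hc {σ R S : Type} [CommRing R] [CommRing S] (f : R →+* S) (n : ℕ) (g : MvPolynomial σ R) :
    MvPolynomial.map f (MvPolynomial.homogeneousComponent n g) =
      MvPolynomial.homogeneousComponent n (MvPolynomial.map f g) := by
  ext d
  rw [MvPolynomial.coeff_map, MvPolynomial.coeff_homogeneousComponent, MvPolynomial.coeff_homogeneousComponent,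
    MvPolynomial.coeff_map]
  split_ifs <;> simp

private theorem cone_smul {σ R S : Type} [CommRing R] [CommRing S] (f : R →+* S) {n : ℕ} {g : MvPolynomial σ R}
    (hg : g.IsHomogeneous n) (x : σ → S) (l : S) :
    MvPolynomial.eval₂ f (l • x) g = l ^ n * MvPolynomial.eval₂ f x g := by
  rw [MvPolynomial.eval₂_eq, MvPolynomial.eval₂_eq, Finset.mul_sum]
  refine Finset.sum_congr rfl fun d hd => ?_
  have h1 : d.degree = n := by
    by_contra h
    exact (MvPolynomial.mem_support_iff.1 hd) (hg.coeff_eq_zero h)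
  have h2 : ∏ i ∈ d.support, (l • x) i ^ d i = l ^ n * ∏ i ∈ d.support, x i ^ d i := by
    rw [← h1, Finsupp.degree_apply, ← Finset.prod_pow_eq_pow_sum, ← Finset.prod_mul_distrib]
    refine Finset.prod_congr rfl fun i _ => ?_
    rw [Pi.smul_apply, smul_eq_mul, mul_pow]
  rw [h2]
  ring

private theorem cone_sm {K : Type} [Field K] [NumberField K] {p j q : ℕ} {G : Finset (MvPolynomial (Vr j q) (𝓞 K))}
    (hG : ∀ g ∈ G, ∃ n, g.IsHomogeneous n) (φ : 𝓞 K →+* ZMod p) : ∀ x ∈ Zs G φ, ∀ l : ZMod p, l • x ∈ Zs G φ := by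
  intro x hx l g hg
  obtain ⟨n, hn⟩ := hG g hg
  rw [cone_smul φ hn, hx g hg, mul_zero]

private theorem cone_bot (K : Type) [Field K] [NumberField K] {j q s : ℕ} (P : Ideal (MvPolynomial (Vr j q) K))
    (hP : GI P (j + s)) (hj : P = ⊥) : q = s := by
  subst hj
  have h := hP.2.2
  rw [ringKrullDim_eq_of_ringEquiv (RingEquiv.quotientBot (MvPolynomial (Vr j q) K)),
    MvPolynomial.ringKrullDim_of_isNoetherianRing, ringKrullDim_eq_zero_of_field, zero_add] at h
  have h2 : Nat.card (Vr j q) = j + q := by simp [Vr]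
  rw [h2] at h
  have h3 : ((j + q : ℕ) : WithBot ℕ∞) = ((j + s : ℕ) : WithBot ℕ∞) := h
  have h4 : j + q = j + s := by exact_mod_cast h3
  omega

private theorem cone_prime {A A' B B' : Type} [CommRing A] [CommRing A'] [CommRing B] [CommRing B'] (E : A ≃+* A')
    (EL : B ≃+* B') (f : A →+* B) (f' : A' →+* B') (h : f'.comp (E : A →+* A') = (EL : B →+* B').comp f) (P : Ideal A)
    (hP : (P.map f).IsPrime) : ((P.map (E : A →+* A')).map f').IsPrime := by
  rw [Ideal.map_map, h, ← Ideal.map_map]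
  exact Ideal.map_isPrime_of_equiv EL

private theorem cone_mem {A A' : Type} [CommRing A] [CommRing A'] (E : A ≃+* A') (P : Ideal A) (g : A')
    (hg : g ∈ P.map (E : A →+* A')) : E.symm g ∈ P := by
  have h1 : g ∈ P.comap E.symm := by
    rw [Ideal.comap_symm]
    exact hg
  exact h1

private theorem cone_dim {A A' : Type} [CommRing A] [CommRing A'] (E : A ≃+* A') (P : Ideal A) :
    ringKrullDim (A' ⧸ (P.map (E : A →+* A'))) = ringKrullDim (A ⧸ P) :=
  (ringKrullDim_eq_of_ringEquiv (Ideal.quotientEquiv P (P.map (E : A →+* A')) E rfl)).symm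

private theorem cone_zero (K : Type) [Field K] [NumberField K] {q s : ℕ} (P : Ideal (MvPolynomial (Vr 0 q) K))
    (hP : GI P s) (hs : 1 ≤ s) : ∃ G : Finset (MvPolynomial (Vr 0 q) (𝓞 K)),
      (∀ g ∈ G, ∃ n, g.IsHomogeneous n) ∧ (∀ g ∈ G, MvPolynomial.map (algebraMap (𝓞 K) K) g ∈ P) ∧
        ∃ p1 : ℕ, ∀ (p : ℕ) [Fact p.Prime], p1 ≤ p → ∀ φ : 𝓞 K →+* ZMod p,
          10 * Nat.card {z : Fin q → ZMod p // (Sum.elim (fun _ => 0) z : Vr 0 q → ZMod p) ∈ Zs G φ} ≤ 11 * p ^ s := by
  classical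
  obtain ⟨hP1, hP2, hP3⟩ := hP
  let e : Vr 0 q ≃ Fin q := Equiv.emptySum (Fin 0) (Fin q)
  have he : ⇑e.symm = (Sum.inr : Fin q → Vr 0 q) := by
    funext i
    apply e.injective
    rw [Equiv.apply_symm_apply]
    exact (Equiv.emptySum_apply_inr i).symm
  let E : MvPolynomial (Vr 0 q) K ≃+* MvPolynomial (Fin q) K := (MvPolynomial.renameEquiv K e).toRingEquiv
  let EL : MvPolynomial (Vr 0 q) (AlgebraicClosure K) ≃+* MvPolynomial (Fin q) (AlgebraicClosure K) :=
    (MvPolynomial.renameEquiv (AlgebraicClosure K) e).toRingEquiv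
  have hE : ∀ g, E g = MvPolynomial.rename e g := fun g => rfl
  have hEs : ∀ g, E.symm g = MvPolynomial.rename e.symm g := fun g => rfl
  have hEL : ∀ g, EL g = MvPolynomial.rename e g := fun g => rfl
  let P' : Ideal (MvPolynomial (Fin q) K) := P.map (E : MvPolynomial (Vr 0 q) K →+* MvPolynomial (Fin q) K)
  have hmem : ∀ g, g ∈ P' → MvPolynomial.rename e.symm g ∈ P := by
    intro g hg
    rw [← hEs]
    exact cone_mem E P g hg
  have hprime : (P'.map (MvPolynomial.map (σ := Fin q) (algebraMap K (AlgebraicClosure K)))).IsPrime := by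
    refine cone_prime E EL (MvPolynomial.map (σ := Vr 0 q) (algebraMap K (AlgebraicClosure K)))
      (MvPolynomial.map (σ := Fin q) (algebraMap K (AlgebraicClosure K))) ?_ P hP2
    refine RingHom.ext fun g => ?_
    change MvPolynomial.map (algebraMap K (AlgebraicClosure K)) (E g) =
      EL (MvPolynomial.map (algebraMap K (AlgebraicClosure K)) g)
    rw [hE, hEL, MvPolynomial.map_rename]
  have hdim : ringKrullDim (MvPolynomial (Fin q) K ⧸ P') = s := by
    rw [← hP3]
    exact cone_dim E P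
  obtain ⟨G0, hG0, p0, hp0⟩ := LW.lang_weil K P' hprime hs hdim
  refine ⟨G0.biUnion fun g => (range ((MvPolynomial.rename e.symm g : MvPolynomial (Vr 0 q) (𝓞 K)).totalDegree + 1)).image
    fun n => MvPolynomial.homogeneousComponent n (MvPolynomial.rename e.symm g : MvPolynomial (Vr 0 q) (𝓞 K)), ?_, ?_, p0, ?_⟩
  · intro g hg
    obtain ⟨g0, _, hg1⟩ := Finset.mem_biUnion.1 hg
    obtain ⟨n, _, rfl⟩ := Finset.mem_image.1 hg1
    exact ⟨n, MvPolynomial.homogeneousComponent_isHomogeneous n _⟩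
  · intro g hg
    obtain ⟨g0, hg0, hg1⟩ := Finset.mem_biUnion.1 hg
    obtain ⟨n, _, rfl⟩ := Finset.mem_image.1 hg1
    rw [cone_map_hc]
    refine hP1 _ ?_ n
    rw [MvPolynomial.map_rename]
    exact hmem _ (hG0 g0 hg0)
  · intro p hp hp1 φ
    refine le_trans (Nat.mul_le_mul_left 10 ?_) (hp0 p hp1 φ)
    refine Nat.card_le_card_of_injective (fun z => ⟨z.1, ?_⟩) ?_
    · intro g hg
      have h1 : MvPolynomial.eval₂ φ (Sum.elim (fun _ => 0) z.1 : Vr 0 q → ZMod p) (MvPolynomial.rename e.symm g) = 0 := by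
        rw [← MvPolynomial.sum_homogeneousComponent (MvPolynomial.rename e.symm g : MvPolynomial (Vr 0 q) (𝓞 K)),
          MvPolynomial.eval₂_sum]
        refine Finset.sum_eq_zero fun n hn => ?_
        exact z.2 _ (Finset.mem_biUnion.2 ⟨g, hg, Finset.mem_image.2 ⟨n, hn, rfl⟩⟩)
      have h2 : (Sum.elim (fun _ => 0) z.1 : Vr 0 q → ZMod p) ∘ e.symm = z.1 := by
        funext i
        rw [Function.comp_apply, congrFun he i]
        rfl
      rw [MvPolynomial.eval₂_rename, h2] at h1
      exact h1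
    · intro a b hab
      have h3 : a.1 = b.1 := by
        have h4 := Subtype.ext_iff.1 hab
        exact h4
      exact Subtype.ext h3

theorem coneZ (K : Type) [Field K] [NumberField K] {j q s : ℕ} (P : Ideal (MvPolynomial (Vr j q) K)) (hP : GI P (j + s))
    (hj : j = 0 ∨ P = ⊥) (hs : j = 0 → 1 ≤ s) : ∃ G : Finset (MvPolynomial (Vr j q) (𝓞 K)),
      (∀ g ∈ G, ∃ n, g.IsHomogeneous n) ∧ (∀ g ∈ G, MvPolynomial.map (algebraMap (𝓞 K) K) g ∈ P) ∧
        ∃ p1 : ℕ, ∀ (p : ℕ) [Fact p.Prime], p1 ≤ p → ∀ φ : 𝓞 K →+* ZMod p, Cn s (Zs G φ) := by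
  classical
  rcases hj with hj | hj
  · subst hj
    rw [zero_add] at hP
    obtain ⟨G, hG1, hG2, p1, hp1⟩ := cone_zero K P hP (hs rfl)
    refine ⟨G, hG1, hG2, p1, fun p hp hpp φ => ⟨cone_sm hG1 φ, fun u _ => ?_, ?_⟩⟩
    · have hu : u = fun _ => 0 := funext fun i => i.elim0
      rw [hu]
      exact hp1 p hpp φ
    · have h := hp1 p hpp φ
      omega
  · have hq := cone_bot K P hP hj
    subst hq
    refine ⟨∅, fun g hg => absurd hg (Finset.notMem_empty g), fun g hg => absurd hg (Finset.notMem_empty g), 0,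
      fun p hp hpp φ => ⟨cone_sm (fun g hg => absurd hg (Finset.notMem_empty g)) φ, fun u _ => ?_, ?_⟩⟩
    · have h : Nat.card {z : Fin q → ZMod p // (Sum.elim u z : Vr j q → ZMod p) ∈ Zs ∅ φ} ≤ Nat.card (Fin q → ZMod p) :=
        Nat.card_le_card_of_injective (fun z => z.1) Subtype.val_injective
      rw [cone_card_all] at h
      omega
    · have h : Nat.card {z : Fin q → ZMod p // (Sum.elim (fun _ => 0) z : Vr j q → ZMod p) ∈ Zs ∅ φ} ≤
          Nat.card (Fin q → ZMod p) :=
        Nat.card_le_card_of_injective (fun z => z.1) Subtype.val_injective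
      rw [cone_card_all] at h
      omega

theorem cone (K : Type) [Field K] [NumberField K] {j q s : ℕ} (P : Ideal (MvPolynomial (Vr j q) K)) (hP : GI P (j + s))
    (hj : j = 0 ∨ P = ⊥) (hs : 1 ≤ s) : ∃ G : Finset (MvPolynomial (Vr j q) (𝓞 K)),
      (∀ g ∈ G, ∃ n, g.IsHomogeneous n) ∧ (∀ g ∈ G, MvPolynomial.map (algebraMap (𝓞 K) K) g ∈ P) ∧
        ∃ p1 : ℕ, ∀ (p : ℕ) [Fact p.Prime], p1 ≤ p → ∀ φ : 𝓞 K →+* ZMod p, Cn s (Zs G φ) := coneZ K P hP hj fun _ => hs

end LVX
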