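import Pool.Agent.Lib.MP_17a322_ntLH.Defs

/-! Integral points on the complement of hypersurface sections of a projective variety: definitions.
`LVH.Vr j q = Fin j ⊕ Fin q` is the index set of the coordinates, `LVH.mon x α` the value at `x` of the monomial `α`,
`LVH.fv a x` the value at `x` of the form with coefficients `a`, `LVH.co ω c t = ∑ k, c (t, k) ω k`. -/

namespace LVX

open NumberField
open LVH (Vr fv co)

/-- the index set of the coefficients of `s` forms in the coordinates `Vr j q`, the `i`-th of degree `d i` -/
abbrev Mo (j q : ℕ) {s : ℕ} (d : Fin s → ℕ) : Type := (i : Fin s) × Sym (Vr j q) (d i)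

/-- the value at `x` of the `i`-th form -/
def Fv {R : Type} [CommRing R] {j q s : ℕ} {d : Fin s → ℕ} (a : Mo j q d → R) (i : Fin s) (x : Vr j q → R) : R :=
  fv (fun α => a ⟨i, α⟩) x

/-- the degree of the divisor `x_1 ⋯ x_j F_1 ⋯ F_s = 0` -/
def dg (j : ℕ) {s : ℕ} (d : Fin s → ℕ) : ℕ := j + ∑ i, d i

/-- the value at `x` of its equation, the product of the first `j` coordinates and of the `s` forms -/
def Dv {R : Type} [CommRing R] {j q s : ℕ} {d : Fin s → ℕ} (a : Mo j q d → R) (x : Vr j q → R) : R :=
  (∏ l, x (Sum.inl l)) * ∏ i, Fv a i x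

/-- the local height of the divisor at the point with coordinates `x` for the absolute value `v`,
`- log (|D(x)|_v / |x|_v ^ deg D)` -/
noncomputable def lam {K : Type} [Field K] {j q s : ℕ} {d : Fin s → ℕ} (v : AbsoluteValue K ℝ) (a : Mo j q d → K)
    (x : Vr j q → K) : ℝ :=
  (dg j d : ℝ) * Real.log (⨆ w, v (x w)) - Real.log (v (Dv a x))

/-- the proximity function of the divisor for the set of places consisting of the infinite places and the places
in `S`, at the point with coordinates `x` -/
noncomputable def mS {K : Type} [Field K] [NumberField K] {j q s : ℕ} {d : Fin s → ℕ} (S : Finset (FinitePlace K))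
    (a : Mo j q d → K) (x : Vr j q → K) : ℝ :=
  (∑ v : InfinitePlace K, (v.mult : ℝ) * lam v.1 a x + ∑ v ∈ S, lam v.1 a x) / Module.finrank ℚ K

/-- the coefficient vector `∑ k, c (t, k) ω k` in `K` -/
noncomputable def cf {K : Type} [Field K] [NumberField K] {τ : Type} {e : ℕ} (ω : Fin e → 𝓞 K) (c : τ × Fin e → ℤ) :
    τ → K := co (fun k => (ω k : K)) fun t => ((c t : ℤ) : K)

/-- the homogeneous prime ideal `P` of polynomials in the coordinates `Vr j q` defines a geometrically integral
projective variety whose cone has dimension `r` (so the variety has dimension `r - 1`) -/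
def GI {K : Type} [Field K] {j q : ℕ} (P : Ideal (MvPolynomial (Vr j q) K)) (r : ℕ) : Prop :=
  (∀ g ∈ P, ∀ n, MvPolynomial.homogeneousComponent n g ∈ P) ∧
    (P.map (MvPolynomial.map (σ := Vr j q) (algebraMap K (AlgebraicClosure K)))).IsPrime ∧
      ringKrullDim (MvPolynomial (Vr j q) K ⧸ P) = r

/-- the vector `x` is a zero of all elements of `P` -/
def On {K : Type} [Field K] {j q : ℕ} (P : Ideal (MvPolynomial (Vr j q) K)) (x : Vr j q → K) : Prop :=
  ∀ g ∈ P, MvPolynomial.eval x g = 0

end LVX
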