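import Pool.Agent.Lib.MP_17a322_ntLX.PDefs
import Pool.Agent.Lib.MP_17a322_ntLH.E2

/-!
# LEAF E5B: the mean number of points (cone version)

PROOF.  As `LVH.mean` (LH.E5B), with the vectors `z` such that `(u, z) ∈ Z` only: by `Cn` there are at most `11 p ^ s / 10` of them.
-/

namespace LVX

open Finset
open LVH (Vr fv)

private theorem E5B_N {p : ℕ} [Fact p.Prime] {τ ι : Type} [Fintype τ] [DecidableEq τ] [Fintype ι] [DecidableEq ι] (d : τ → ℕ)
    (x : ι → ZMod p) (hx : x ≠ 0) (y : τ → ZMod p) :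
    Nat.card {b : (i : τ) → Sym ι (d i) → ZMod p // ∀ i, fv (b i) x = y i} * p ^ Fintype.card τ =
      Fintype.card ((i : τ) → Sym ι (d i) → ZMod p) := by
  have e : {b : (i : τ) → Sym ι (d i) → ZMod p // ∀ i, fv (b i) x = y i} ≃
      ((i : τ) → {a : Sym ι (d i) → ZMod p // fv a x = y i}) :=
    Equiv.subtypePiEquivPi (p := fun {i : τ} (b : Sym ι (d i) → ZMod p) => fv b x = y i)
  have hT : LVH.NP ({x} : Finset (ι → ZMod p)) := by
    intro y hy
    rw [Finset.mem_singleton] at hy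
    refine ⟨hy ▸ hx, fun y' hy' hne => ?_⟩
    rw [Finset.mem_singleton] at hy'
    exact absurd (hy.trans hy'.symm) hne
  have h1 : ∀ i : τ, Nat.card {a : Sym ι (d i) → ZMod p // fv a x = y i} * p = p ^ Fintype.card (Sym ι (d i)) := by
    intro i
    have h := LVH.cnt (p := p) (ι := ι) (d i) {x} hT (by rw [Finset.card_singleton]; omega) fun _ => y i
    rw [Finset.card_singleton, pow_one] at h
    rw [← h]
    refine congrArg (fun n => n * p) (Nat.card_congr (Equiv.subtypeEquivRight fun a => ?_))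
    constructor
    · intro h x' hx'
      rw [Finset.mem_singleton] at hx'
      rw [hx']
      exact h
    · intro h
      exact h x (Finset.mem_singleton_self x)
  have h2 : Fintype.card ((i : τ) → Sym ι (d i) → ZMod p) = ∏ i, p ^ Fintype.card (Sym ι (d i)) := by
    rw [Fintype.card_pi]
    refine Finset.prod_congr rfl fun i _ => ?_
    rw [Fintype.card_fun, ZMod.card]
  have h3 : p ^ Fintype.card τ = ∏ _i : τ, p := by
    rw [Finset.prod_const, Finset.card_univ]
  rw [Nat.card_congr e, Nat.card_pi, h2, h3, ← Finset.prod_mul_distrib]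
  exact Finset.prod_congr rfl fun i _ => h1 i

theorem mean {p : ℕ} [Fact p.Prime] {τ : Type} [Fintype τ] [DecidableEq τ] {j q s : ℕ} {Z : Set (Vr j q → ZMod p)}
    (hZ : Cn s Z) (d : τ → ℕ) (hd : ∀ i, 1 ≤ d i)
    (hs : Fintype.card τ + 1 = s) (hj : 1 ≤ j ∨ Nonempty τ) (u : Fin j → ZMod p) (hu : ∀ l, u l ≠ 0)
    (y : τ → ZMod p) (hy : ∀ i, y i ≠ 0) :
    10 * ∑ b : (i : τ) → Sym (Vr j q) (d i) → ZMod p,
      Nat.card {z : Fin q → ZMod p // (Sum.elim u z : Vr j q → ZMod p) ∈ Z ∧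
        ∀ i, fv (b i) (Sum.elim u z : Vr j q → ZMod p) = y i} ≤
        11 * p * Fintype.card ((i : τ) → Sym (Vr j q) (d i) → ZMod p) := by
  classical
  have key : ∀ z : Fin q → ZMod p, Nat.card {b : (i : τ) → Sym (Vr j q) (d i) → ZMod p //
      ∀ i, fv (b i) (Sum.elim u z : Vr j q → ZMod p) = y i} * p ^ Fintype.card τ ≤
      Fintype.card ((i : τ) → Sym (Vr j q) (d i) → ZMod p) := by
    intro z
    by_cases hx : (Sum.elim u z : Vr j q → ZMod p) = 0
    · rcases hj with hj | hj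
      · have h := congrFun hx (Sum.inl ⟨0, hj⟩)
        exact absurd h (hu ⟨0, hj⟩)
      · obtain ⟨i⟩ := hj
        have h0 : IsEmpty {b : (i : τ) → Sym (Vr j q) (d i) → ZMod p //
            ∀ i, fv (b i) (Sum.elim u z : Vr j q → ZMod p) = y i} := by
          refine ⟨fun b => ?_⟩
          have h := (congrArg (fv (b.1 i)) hx.symm).trans (b.2 i)
          rw [LVH.fv_zero (hd i)] at h
          exact hy i h.symm
        rw [Nat.card_of_isEmpty, zero_mul]
        exact Nat.zero_le _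
    · exact (E5B_N d _ hx y).le
  have hp : 0 < p ^ Fintype.card τ := pow_pos (Fact.out : p.Prime).pos _
  refine Nat.le_of_mul_le_mul_right ?_ hp
  have : Fintype {z : Fin q → ZMod p // (Sum.elim u z : Vr j q → ZMod p) ∈ Z} := Fintype.ofFinite _
  have h1 : ∑ b : (i : τ) → Sym (Vr j q) (d i) → ZMod p,
      Nat.card {z : Fin q → ZMod p // (Sum.elim u z : Vr j q → ZMod p) ∈ Z ∧
        ∀ i, fv (b i) (Sum.elim u z : Vr j q → ZMod p) = y i} =
      ∑ z : {z : Fin q → ZMod p // (Sum.elim u z : Vr j q → ZMod p) ∈ Z},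
        Nat.card {b : (i : τ) → Sym (Vr j q) (d i) → ZMod p //
          ∀ i, fv (b i) (Sum.elim u z.1 : Vr j q → ZMod p) = y i} := by
    rw [← Nat.card_sigma, ← Nat.card_sigma]
    exact Nat.card_congr ⟨fun q => ⟨⟨q.2.1, q.2.2.1⟩, q.1, q.2.2.2⟩, fun q => ⟨q.2.1, q.1.1, q.1.2, q.2.2⟩,
      fun _ => rfl, fun _ => rfl⟩
  have h2 : (∑ z : {z : Fin q → ZMod p // (Sum.elim u z : Vr j q → ZMod p) ∈ Z},
        Nat.card {b : (i : τ) → Sym (Vr j q) (d i) → ZMod p //
          ∀ i, fv (b i) (Sum.elim u z.1 : Vr j q → ZMod p) = y i}) * p ^ Fintype.card τ ≤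
      Nat.card {z : Fin q → ZMod p // (Sum.elim u z : Vr j q → ZMod p) ∈ Z} *
        Fintype.card ((i : τ) → Sym (Vr j q) (d i) → ZMod p) := by
    rw [Finset.sum_mul]
    refine (Finset.sum_le_sum fun z _ => key z.1).trans (le_of_eq ?_)
    rw [Finset.sum_const, Finset.card_univ, smul_eq_mul, Nat.card_eq_fintype_card]
  have h3 := hZ.2.1 u hu
  rw [h1]
  calc _ = 10 * ((∑ z : {z : Fin q → ZMod p // (Sum.elim u z : Vr j q → ZMod p) ∈ Z},
        Nat.card {b : (i : τ) → Sym (Vr j q) (d i) → ZMod p //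
          ∀ i, fv (b i) (Sum.elim u z.1 : Vr j q → ZMod p) = y i}) * p ^ Fintype.card τ) := by ring
    _ ≤ 10 * (Nat.card {z : Fin q → ZMod p // (Sum.elim u z : Vr j q → ZMod p) ∈ Z} *
        Fintype.card ((i : τ) → Sym (Vr j q) (d i) → ZMod p)) := Nat.mul_le_mul_left _ h2
    _ = 10 * Nat.card {z : Fin q → ZMod p // (Sum.elim u z : Vr j q → ZMod p) ∈ Z} *
        Fintype.card ((i : τ) → Sym (Vr j q) (d i) → ZMod p) := by ring
    _ ≤ 11 * p ^ s * Fintype.card ((i : τ) → Sym (Vr j q) (d i) → ZMod p) := Nat.mul_le_mul_right _ h3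
    _ = _ := by
      rw [← hs, pow_succ]
      ring

end LVX
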