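import Pool.Agent.Lib.MP_17a322_ntLX.PDefs
import Pool.Agent.Lib.MP_17a322_ntLH.E1

/-!
# LEAF E5C: the parameters on a line (cone version)

PROOF.  As LH.E5C (`LVH.Lm_sum`, `LVH.Lm_card`, with `Fin q` for the second set of coordinates).  In `Lm_sum` only the lines spanned by elements `t ∈ Z` occur, and `l • t ∈ Z` for these.
-/

namespace LVX

open Finset
open LVH (Vr fv NP)

open Classical in
/-- the parameters -/
noncomputable def Lm {p : ℕ} [NeZero p] {τ : Type} {j q : ℕ} {d : τ → ℕ} (u : Fin j → ZMod p) (y : τ → ZMod p)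
    (b : (i : τ) → Sym (Vr j q) (d i) → ZMod p) (t : Vr j q → ZMod p) : Finset (ZMod p) :=
  univ.filter fun l => l ≠ 0 ∧ (∃ z : Fin q → ZMod p, l • t = Sum.elim u z) ∧ ∀ i, fv (b i) (l • t) = y i

private theorem E5C_mem {p : ℕ} [NeZero p] {τ : Type} {j q : ℕ} {d : τ → ℕ} (u : Fin j → ZMod p) (y : τ → ZMod p)
    (b : (i : τ) → Sym (Vr j q) (d i) → ZMod p) (t : Vr j q → ZMod p) (l : ZMod p) :
    l ∈ Lm u y b t ↔ l ≠ 0 ∧ (∃ z : Fin q → ZMod p, l • t = Sum.elim u z) ∧ ∀ i, fv (b i) (l • t) = y i := by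
  classical
  unfold Lm
  rw [Finset.mem_filter]
  exact and_iff_right (Finset.mem_univ l)

private theorem E5C_elim {p j q : ℕ} {u : Fin j → ZMod p} {x : Vr j q → ZMod p}
    (h : ∃ z : Fin q → ZMod p, x = Sum.elim u z) : (Sum.elim u (fun k => x (Sum.inr k)) : Vr j q → ZMod p) = x := by
  obtain ⟨z, rfl⟩ := h
  funext v
  cases v <;> rfl

theorem Lm_sum {p : ℕ} [Fact p.Prime] {τ : Type} {j q s : ℕ} {Z : Set (Vr j q → ZMod p)} (hZ : Cn s Z) {d : τ → ℕ}
    (u : Fin j → ZMod p) (y : τ → ZMod p)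
    (b : (i : τ) → Sym (Vr j q) (d i) → ZMod p) (T : Finset (Vr j q → ZMod p)) (hT : NP T) (hTZ : ∀ t ∈ T, t ∈ Z) :
    ∑ t ∈ T, (Lm u y b t).card ≤
      Nat.card {z : Fin q → ZMod p // (Sum.elim u z : Vr j q → ZMod p) ∈ Z ∧
        ∀ i, fv (b i) (Sum.elim u z : Vr j q → ZMod p) = y i} := by
  classical
  rw [← Finset.card_sigma, Nat.card_eq_fintype_card, Fintype.card_subtype]
  refine Finset.card_le_card_of_injOn
    (fun r : (_ : Vr j q → ZMod p) × ZMod p => fun k => (r.2 • r.1) (Sum.inr k)) ?_ ?_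
  · rintro ⟨t, l⟩ hr
    have h1 : t ∈ T ∧ l ∈ Lm u y b t := Finset.mem_sigma.1 hr
    have h2 := (E5C_mem u y b t l).1 h1.2
    have h3 := E5C_elim h2.2.1
    show _ ∈ ((Finset.univ.filter fun z : Fin q → ZMod p => (Sum.elim u z : Vr j q → ZMod p) ∈ Z ∧
      ∀ i, fv (b i) (Sum.elim u z : Vr j q → ZMod p) = y i :
      Finset (Fin q → ZMod p)) : Set (Fin q → ZMod p))
    rw [Finset.mem_coe, Finset.mem_filter]
    refine ⟨Finset.mem_univ _, ?_, fun i => ?_⟩
    · show (Sum.elim u (fun k => (l • t) (Sum.inr k)) : Vr j q → ZMod p) ∈ Z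
      rw [h3]
      exact hZ.1 t (hTZ t h1.1) l
    · show fv (b i) (Sum.elim u (fun k => (l • t) (Sum.inr k)) : Vr j q → ZMod p) = y i
      rw [h3]
      exact h2.2.2 i
  · rintro ⟨t, l⟩ hr ⟨t', l'⟩ hr' he
    have h1 : t ∈ T ∧ l ∈ Lm u y b t := Finset.mem_sigma.1 hr
    have h1' : t' ∈ T ∧ l' ∈ Lm u y b t' := Finset.mem_sigma.1 hr'
    have h2 := (E5C_mem u y b t l).1 h1.2
    have h2' := (E5C_mem u y b t' l').1 h1'.2
    have h3 := E5C_elim h2.2.1
    have h3' := E5C_elim h2'.2.1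
    have he' : (fun k => (l • t) (Sum.inr k)) = fun k => (l' • t') (Sum.inr k) := he
    rw [he', h3'] at h3
    -- `h3 : l' • t' = l • t`
    have ht : t' = t := by
      by_contra hne
      refine (hT t' h1'.1).2 t h1.1 hne (l⁻¹ * l') ?_
      rw [mul_smul, h3, smul_smul, inv_mul_cancel₀ h2.1, one_smul]
    subst ht
    have h4 : l' = l := by
      obtain ⟨v, hv⟩ := Function.ne_iff.1 (hT t' h1'.1).1
      have h5 := congrFun h3 v
      exact mul_right_cancel₀ hv h5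
    rw [h4]

theorem Lm_card {p : ℕ} [Fact p.Prime] {τ : Type} [Fintype τ] {j q : ℕ} {d : τ → ℕ} (u : Fin j → ZMod p)
    (hu : ∀ l, u l ≠ 0) (y : τ → ZMod p) (hy : ∀ i, y i ≠ 0) (hj : 1 ≤ j ∨ Nonempty τ)
    (b : (i : τ) → Sym (Vr j q) (d i) → ZMod p) (t : Vr j q → ZMod p) (hd : ∀ i, 1 ≤ d i) :
    (Lm u y b t).card ≤ 1 + ∑ i, d i := by
  classical
  rcases hj with hj | hτ
  · have h1 : (Lm u y b t).card ≤ 1 := by
      rw [Finset.card_le_one]
      intro l hl l' hl'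
      obtain ⟨-, ⟨z, hz⟩, -⟩ := (E5C_mem u y b t l).1 hl
      obtain ⟨-, ⟨z', hz'⟩, -⟩ := (E5C_mem u y b t l').1 hl'
      have h2 : l * t (Sum.inl ⟨0, hj⟩) = u ⟨0, hj⟩ := congrFun hz (Sum.inl ⟨0, hj⟩)
      have h3 : l' * t (Sum.inl ⟨0, hj⟩) = u ⟨0, hj⟩ := congrFun hz' (Sum.inl ⟨0, hj⟩)
      have h4 : t (Sum.inl ⟨0, hj⟩) ≠ 0 := by
        intro h5
        rw [h5, mul_zero] at h2
        exact hu _ h2.symm
      exact mul_right_cancel₀ h4 (h2.trans h3.symm)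
    omega
  · obtain ⟨i⟩ := hτ
    obtain ⟨c, hc⟩ : ∃ c, c = fv (b i) t := ⟨_, rfl⟩
    have h1 : ∀ l ∈ Lm u y b t, l ^ d i * c = y i := by
      intro l hl
      have h2 := ((E5C_mem u y b t l).1 hl).2.2 i
      rw [LVH.fv_smul, ← hc] at h2
      exact h2
    have h2 : Lm u y b t ⊆ (Polynomial.nthRoots (d i) (y i / c)).toFinset := by
      intro l hl
      have h3 := h1 l hl
      have h4 : c ≠ 0 := by
        intro h5
        rw [h5, mul_zero] at h3
        exact hy i h3.symm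
      rw [Multiset.mem_toFinset, Polynomial.mem_nthRoots (hd i), eq_div_iff h4]
      exact h3
    have h5 : (Lm u y b t).card ≤ d i :=
      (Finset.card_le_card h2).trans ((Multiset.toFinset_card_le _).trans (Polynomial.card_nthRoots _ _))
    have h6 : d i ≤ ∑ i, d i := Finset.single_le_sum (fun _ _ => Nat.zero_le _) (Finset.mem_univ i)
    omega

end LVX
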