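import Pool.Agent.Lib.MP_17a322_ntLX.E5C
import Pool.Agent.Lib.MP_17a322_ntLH.E2
import Pool.Agent.Lib.MP_17a322_ntLH.E4B
import Pool.Agent.Lib.MP_17a322_ntLH.E5A

/-!
# LEAF E5D: the last form (cone version)

PROOF.  As LH.E5D (`LVH.last_form`), with `T` the set of the representatives (`LVH.reps`) which are in `Z` (if `l • t ∈ Z`, `l ≠ 0`, then `t ∈ Z` by `Cn`).
-/

namespace LVX

open Finset
open LVH (Vr fv NP)

private theorem E5D_mem {p : ℕ} [NeZero p] {τ : Type} {j q : ℕ} {d : τ → ℕ} {u : Fin j → ZMod p} {y : τ → ZMod p}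
    {b : (i : τ) → Sym (Vr j q) (d i) → ZMod p} {t : Vr j q → ZMod p} {l : ZMod p} (h1 : l ≠ 0)
    (h2 : ∃ z : Fin q → ZMod p, l • t = Sum.elim u z) (h3 : ∀ i, fv (b i) (l • t) = y i) : l ∈ Lm u y b t := by
  classical
  unfold Lm
  exact mem_filter.2 ⟨mem_univ _, h1, h2, h3⟩

theorem last_form {p : ℕ} [Fact p.Prime] {τ : Type} [Fintype τ] {j q s : ℕ} {Z : Set (Vr j q → ZMod p)}
    (hZ : Cn s Z) {d : τ → ℕ} (hd : ∀ i, 1 ≤ d i)
    (u : Fin j → ZMod p) (hu : ∀ l, u l ≠ 0) (y : τ → ZMod p) (hy : ∀ i, y i ≠ 0) (hj : 1 ≤ j ∨ Nonempty τ)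
    (b : (i : τ) → Sym (Vr j q) (d i) → ZMod p)
    (hb : (Nat.card {z : Fin q → ZMod p // (Sum.elim u z : Vr j q → ZMod p) ∈ Z ∧
      ∀ i, fv (b i) (Sum.elim u z : Vr j q → ZMod p) = y i} : ℝ) ≤ 3 / 2 * p)
    {m : ℕ} (hm : 2 ≤ m) (y0 : ZMod p) :
    (Nat.card {a : Sym (Vr j q) m → ZMod p // ∃ z : Fin q → ZMod p, (Sum.elim u z : Vr j q → ZMod p) ∈ Z ∧
      (∀ i, fv (b i) (Sum.elim u z : Vr j q → ZMod p) = y i) ∧ fv a (Sum.elim u z : Vr j q → ZMod p) = y0} : ℝ) ≤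
        (15 / 16 + ((1 + ∑ i, d i : ℕ) : ℝ) / p) * (p : ℝ) ^ Fintype.card (Sym (Vr j q) m) := by
  classical
  obtain ⟨T₀, hT₀, hcov⟩ := LVH.reps p (Vr j q)
  obtain ⟨T, hTdef⟩ : ∃ T : Finset (Vr j q → ZMod p), T = T₀.filter fun t => t ∈ Z := ⟨_, rfl⟩
  have hTsub : ∀ t ∈ T, t ∈ T₀ := fun t ht => by
    rw [hTdef] at ht
    exact (mem_filter.1 ht).1
  have hTZ : ∀ t ∈ T, t ∈ Z := fun t ht => by
    rw [hTdef] at ht
    exact (mem_filter.1 ht).2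
  have hT : NP T := fun x hx => ⟨(hT₀ x (hTsub x hx)).1, fun x' hx' => (hT₀ x (hTsub x hx)).2 x' (hTsub x' hx')⟩
  have hΩ : Fintype.card (Sym (Vr j q) m → ZMod p) = p ^ Fintype.card (Sym (Vr j q) m) := by
    rw [Fintype.card_fun, ZMod.card]
  have hYL : ∀ t, ((((Lm u y b t).image (fun l => y0 * (l ^ m)⁻¹)).card : ℕ) : ℝ) ≤ ((Lm u y b t).card : ℝ) :=
    fun t => by exact_mod_cast card_image_le
  have h1 := LVH.bonf (Ω := Sym (Vr j q) m → ZMod p) (τ := Vr j q → ZMod p) p (fun t a => fv a t) T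
    (fun U hU hU3 v => by
      rw [hΩ]
      exact LVH.cnt m U (fun x hx => ⟨(hT x (hU hx)).1, fun x' hx' => (hT x (hU hx)).2 x' (hU hx')⟩) (by omega) v)
    (fun t => (Lm u y b t).image (fun l => y0 * (l ^ m)⁻¹)) ((1 + ∑ i, d i : ℕ) : ℝ)
    (fun t _ => (hYL t).trans (by exact_mod_cast Lm_card u hu y hy hj b t hd))
    ((sum_le_sum fun t _ => hYL t).trans (by
      refine le_trans ?_ hb
      exact_mod_cast Lm_sum hZ u y b T hT hTZ)) (Nat.cast_nonneg _)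
  rw [hΩ] at h1
  push_cast at h1 ⊢
  refine le_trans ?_ h1
  have h2 : Nat.card {a : Sym (Vr j q) m → ZMod p // ∃ z : Fin q → ZMod p, (Sum.elim u z : Vr j q → ZMod p) ∈ Z ∧
      (∀ i, fv (b i) (Sum.elim u z : Vr j q → ZMod p) = y i) ∧ fv a (Sum.elim u z : Vr j q → ZMod p) = y0} ≤
      Nat.card {a : Sym (Vr j q) m → ZMod p // ∃ t ∈ T, fv a t ∈ (Lm u y b t).image (fun l => y0 * (l ^ m)⁻¹)} := by
    refine Nat.card_le_card_of_injective (fun a => ⟨a.1, ?_⟩) ?_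
    · obtain ⟨z, hzZ, hz, ha⟩ := a.2
      have hx : (Sum.elim u z : Vr j q → ZMod p) ≠ 0 := by
        intro h0
        rcases hj with hj | ⟨⟨i⟩⟩
        · have := congrFun h0 (Sum.inl ⟨0, hj⟩)
          exact hu _ this
        · have h3 := hz i
          rw [h0, LVH.fv_zero (hd i)] at h3
          exact hy i h3.symm
      obtain ⟨t, ht, l, hl, hlt⟩ := hcov _ hx
      have htZ : t ∈ Z := by
        have h8 : l⁻¹ • (Sum.elim u z : Vr j q → ZMod p) ∈ Z := hZ.1 _ hzZ _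
        rw [← hlt, smul_smul, inv_mul_cancel₀ hl, one_smul] at h8
        exact h8
      refine ⟨t, ?_, mem_image.2 ⟨l, ?_, ?_⟩⟩
      · rw [hTdef]
        exact mem_filter.2 ⟨ht, htZ⟩
      · exact E5D_mem hl ⟨z, hlt⟩ fun i => by rw [hlt]; exact hz i
      · have h5 : l ^ m ≠ 0 := pow_ne_zero _ hl
        have h6 : l ^ m * fv a.1 t = y0 := by
          rw [← LVH.fv_smul, hlt]
          exact ha
        calc y0 * (l ^ m)⁻¹ = (l ^ m * fv a.1 t) * (l ^ m)⁻¹ := by rw [h6]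
          _ = fv a.1 t := by rw [mul_comm (l ^ m) _, mul_assoc, mul_inv_cancel₀ h5, mul_one]
    · intro a a' h
      have h7 : a.1 = a'.1 := congrArg (fun r : {a : Sym (Vr j q) m → ZMod p //
        ∃ t ∈ T, fv a t ∈ (Lm u y b t).image (fun l => y0 * (l ^ m)⁻¹)} => r.1) h
      exact Subtype.ext h7
  exact_mod_cast h2

end LVX
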