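import Pool.Agent.Lib.MP_17a322_ntLX.E5B
import Pool.Agent.Lib.MP_17a322_ntLX.E5D

/-!
# LEAF E5E: the finite part (cone version)

PROOF.  As LH.E5E (`LVH.fin_part`): by `mean` and Markov at most `11 / 15` of the `b` have more than `3 p / 2` points; `11 / 15 + (4 / 15) (15 / 16) = 1 - 1 / 60`.
-/

namespace LVX

open Finset
open LVH (Vr fv)

private theorem E5E_real {B : Type} [Fintype B] (N G : B → ℕ) (p cA : ℕ) (D : ℝ) (hp : 0 < (p : ℝ)) (hD : 0 ≤ D)
    (h1 : ∀ b, (N b : ℝ) ≤ 3 / 2 * p → (G b : ℝ) ≤ (15 / 16 + D) * cA) (h2 : ∀ b, G b ≤ cA)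
    (h3 : 10 * ∑ b, N b ≤ 11 * p * Fintype.card B) :
    ((∑ b, G b : ℕ) : ℝ) ≤ (1 - 1 / 60 + D) * (cA * Fintype.card B) := by
  have h4 : ∀ b, (G b : ℝ) ≤ (15 / 16 + D + (1 / 16) * ((2 / 3) * ((N b : ℝ) / p))) * cA := by
    intro b
    have hc : (0 : ℝ) ≤ cA := Nat.cast_nonneg _
    have hN : (0 : ℝ) ≤ (N b : ℝ) / p := by positivity
    rcases le_or_gt (N b : ℝ) (3 / 2 * p) with h | h
    · refine (h1 b h).trans ?_
      refine mul_le_mul_of_nonneg_right ?_ hc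
      linarith
    · have h5 : (3 / 2 : ℝ) ≤ (N b : ℝ) / p := by
        rw [le_div_iff₀ hp]
        exact h.le
      have h6 : (G b : ℝ) ≤ cA := by exact_mod_cast h2 b
      have h7 : (1 : ℝ) ≤ 15 / 16 + D + (1 / 16) * ((2 / 3) * ((N b : ℝ) / p)) := by linarith
      calc (G b : ℝ) ≤ 1 * cA := by rw [one_mul]; exact h6
        _ ≤ _ := mul_le_mul_of_nonneg_right h7 hc
  have h5 : ((∑ b, N b : ℕ) : ℝ) / p ≤ 11 / 10 * Fintype.card B := by
    rw [div_le_iff₀ hp]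
    have h6 : ((10 * ∑ b, N b : ℕ) : ℝ) ≤ ((11 * p * Fintype.card B : ℕ) : ℝ) := by exact_mod_cast h3
    rw [Nat.cast_mul, Nat.cast_mul, Nat.cast_mul, Nat.cast_ofNat, Nat.cast_ofNat] at h6
    linarith
  rw [Nat.cast_sum]
  refine (Finset.sum_le_sum fun b _ => h4 b).trans ?_
  rw [← Finset.sum_mul, Finset.sum_add_distrib, ← Finset.mul_sum, ← Finset.mul_sum, ← Finset.sum_div,
    Finset.sum_const, Finset.card_univ, nsmul_eq_mul, ← Nat.cast_sum]
  have hc : (0 : ℝ) ≤ cA := Nat.cast_nonneg _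
  have h8 : (Fintype.card B : ℝ) * (15 / 16 + D) + 1 / 16 * (2 / 3 * (((∑ b, N b : ℕ) : ℝ) / p)) ≤
      (1 - 1 / 60 + D) * Fintype.card B := by
    linarith
  calc _ ≤ ((1 - 1 / 60 + D) * Fintype.card B) * cA := mul_le_mul_of_nonneg_right h8 hc
    _ = _ := by ring

theorem fin_part {p : ℕ} [Fact p.Prime] {j q s : ℕ} {Z : Set (Vr j q → ZMod p)} (hZ : Cn s Z) (d : Fin s → ℕ)
    (hd : ∀ i, 1 ≤ d i) (hjs : 2 ≤ j + s) (i0 : Fin s)
    (hi0 : 2 ≤ d i0) (u : Fin j → ZMod p) (hu : ∀ l, u l ≠ 0) (y : Fin s → ZMod p) (hy : ∀ i, y i ≠ 0) :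
    (Nat.card {a : Mo j q d → ZMod p // ∃ z : Fin q → ZMod p, (Sum.elim u z : Vr j q → ZMod p) ∈ Z ∧
      ∀ i, Fv a i (Sum.elim u z) = y i} : ℝ) ≤
      (1 - 1 / 60 + ((1 + ∑ i, d i : ℕ) : ℝ) / p) * (p : ℝ) ^ Fintype.card (Mo j q d) := by
  classical
  have hp : (0 : ℝ) < p := by exact_mod_cast (Fact.out : p.Prime).pos
  let τ : Type := {i : Fin s // i ≠ i0}
  let dd : τ → ℕ := fun i => d i.1
  let A : Type := Sym (Vr j q) (d i0) → ZMod p
  let B : Type := (i : τ) → Sym (Vr j q) (dd i) → ZMod p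
  have hcA : Fintype.card A = p ^ Fintype.card (Sym (Vr j q) (d i0)) := by
    rw [Fintype.card_fun, ZMod.card]
  have hcard : Fintype.card τ + 1 = s := by
    have h := Fintype.card_congr (Equiv.optionSubtypeNe i0)
    rw [Fintype.card_option, Fintype.card_fin] at h
    exact h
  have hj : 1 ≤ j ∨ Nonempty τ := by
    rcases Nat.eq_zero_or_pos j with h | h
    · right
      rw [← Fintype.card_pos_iff]
      omega
    · left
      exact h
  let e : (Mo j q d → ZMod p) ≃ A × B :=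
    (Equiv.piCurry fun (i : Fin s) (_ : Sym (Vr j q) (d i)) => ZMod p).trans
      (Equiv.piSplitAt i0 fun i => Sym (Vr j q) (d i) → ZMod p)
  have hsplit : Nat.card {a : Mo j q d → ZMod p // ∃ z : Fin q → ZMod p, (Sum.elim u z : Vr j q → ZMod p) ∈ Z ∧
        ∀ i, Fv a i (Sum.elim u z) = y i} =
      ∑ b : B, Nat.card {a : Sym (Vr j q) (d i0) → ZMod p // ∃ z : Fin q → ZMod p,
        (Sum.elim u z : Vr j q → ZMod p) ∈ Z ∧ (∀ i : τ, fv (b i) (Sum.elim u z : Vr j q → ZMod p) = y i.1) ∧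
          fv a (Sum.elim u z : Vr j q → ZMod p) = y i0} := by
    rw [← Nat.card_sigma]
    have e1 : {a : Mo j q d → ZMod p // ∃ z : Fin q → ZMod p, (Sum.elim u z : Vr j q → ZMod p) ∈ Z ∧
          ∀ i, Fv a i (Sum.elim u z) = y i} ≃
        {r : A × B // ∃ z : Fin q → ZMod p, (Sum.elim u z : Vr j q → ZMod p) ∈ Z ∧
          (∀ i : τ, fv (r.2 i) (Sum.elim u z : Vr j q → ZMod p) = y i.1) ∧
            fv r.1 (Sum.elim u z : Vr j q → ZMod p) = y i0} := e.subtypeEquiv fun a => by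
      constructor
      · rintro ⟨z, hzZ, hz⟩
        exact ⟨z, hzZ, fun i => hz i.1, hz i0⟩
      · rintro ⟨z, hzZ, hz, hz0⟩
        refine ⟨z, hzZ, fun i => ?_⟩
        by_cases h : i = i0
        · subst h
          exact hz0
        · exact hz ⟨i, h⟩
    rw [Nat.card_congr e1]
    exact Nat.card_congr ⟨fun r => ⟨r.1.2, r.1.1, r.2⟩, fun r => ⟨(r.2.1, r.1), r.2.2⟩, fun _ => rfl, fun _ => rfl⟩
  have hall : (p : ℝ) ^ Fintype.card (Mo j q d) = ((Fintype.card A : ℕ) : ℝ) * Fintype.card B := by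
    have h := Fintype.card_congr e
    rw [Fintype.card_prod, Fintype.card_fun, ZMod.card] at h
    rw [← Nat.cast_mul, ← h, Nat.cast_pow]
  have hD : ((1 + ∑ i : τ, dd i : ℕ) : ℝ) / p ≤ ((1 + ∑ i, d i : ℕ) : ℝ) / p := by
    refine div_le_div_of_nonneg_right ?_ hp.le
    refine Nat.cast_le.2 (Nat.add_le_add_left ?_ 1)
    have h := Fintype.sum_eq_add_sum_subtype_ne d i0
    rw [h]
    exact Nat.le_add_left _ _
  rw [hsplit, hall]
  refine E5E_real (fun b : B => Nat.card {z : Fin q → ZMod p // (Sum.elim u z : Vr j q → ZMod p) ∈ Z ∧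
    ∀ i : τ, fv (b i) (Sum.elim u z : Vr j q → ZMod p) = y i.1}) _ p (Fintype.card A) _ hp (by positivity) ?_ ?_ ?_
  · intro b hb
    have h := last_form hZ (d := dd) (fun i => hd i.1) u hu (fun i : τ => y i.1) (fun i => hy i.1) hj b hb hi0 (y i0)
    rw [hcA, Nat.cast_pow]
    refine h.trans (mul_le_mul_of_nonneg_right ?_ (by positivity))
    linarith
  · intro b
    rw [← Nat.card_eq_fintype_card]
    exact Nat.card_le_card_of_injective Subtype.val Subtype.val_injective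
  · exact mean hZ dd (fun i => hd i.1) hcard hj u hu (fun i : τ => y i.1) fun i => hy i.1

end LVX
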