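import Pool.Agent.Lib.MP_17a322_ntLX.PDefs
import Pool.Agent.Lib.MP_17a322_ntLH.E2

/-!
# LEAF E5F: the finite part, more forms than the dimension of the cone

PROOF.  Union bound: for each `z` with `(u, z) ∈ Z` (at most `11 p ^ r / 10` of them by `Cn`), the number of the `a` with `Fv a i (u, z) = y i` for all `i` is at most `p ^ (card Mo - s)` (it is `0` if `(u, z) = 0`, as `s ≥ 1` and `y i ≠ 0`, `LVH.fv_zero`; otherwise as `E6x_N` of `LVX.E6` with the values `y i` in place of `0`, by `LVH.cnt` for one vector); so at most `11 / 10 * p ^ (r - s) * p ^ card Mo ≤ 11 / (10 p) * p ^ card Mo`.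
-/

namespace LVX

open Finset
open LVH (Vr fv)

private theorem E5F_N {p : ℕ} [Fact p.Prime] {j q s : ℕ} (d : Fin s → ℕ) (x : Vr j q → ZMod p) (hx : x ≠ 0)
    (y : Fin s → ZMod p) :
    Nat.card {a : Mo j q d → ZMod p // ∀ i, Fv a i x = y i} * p ^ s = p ^ Fintype.card (Mo j q d) := by
  have e : {a : Mo j q d → ZMod p // ∀ i, Fv a i x = y i} ≃
      ((i : Fin s) → {a : Sym (Vr j q) (d i) → ZMod p // ∀ w ∈ ({x} : Finset (Vr j q → ZMod p)), fv a w = y i}) :=
    ((Equiv.piCurry fun (i : Fin s) (_ : Sym (Vr j q) (d i)) => ZMod p).subtypeEquiv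
      (q := fun b => ∀ i, ∀ w ∈ ({x} : Finset (Vr j q → ZMod p)), fv (b i) w = y i) fun a => by
        constructor
        · intro h i w hw
          rw [Finset.mem_singleton] at hw
          rw [hw]
          exact h i
        · intro h i
          exact h i x (Finset.mem_singleton_self x)).trans
      (Equiv.subtypePiEquivPi (p := fun {i : Fin s} (b : Sym (Vr j q) (d i) → ZMod p) =>
        ∀ w ∈ ({x} : Finset (Vr j q → ZMod p)), fv b w = y i))
  have hT : LVH.NP ({x} : Finset (Vr j q → ZMod p)) := by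
    intro w hw
    rw [Finset.mem_singleton] at hw
    refine ⟨hw ▸ hx, fun w' hw' hne => ?_⟩
    rw [Finset.mem_singleton] at hw'
    exact absurd (hw.trans hw'.symm) hne
  have h1 : ∀ i : Fin s, Nat.card {a : Sym (Vr j q) (d i) → ZMod p //
      ∀ w ∈ ({x} : Finset (Vr j q → ZMod p)), fv a w = y i} * p = p ^ Fintype.card (Sym (Vr j q) (d i)) := by
    intro i
    have h := LVH.cnt (p := p) (ι := Vr j q) (d i) {x} hT (by rw [Finset.card_singleton]; omega) fun _ => y i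
    rwa [Finset.card_singleton, pow_one] at h
  rw [Nat.card_congr e, Nat.card_pi, Fintype.card_sigma, ← Finset.prod_pow_eq_pow_sum]
  have h2 : p ^ s = ∏ _i : Fin s, p := by
    rw [Finset.prod_const, Finset.card_univ, Fintype.card_fin]
  rw [h2, ← Finset.prod_mul_distrib]
  exact Finset.prod_congr rfl fun i _ => h1 i

private theorem E5F_N' {p : ℕ} [Fact p.Prime] {j q s : ℕ} (d : Fin s → ℕ) (hd : ∀ i, 1 ≤ d i) (hs : 0 < s)
    (x : Vr j q → ZMod p) (y : Fin s → ZMod p) (hy : ∀ i, y i ≠ 0) :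
    Nat.card {a : Mo j q d → ZMod p // ∀ i, Fv a i x = y i} * p ^ s ≤ p ^ Fintype.card (Mo j q d) := by
  by_cases hx : x = 0
  · subst hx
    have hE : IsEmpty {a : Mo j q d → ZMod p // ∀ i, Fv a i 0 = y i} := by
      refine ⟨fun a => ?_⟩
      have h := a.2 ⟨0, hs⟩
      rw [Fv, LVH.fv_zero (hd _)] at h
      exact hy _ h.symm
    rw [Nat.card_of_isEmpty, zero_mul]
    exact Nat.zero_le _
  · exact (E5F_N d x hx y).le

theorem fin_lt {p : ℕ} [Fact p.Prime] {j q r s : ℕ} {Z : Set (Vr j q → ZMod p)} (hZ : Cn r Z) (d : Fin s → ℕ)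
    (hd : ∀ i, 1 ≤ d i) (hrs : r < s) (u : Fin j → ZMod p) (hu : ∀ l, u l ≠ 0) (y : Fin s → ZMod p) (hy : ∀ i, y i ≠ 0) :
    (Nat.card {a : Mo j q d → ZMod p // ∃ z : Fin q → ZMod p, (Sum.elim u z : Vr j q → ZMod p) ∈ Z ∧
      ∀ i, Fv a i (Sum.elim u z) = y i} : ℝ) ≤ (11 / 10 / p) * (p : ℝ) ^ Fintype.card (Mo j q d) := by
  classical
  have hp : p.Prime := Fact.out
  let Zt : Type := {z : Fin q → ZMod p // (Sum.elim u z : Vr j q → ZMod p) ∈ Z}
  let Pr : Type := (z : Zt) × {a : Mo j q d → ZMod p // ∀ i, Fv a i (Sum.elim u z.1) = y i}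
  let Bd : Type := {a : Mo j q d → ZMod p // ∃ z : Fin q → ZMod p, (Sum.elim u z : Vr j q → ZMod p) ∈ Z ∧
      ∀ i, Fv a i (Sum.elim u z) = y i}
  have hBP : Nat.card Bd ≤ Nat.card Pr := by
    refine Nat.card_le_card_of_injective
      (fun b : Bd => (⟨⟨b.2.choose, b.2.choose_spec.1⟩, ⟨b.1, b.2.choose_spec.2⟩⟩ : Pr)) fun b b' h => ?_
    have h2 := congrArg (fun c : Pr => c.2.1) h
    exact Subtype.ext h2
  have hPr : Nat.card Pr * p ^ s ≤ Nat.card Zt * p ^ Fintype.card (Mo j q d) := by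
    have h1 : Nat.card Pr = ∑ z : Zt,
        Nat.card {a : Mo j q d → ZMod p // ∀ i, Fv a i (Sum.elim u z.1) = y i} := Nat.card_sigma
    rw [h1, Finset.sum_mul]
    calc ∑ z : Zt, Nat.card {a : Mo j q d → ZMod p // ∀ i, Fv a i (Sum.elim u z.1) = y i} * p ^ s
        ≤ ∑ _z : Zt, p ^ Fintype.card (Mo j q d) :=
          Finset.sum_le_sum fun z _ => E5F_N' d hd (by omega) _ y hy
      _ = Nat.card Zt * p ^ Fintype.card (Mo j q d) := by
          rw [Finset.sum_const, smul_eq_mul, Finset.card_univ, Nat.card_eq_fintype_card]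
  have hZt : 10 * Nat.card Zt ≤ 11 * p ^ r := hZ.2.1 u hu
  have hps : p ^ r * p ≤ p ^ s := by
    rw [← pow_succ]
    exact Nat.pow_le_pow_right hp.pos (by omega)
  have hpr : 0 < p ^ r := pow_pos hp.pos r
  have hmain : 10 * Nat.card Bd * p ≤ 11 * p ^ Fintype.card (Mo j q d) := by
    refine Nat.le_of_mul_le_mul_right ?_ hpr
    calc 10 * Nat.card Bd * p * p ^ r = 10 * (Nat.card Bd * (p ^ r * p)) := by ring
      _ ≤ 10 * (Nat.card Pr * p ^ s) := Nat.mul_le_mul_left _ (Nat.mul_le_mul hBP hps)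
      _ ≤ 10 * (Nat.card Zt * p ^ Fintype.card (Mo j q d)) := Nat.mul_le_mul_left _ hPr
      _ = 10 * Nat.card Zt * p ^ Fintype.card (Mo j q d) := by ring
      _ ≤ 11 * p ^ r * p ^ Fintype.card (Mo j q d) := Nat.mul_le_mul_right _ hZt
      _ = 11 * p ^ Fintype.card (Mo j q d) * p ^ r := by ring
  have hp0 : (0 : ℝ) < p := by exact_mod_cast hp.pos
  have hmr : (10 : ℝ) * (Nat.card Bd : ℝ) * p ≤ 11 * (p : ℝ) ^ Fintype.card (Mo j q d) := by exact_mod_cast hmain
  change (Nat.card Bd : ℝ) ≤ _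
  have h3 : (11 / 10 / p : ℝ) * (p : ℝ) ^ Fintype.card (Mo j q d) =
      (11 * (p : ℝ) ^ Fintype.card (Mo j q d)) / (10 * p) := by
    field_simp
  rw [h3, le_div_iff₀ (by positivity)]
  linarith

end LVX
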