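import Pool.Agent.Lib.MP_17a322_ntLX.PDefs
import Pool.Agent.Lib.MP_17a322_ntLH.E2

/-!
# LEAF E6: the part at infinity (cone version)

PROOF.  As LH.E6 (`LVH.inf_part`), with the vectors `z` such that `(0, z) ∈ Z` only (stable under scalars): at most `2 p ^ s` by `Cn`.
-/

namespace LVX

open Finset
open LVH (Vr fv)

private theorem E6x_smul {p j q : ℕ} (l : ZMod p) (z : Fin q → ZMod p) :
    (Sum.elim (fun _ => 0) (l • z) : Vr j q → ZMod p) = l • Sum.elim (fun _ => 0) z := by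
  funext x
  rcases x with x | x
  · show (0 : ZMod p) = l • (0 : ZMod p)
    rw [smul_zero]
  · rfl

private theorem E6x_N {p : ℕ} [Fact p.Prime] {j q s : ℕ} (d : Fin s → ℕ) (x : Vr j q → ZMod p) (hx : x ≠ 0) :
    Nat.card {a : Mo j q d → ZMod p // ∀ i, Fv a i x = 0} * p ^ s = p ^ Fintype.card (Mo j q d) := by
  have e : {a : Mo j q d → ZMod p // ∀ i, Fv a i x = 0} ≃
      ((i : Fin s) → {a : Sym (Vr j q) (d i) → ZMod p // ∀ y ∈ ({x} : Finset (Vr j q → ZMod p)), fv a y = 0}) :=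
    ((Equiv.piCurry fun (i : Fin s) (_ : Sym (Vr j q) (d i)) => ZMod p).subtypeEquiv
      (q := fun b => ∀ i, ∀ y ∈ ({x} : Finset (Vr j q → ZMod p)), fv (b i) y = 0) fun a => by
        constructor
        · intro h i y hy
          rw [Finset.mem_singleton] at hy
          rw [hy]
          exact h i
        · intro h i
          exact h i x (Finset.mem_singleton_self x)).trans
      (Equiv.subtypePiEquivPi (p := fun {i : Fin s} (b : Sym (Vr j q) (d i) → ZMod p) =>
        ∀ y ∈ ({x} : Finset (Vr j q → ZMod p)), fv b y = 0))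
  have hT : LVH.NP ({x} : Finset (Vr j q → ZMod p)) := by
    intro y hy
    rw [Finset.mem_singleton] at hy
    refine ⟨hy ▸ hx, fun y' hy' hne => ?_⟩
    rw [Finset.mem_singleton] at hy'
    exact absurd (hy.trans hy'.symm) hne
  have h1 : ∀ i : Fin s, Nat.card {a : Sym (Vr j q) (d i) → ZMod p //
      ∀ y ∈ ({x} : Finset (Vr j q → ZMod p)), fv a y = 0} * p = p ^ Fintype.card (Sym (Vr j q) (d i)) := by
    intro i
    have h := LVH.cnt (p := p) (ι := Vr j q) (d i) {x} hT (by rw [Finset.card_singleton]; omega) fun _ => 0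
    rwa [Finset.card_singleton, pow_one] at h
  rw [Nat.card_congr e, Nat.card_pi, Fintype.card_sigma, ← Finset.prod_pow_eq_pow_sum]
  have h2 : p ^ s = ∏ _i : Fin s, p := by
    rw [Finset.prod_const, Finset.card_univ, Fintype.card_fin]
  rw [h2, ← Finset.prod_mul_distrib]
  exact Finset.prod_congr rfl fun i _ => h1 i

theorem inf_part {p : ℕ} [Fact p.Prime] {j q s : ℕ} {Z : Set (Vr j q → ZMod p)} (hZ : Cn s Z) (d : Fin s → ℕ) :
    Nat.card {a : Mo j q d → ZMod p // ∃ z : Fin q → ZMod p, z ≠ 0 ∧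
      (Sum.elim (fun _ => 0) z : Vr j q → ZMod p) ∈ Z ∧ ∀ i, Fv a i (Sum.elim (fun _ => 0) z) = 0} * (p - 1) ≤
      2 * p ^ Fintype.card (Mo j q d) := by
  classical
  let Zt : Type := {z : Fin q → ZMod p // z ≠ 0 ∧ (Sum.elim (fun _ => 0) z : Vr j q → ZMod p) ∈ Z}
  let Pr : Type := (z : Zt) × {a : Mo j q d → ZMod p // ∀ i, Fv a i (Sum.elim (fun _ => 0) z.1) = 0}
  have hw : ∀ z : Fin q → ZMod p, z ≠ 0 → (Sum.elim (fun _ => 0) z : Vr j q → ZMod p) ≠ 0 := by
    intro z hz h
    refine hz (funext fun k => ?_)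
    exact congrFun h (Sum.inr k)
  have hPr : Nat.card Pr ≤ 2 * p ^ Fintype.card (Mo j q d) := by
    have hp : 0 < p ^ s := pow_pos (Fact.out : p.Prime).pos s
    refine Nat.le_of_mul_le_mul_right ?_ hp
    have h1 : Nat.card Pr = ∑ z : Zt,
        Nat.card {a : Mo j q d → ZMod p // ∀ i, Fv a i (Sum.elim (fun _ => 0) z.1) = 0} := Nat.card_sigma
    have h2 : Fintype.card Zt ≤ 2 * p ^ s := by
      rw [← Nat.card_eq_fintype_card]
      exact (Nat.card_le_card_of_injective
        (fun z : Zt => (⟨z.1, z.2.2⟩ : {z : Fin q → ZMod p // (Sum.elim (fun _ => 0) z : Vr j q → ZMod p) ∈ Z}))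
        (fun z z' h => Subtype.ext (congrArg
          (fun w : {z : Fin q → ZMod p // (Sum.elim (fun _ => 0) z : Vr j q → ZMod p) ∈ Z} => w.1) h))).trans hZ.2.2
    rw [h1, Finset.sum_mul, Finset.sum_congr rfl fun z _ => E6x_N d _ (hw z.1 z.2.1), Finset.sum_const, smul_eq_mul,
      Finset.card_univ]
    calc Fintype.card Zt * p ^ Fintype.card (Mo j q d) ≤ 2 * p ^ s * p ^ Fintype.card (Mo j q d) :=
          Nat.mul_le_mul_right _ h2
      _ = 2 * p ^ Fintype.card (Mo j q d) * p ^ s := by ring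
  let Bd : Type := {a : Mo j q d → ZMod p // ∃ z : Fin q → ZMod p, z ≠ 0 ∧
    (Sum.elim (fun _ => 0) z : Vr j q → ZMod p) ∈ Z ∧ ∀ i, Fv a i (Sum.elim (fun _ => 0) z) = 0}
  let f : Bd × (ZMod p)ˣ → Pr := fun b => ⟨⟨(b.2 : ZMod p) • b.1.2.choose, fun h0 => by
      rcases smul_eq_zero.1 h0 with h | h
      · exact b.2.ne_zero h
      · exact b.1.2.choose_spec.1 h, by
      rw [E6x_smul]
      exact hZ.1 _ b.1.2.choose_spec.2.1 _⟩, ⟨b.1.1, fun i => by
      show Fv b.1.1 i (Sum.elim (fun _ => 0) ((b.2 : ZMod p) • b.1.2.choose)) = 0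
      rw [E6x_smul, Fv, LVH.fv_smul]
      have h := b.1.2.choose_spec.2.2 i
      rw [Fv] at h
      rw [h, mul_zero]⟩⟩
  have hf : Function.Injective f := by
    rintro ⟨⟨a, ha⟩, l⟩ ⟨⟨a', ha'⟩, l'⟩ h
    have h1 : a = a' := by
      have h2 := congrArg (fun b : Pr => b.2.1) h
      exact h2
    subst h1
    have h3 : (l : ZMod p) • ha.choose = (l' : ZMod p) • ha.choose := by
      have h2 := congrArg (fun b : Pr => b.1.1) h
      exact h2
    have h4 : (l : ZMod p) = l' := by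
      have h5 : ((l : ZMod p) - l') • ha.choose = 0 := by rw [sub_smul, h3, sub_self]
      rcases smul_eq_zero.1 h5 with h6 | h6
      · exact sub_eq_zero.1 h6
      · exact absurd h6 ha.choose_spec.1
    rw [Units.ext h4]
  have h1 := Nat.card_le_card_of_injective f hf
  rw [Nat.card_prod, Nat.card_units, Nat.card_zmod] at h1
  exact h1.trans hPr

end LVX
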