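import Mathlib

/-!
# BLOCK MOM, leaf M1: the number of vectors with given products with independent vectors

The linear map `A : v ↦ (j ↦ ∑ k, v k * x j k)` from `Fin q → ZMod p` to `Fin m → ZMod p` is surjective: it is
`v ↦ (Matrix.of x).mulVec v`, and the rows of the matrix are linearly independent
(`LinearIndependent.rank_matrix`, so the range has dimension `m`; or `Matrix.mulVec_surjective_iff_exists_right_inverse`,
`Matrix.linearIndependent_rows_iff..`; or: the transposed map `c ↦ ∑ j, c j • x j` is injective, hence the dual map is
surjective). All fibres of a surjective homomorphism of finite groups have the cardinality of the kernel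
(translate by a preimage), and there are `p ^ m` of them, and they partition `p ^ q` elements
(`Nat.card` of the kernel times `Nat.card` of the range: `AddSubgroup.card_eq_card_quotient_mul_card_addSubgroup`
or `Fintype.card_eq_sum_card_fiberwise`-type count: `∑_z card (fibre z) = p ^ q`, all fibres have the same card).
-/

set_option autoImplicit false

namespace LVX

theorem row_card {p : ℕ} [Fact p.Prime] {q m : ℕ} (x : Fin m → Fin q → ZMod p)
    (hx : LinearIndependent (ZMod p) x) (z : Fin m → ZMod p) :
    Nat.card {v : Fin q → ZMod p // ∀ j, ∑ k, v k * x j k = z j} * p ^ m = p ^ q := by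
  classical
  have hp : p.Prime := Fact.out
  let M : Matrix (Fin m) (Fin q) (ZMod p) := Matrix.of x
  have hA : ∀ v j, Matrix.mulVecLin M v j = ∑ k, v k * x j k := by
    intro v j
    rw [Matrix.mulVecLin_apply, Matrix.mulVec, dotProduct]
    refine Finset.sum_congr rfl fun k _ => ?_
    exact mul_comm _ _
  have hrank : Module.finrank (ZMod p) (LinearMap.range (Matrix.mulVecLin M)) = m := by
    have h := LinearIndependent.rank_matrix (M := M) hx
    rw [Matrix.rank, Fintype.card_fin] at h
    exact h
  have htop : LinearMap.range (Matrix.mulVecLin M) = ⊤ := by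
    apply Submodule.eq_top_of_finrank_eq
    rw [hrank, Module.finrank_fin_fun]
  obtain ⟨v₀, hv₀⟩ := LinearMap.range_eq_top.1 htop z
  have hadd := LinearMap.finrank_range_add_finrank_ker (Matrix.mulVecLin M)
  rw [hrank, Module.finrank_fin_fun] at hadd
  have hcard : Nat.card {v : Fin q → ZMod p // ∀ j, ∑ k, v k * x j k = z j} =
      Nat.card (LinearMap.ker (Matrix.mulVecLin M)) := by
    refine Nat.card_congr
      { toFun := fun v => ⟨v.1 - v₀, ?_⟩
        invFun := fun v => ⟨v.1 + v₀, ?_⟩
        left_inv := fun v => Subtype.ext (sub_add_cancel _ _)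
        right_inv := fun v => Subtype.ext (add_sub_cancel_right _ _) }
    · rw [LinearMap.mem_ker, map_sub, hv₀, sub_eq_zero]
      funext j
      rw [hA]
      exact v.2 j
    · intro j
      rw [← hA, map_add, LinearMap.mem_ker.1 v.2, zero_add, hv₀]
  rw [hcard, Module.natCard_eq_pow_finrank (K := ZMod p) (V := LinearMap.ker (Matrix.mulVecLin M)), Nat.card_zmod, ← pow_add]
  congr 1
  omega


end LVX
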