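import Mathlib
import Pool.Agent.Lib.MP_17a322_ntLX.M1

/-!
# BLOCK MOM, leaf M2: the number of matrices with given values on independent vectors

Row by row: `{a // ∀ j i, a_i · x_j = y_i} ≃ ∀ i : Fin s, {v // ∀ j, v · x_j = y_i}` (swap the quantifiers;
`Equiv.subtypePiEquivPi`), so the cardinality is the product over `i` of the numbers of `row_card` with
`z = fun _ => y i` (`Nat.card_pi`), and each of them times `p ^ m` is `p ^ q`:
`(∏ i, c i) * p ^ (s * m) = ∏ i, (c i * p ^ m) = (p ^ q) ^ s`.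
-/

set_option autoImplicit false

namespace LVX

theorem mat_card {p : ℕ} [Fact p.Prime] {q m s : ℕ} (x : Fin m → Fin q → ZMod p)
    (hx : LinearIndependent (ZMod p) x) (y : Fin s → ZMod p) :
    Nat.card {a : Fin s → Fin q → ZMod p // ∀ j i, ∑ k, a i k * x j k = y i} * p ^ (s * m) =
      p ^ (s * q) := by
  have e1 : {a : Fin s → Fin q → ZMod p // ∀ j i, ∑ k, a i k * x j k = y i} ≃
      {a : Fin s → Fin q → ZMod p // ∀ i, ∀ j, ∑ k, a i k * x j k = y i} :=
    Equiv.subtypeEquivRight fun a => forall_comm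
  have e2 : {a : Fin s → Fin q → ZMod p // ∀ i, ∀ j, ∑ k, a i k * x j k = y i} ≃
      ((i : Fin s) → {v : Fin q → ZMod p // ∀ j, ∑ k, v k * x j k = y i}) :=
    Equiv.subtypePiEquivPi (p := fun i (v : Fin q → ZMod p) => ∀ j, ∑ k, v k * x j k = y i)
  rw [Nat.card_congr (e1.trans e2), Nat.card_pi]
  have h1 : p ^ (s * m) = ∏ _i : Fin s, p ^ m := by
    rw [Finset.prod_const, Finset.card_univ, Fintype.card_fin, ← pow_mul, Nat.mul_comm]
  rw [h1, ← Finset.prod_mul_distrib,
    Finset.prod_congr rfl fun i _ => row_card x hx fun _ => y i, Finset.prod_const, Finset.card_univ,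
    Fintype.card_fin, ← pow_mul, Nat.mul_comm]

end LVX
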