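import Mathlib

/-!
# BLOCK MOM, leaf M4: distinct vectors of a fibre over a nonzero value

Write `a x = (i ↦ ∑ k, a i k * x k)`; it is linear in `x`. `fib_ne`: `a 0 = 0 ≠ y`.
`fib_two`: if `c x + d x' = 0` with `(c, d) ≠ 0`, apply `a`: `(c + d) y = 0`, so `d = - c`, `c ≠ 0`, `x = x'`
(`LinearIndependent.pair_iff`).
`fib_three`: if `x, x', x''` are linearly dependent, since `x, x'` are independent (`fib_two`), `x''` is in their
span: `x'' = α x + β x'` (`LinearIndependent.fin_three..` or `linearIndependent_fin_succ`,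
`Submodule.mem_span_pair`); apply `a`: `y = (α + β) y`, so `β = 1 - α`.
-/

set_option autoImplicit false

namespace LVX

variable {p : ℕ} [Fact p.Prime] {q s : ℕ} {y : Fin s → ZMod p} {a : Fin s → Fin q → ZMod p}

private theorem M4_lin (i : Fin s) (c d : ZMod p) (x x' : Fin q → ZMod p)
    (hx : ∑ k, a i k * x k = y i) (hx' : ∑ k, a i k * x' k = y i) :
    ∑ k, a i k * (c • x + d • x') k = (c + d) * y i := by
  have h : ∀ k, a i k * (c • x + d • x') k = c * (a i k * x k) + d * (a i k * x' k) := by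
    intro k
    simp only [Pi.add_apply, Pi.smul_apply, smul_eq_mul]
    ring
  rw [Finset.sum_congr rfl fun k _ => h k, Finset.sum_add_distrib, ← Finset.mul_sum,
    ← Finset.mul_sum, hx, hx', add_mul]

theorem fib_ne (hy : ∃ i, y i ≠ 0) {x : Fin q → ZMod p} (hx : ∀ i, ∑ k, a i k * x k = y i) :
    x ≠ 0 := by
  obtain ⟨i, hi⟩ := hy
  intro h
  apply hi
  rw [← hx i, h]
  simp only [Pi.zero_apply, mul_zero, Finset.sum_const_zero]

theorem fib_two (hy : ∃ i, y i ≠ 0) {x x' : Fin q → ZMod p} (hx : ∀ i, ∑ k, a i k * x k = y i)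
    (hx' : ∀ i, ∑ k, a i k * x' k = y i) (h : x ≠ x') : LinearIndependent (ZMod p) ![x, x'] := by
  obtain ⟨i, hi⟩ := hy
  rw [LinearIndependent.pair_iff]
  intro c d hcd
  have h1 := M4_lin i c d x x' (hx i) (hx' i)
  rw [hcd] at h1
  simp only [Pi.zero_apply, mul_zero, Finset.sum_const_zero] at h1
  have h2 : c + d = 0 := by
    rcases mul_eq_zero.1 h1.symm with h3 | h3
    · exact h3
    · exact absurd h3 hi
  have h3 : d = -c := (neg_eq_of_add_eq_zero_right h2).symm
  have h4 : c • (x - x') = 0 := by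
    rw [h3] at hcd
    rw [smul_sub, sub_eq_add_neg, ← neg_smul]
    exact hcd
  rcases smul_eq_zero.1 h4 with h5 | h5
  · exact ⟨h5, by rw [h3, h5, neg_zero]⟩
  · exact absurd (sub_eq_zero.1 h5) h

theorem fib_three (hy : ∃ i, y i ≠ 0) {x x' x'' : Fin q → ZMod p}
    (hx : ∀ i, ∑ k, a i k * x k = y i) (hx' : ∀ i, ∑ k, a i k * x' k = y i)
    (hx'' : ∀ i, ∑ k, a i k * x'' k = y i) (h : x ≠ x') :
    LinearIndependent (ZMod p) ![x, x', x''] ∨ ∃ l : ZMod p, x'' = l • x + (1 - l) • x' := by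
  by_cases hs : x'' ∈ Submodule.span (ZMod p) (Set.range ![x, x'])
  · right
    have hr : Set.range ![x, x'] = {x, x'} := by
      rw [Matrix.range_cons, Matrix.range_cons, Matrix.range_empty, Set.union_empty]
      rfl
    rw [hr, Submodule.mem_span_pair] at hs
    obtain ⟨c, d, hcd⟩ := hs
    obtain ⟨i, hi⟩ := hy
    have h1 := M4_lin i c d x x' (hx i) (hx' i)
    rw [hcd, hx'' i] at h1
    have h2 : c + d = 1 := by
      have h3 : (c + d - 1) * y i = 0 := by rw [sub_mul, ← h1, one_mul, sub_self]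
      rcases mul_eq_zero.1 h3 with h4 | h4
      · exact sub_eq_zero.1 h4
      · exact absurd h4 hi
    refine ⟨c, ?_⟩
    rw [← hcd, ← h2, add_sub_cancel_left]
  · left
    have h0 : (![x, x', x''] : Fin 3 → Fin q → ZMod p) = Fin.snoc ![x, x'] x'' := by
      funext i
      fin_cases i <;> rfl
    rw [h0, linearIndependent_finSnoc]
    exact ⟨fib_two hy hx hx' h, hs⟩

end LVX
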