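import Mathlib

/-!
# BLOCK MOM: definitions

`V = Fin q → ZMod p`. `NN Z y a` is the number of `x ∈ Z` with `a x = y`. `QQ Z` is the number of pairs of
linearly independent vectors in `Z`. `TT Z` is the number of triples `(x, x', l)` with `x`, `x'` and
`l x + (1 - l) x'` in `Z`.
-/

set_option autoImplicit false

namespace LVX

/-- The number of `x ∈ Z` with `a x = y`. -/
noncomputable def NN {p q s : ℕ} (Z : Set (Fin q → ZMod p)) (y : Fin s → ZMod p)
    (a : Fin s → Fin q → ZMod p) : ℕ :=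
  Nat.card {x : Fin q → ZMod p // x ∈ Z ∧ ∀ i, ∑ k, a i k * x k = y i}

/-- The number of pairs of linearly independent vectors in `Z`. -/
noncomputable def QQ {p q : ℕ} (Z : Set (Fin q → ZMod p)) : ℕ :=
  Nat.card {t : (Fin q → ZMod p) × (Fin q → ZMod p) //
    t.1 ∈ Z ∧ t.2 ∈ Z ∧ LinearIndependent (ZMod p) ![t.1, t.2]}

/-- The number of `(x, x', l)` with `x`, `x'`, `l x + (1 - l) x'` in `Z`. -/
noncomputable def TT {p q : ℕ} (Z : Set (Fin q → ZMod p)) : ℕ :=
  Nat.card {t : ((Fin q → ZMod p) × (Fin q → ZMod p)) × ZMod p //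
      t.1.1 ∈ Z ∧ t.1.2 ∈ Z ∧ t.2 • t.1.1 + (1 - t.2) • t.1.2 ∈ Z}

end LVX
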