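import Mathlib
import Pool.Agent.Lib.MP_17a322_ntLX.MDefs
import Pool.Agent.Lib.MP_17a322_ntLX.M2
import Pool.Agent.Lib.MP_17a322_ntLX.M4

/-!
# BLOCK MOM, leaf M5: first moment

`∑ a, NN Z y a` is the number of pairs `(a, x)` with `x ∈ Z`, `a x = y` (exchange the sums). For `x = 0` there is no
`a` (`fib_ne`). For `x ≠ 0` the number of `a` times `p ^ s` is `p ^ (s * q)`: `mat_card` for `m = 1` and the family
`fun _ : Fin 1 => x` (`linearIndependent_unique` / `LinearIndependent` of a single nonzero vector). Sum over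
`x ∈ Z`.
-/

set_option autoImplicit false

namespace LVX

theorem mom_one {p : ℕ} [Fact p.Prime] {q s : ℕ} (Z : Set (Fin q → ZMod p)) (y : Fin s → ZMod p)
    (hy : ∃ i, y i ≠ 0) :
    (∑ a : Fin s → Fin q → ZMod p, NN Z y a) * p ^ s ≤ Nat.card Z * p ^ (s * q) := by
  classical
  have hNN : ∀ a : Fin s → Fin q → ZMod p, NN Z y a =
      ∑ x : Fin q → ZMod p, if (x ∈ Z ∧ ∀ i, ∑ k, a i k * x k = y i) then 1 else 0 := by
    intro a
    unfold NN
    rw [Nat.card_eq_fintype_card, Fintype.card_subtype, Finset.card_filter]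
  have hx : ∀ x : Fin q → ZMod p, (∑ a : Fin s → Fin q → ZMod p,
      if (x ∈ Z ∧ ∀ i, ∑ k, a i k * x k = y i) then 1 else 0) * p ^ s ≤
      if x ∈ Z then p ^ (s * q) else 0 := by
    intro x
    by_cases hxZ : x ∈ Z
    · rw [if_pos hxZ]
      by_cases hx0 : x = 0
      · rw [Finset.sum_eq_zero, zero_mul]
        · exact Nat.zero_le _
        · intro a _
          rw [if_neg]
          rintro ⟨_, h⟩
          exact fib_ne hy h hx0
      · have hli : LinearIndependent (ZMod p) (fun _ : Fin 1 => x) :=
          LinearIndependent.of_subsingleton (0 : Fin 1) hx0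
        have h1 := mat_card (s := s) (fun _ : Fin 1 => x) hli y
        rw [mul_one] at h1
        rw [← h1, Nat.card_eq_fintype_card, Fintype.card_subtype, Finset.card_filter]
        refine Nat.mul_le_mul_right _ (Finset.sum_le_sum fun a _ => ?_)
        split_ifs with h2 h3 h3
        · exact le_rfl
        · exact absurd (fun _ i => h2.2 i) h3
        · exact Nat.zero_le _
        · exact le_rfl
    · rw [if_neg hxZ, Finset.sum_eq_zero, zero_mul]
      intro a _
      rw [if_neg]
      rintro ⟨h, _⟩
      exact hxZ h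
  have hZ : Nat.card Z * p ^ (s * q) = ∑ x : Fin q → ZMod p, if x ∈ Z then p ^ (s * q) else 0 := by
    rw [← Finset.sum_filter, Finset.sum_const, smul_eq_mul, Nat.card_eq_fintype_card, ← Fintype.card_subtype]
  rw [Finset.sum_congr rfl fun a _ => hNN a, Finset.sum_comm, Finset.sum_mul, hZ]
  exact Finset.sum_le_sum fun x _ => hx x

end LVX
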