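import Mathlib
import Pool.Agent.Lib.MP_17a322_ntLX.MDefs

/-!
# BLOCK MOM, leaf M3: factorial moments count tuples of distinct vectors

For a finite type `α` the number of embeddings `Fin m ↪ α` is `(card α).descFactorial m`
(`Fintype.card_embedding_eq`). With `α = {x // x ∈ Z ∧ a x = y}` the embeddings `Fin m ↪ α` correspond to the
embeddings `f : Fin m ↪ V` with all `f j` in the set (compose with the inclusion; `Function.Embedding.codRestrict`).
So the right hand type is `Σ a, (Fin m ↪ {x // x ∈ Z ∧ a x = y})` up to an equivalence; `Nat.card_sigma`.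
(`open Classical in` or `Fintype.ofFinite` for the finiteness; everything is a subtype of a finite type.)
-/

set_option autoImplicit false

namespace LVX

private def M3_eqv {A V : Type*} (m : ℕ) (P : A → V → Prop) :
    {t : A × (Fin m ↪ V) // ∀ j, P t.1 (t.2 j)} ≃ (Σ a : A, (Fin m ↪ {x : V // P a x})) where
  toFun t := ⟨t.1.1, ⟨fun j => ⟨t.1.2 j, t.2 j⟩, fun i j h => t.1.2.injective (by
    have := congrArg Subtype.val h
    exact this)⟩⟩
  invFun s := ⟨(s.1, s.2.trans ⟨Subtype.val, Subtype.val_injective⟩), fun j => (s.2 j).2⟩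
  left_inv t := by
    rcases t with ⟨⟨a, f⟩, h⟩
    rfl
  right_inv s := by
    rcases s with ⟨a, f⟩
    rfl

theorem sum_desc {p : ℕ} [Fact p.Prime] {q s : ℕ} (Z : Set (Fin q → ZMod p)) (y : Fin s → ZMod p)
    (m : ℕ) :
    ∑ a : Fin s → Fin q → ZMod p, (NN Z y a).descFactorial m =
      Nat.card {t : (Fin s → Fin q → ZMod p) × (Fin m ↪ (Fin q → ZMod p)) //
        ∀ j, t.2 j ∈ Z ∧ ∀ i, ∑ k, t.1 i k * t.2 j k = y i} := by
  classical
  rw [Nat.card_congr (M3_eqv m (fun (a : Fin s → Fin q → ZMod p) (x : Fin q → ZMod p) =>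
    x ∈ Z ∧ ∀ i, ∑ k, a i k * x k = y i)), Nat.card_sigma]
  refine Finset.sum_congr rfl fun a _ => ?_
  rw [Nat.card_eq_fintype_card, Fintype.card_embedding_eq, Fintype.card_fin,
    ← Nat.card_eq_fintype_card]
  rfl

end LVX
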