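import Mathlib
import Pool.Agent.Lib.MP_17a322_ntLX.MDefs
import Pool.Agent.Lib.MP_17a322_ntLX.M2
import Pool.Agent.Lib.MP_17a322_ntLX.M3
import Pool.Agent.Lib.MP_17a322_ntLX.M4

/-!
# BLOCK MOM, leaf M6: second moment

`mom_two`: by `sum_desc` with `m = 2` the left hand sum is the number of `(a, f)`, `f : Fin 2 ↪ V`, with
`f 0, f 1 ∈ Z` in the fibre of `a`. By `fib_two` the pair `(f 0, f 1)` is linearly independent; conversely two
independent vectors are distinct. So the sum is `∑` over the independent pairs `(x, x')` in `Z` of the number of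
`a` with `a x = a x' = y`, and that number times `p ^ (s * 2)` is `p ^ (s * q)` (`mat_card` for `![x, x']`,
`Fin.forall_fin_two`).
-/

set_option autoImplicit false

namespace LVX

theorem mom_two {p : ℕ} [Fact p.Prime] {q s : ℕ} (Z : Set (Fin q → ZMod p)) (y : Fin s → ZMod p)
    (hy : ∃ i, y i ≠ 0) :
    (∑ a : Fin s → Fin q → ZMod p, (NN Z y a).descFactorial 2) * p ^ (s * 2) =
      QQ Z * p ^ (s * q) := by
  classical
  rw [sum_desc Z y 2]
  have e : {t : (Fin s → Fin q → ZMod p) × (Fin 2 ↪ (Fin q → ZMod p)) //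
      ∀ j, t.2 j ∈ Z ∧ ∀ i, ∑ k, t.1 i k * t.2 j k = y i} ≃
      (Σ u : {t : (Fin q → ZMod p) × (Fin q → ZMod p) //
        t.1 ∈ Z ∧ t.2 ∈ Z ∧ LinearIndependent (ZMod p) ![t.1, t.2]},
        {a : Fin s → Fin q → ZMod p // ∀ j i, ∑ k, a i k * ![u.1.1, u.1.2] j k = y i}) :=
    { toFun := fun t => ⟨⟨(t.1.2 0, t.1.2 1), (t.2 0).1, (t.2 1).1,
        fib_two hy (t.2 0).2 (t.2 1).2 fun h => by
          have h1 := t.1.2.injective h
          exact absurd h1 (by decide)⟩, ⟨t.1.1, by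
          rw [Fin.forall_fin_two]
          exact ⟨(t.2 0).2, (t.2 1).2⟩⟩⟩
      invFun := fun w => ⟨(w.2.1, ⟨![w.1.1.1, w.1.1.2], w.1.2.2.2.injective⟩), by
        rw [Fin.forall_fin_two]
        exact ⟨⟨w.1.2.1, w.2.2 0⟩, ⟨w.1.2.2.1, w.2.2 1⟩⟩⟩
      left_inv := by
        rintro ⟨⟨a, f⟩, h⟩
        apply Subtype.ext
        apply Prod.ext
        · rfl
        · apply DFunLike.ext
          rw [Fin.forall_fin_two]
          exact ⟨rfl, rfl⟩
      right_inv := by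
        rintro ⟨⟨⟨x, x'⟩, h⟩, ⟨a, h'⟩⟩
        rfl }
  rw [Nat.card_congr e, Nat.card_sigma, Finset.sum_mul]
  have h1 : ∀ u : {t : (Fin q → ZMod p) × (Fin q → ZMod p) //
        t.1 ∈ Z ∧ t.2 ∈ Z ∧ LinearIndependent (ZMod p) ![t.1, t.2]},
      Nat.card {a : Fin s → Fin q → ZMod p // ∀ j i, ∑ k, a i k * ![u.1.1, u.1.2] j k = y i} *
        p ^ (s * 2) = p ^ (s * q) := fun u => mat_card _ u.2.2.2 y
  rw [Finset.sum_congr rfl fun u _ => h1 u, Finset.sum_const, Finset.card_univ, smul_eq_mul]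
  unfold QQ
  rw [Nat.card_eq_fintype_card]

end LVX
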