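import Mathlib
import Pool.Agent.Lib.MP_17a322_ntLX.MDefs

/-!
# BLOCK MOM, leaf M7: the number of independent pairs

`QQ_le`: the pairs are in `Z × Z`. `QQ_ge`: for `x ≠ 0` in `Z` the `x'` for which `![x, x']` is dependent are
multiples `l x`, at most `p` of them; for `x = 0` (if `0 ∈ Z`) all `card Z` of the `x'`. So the number of dependent
pairs is at most `card Z * p + card Z` (the fibres over `x ≠ 0` have at most `p` elements, the fibre over `0` at
most `card Z`).
-/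

set_option autoImplicit false

namespace LVX

theorem QQ_le {p : ℕ} [Fact p.Prime] {q : ℕ} (Z : Set (Fin q → ZMod p)) :
    QQ Z ≤ Nat.card Z ^ 2 := by
  have h := Nat.card_le_card_of_injective
    (fun t : {t : (Fin q → ZMod p) × (Fin q → ZMod p) //
      t.1 ∈ Z ∧ t.2 ∈ Z ∧ LinearIndependent (ZMod p) ![t.1, t.2]} =>
        ((⟨t.1.1, t.2.1⟩, ⟨t.1.2, t.2.2.1⟩) : Z × Z)) (by
      intro t t' h
      have h1 : t.1.1 = t'.1.1 := congrArg (fun z : Z × Z => (z.1 : Fin q → ZMod p)) h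
      have h2 : t.1.2 = t'.1.2 := congrArg (fun z : Z × Z => (z.2 : Fin q → ZMod p)) h
      exact Subtype.ext (Prod.ext h1 h2))
  rw [Nat.card_prod, ← pow_two] at h
  exact h

theorem QQ_ge {p : ℕ} [Fact p.Prime] {q : ℕ} (Z : Set (Fin q → ZMod p)) :
    Nat.card Z ^ 2 ≤ QQ Z + (p + 1) * Nat.card Z := by
  let In : Type := {t : (Fin q → ZMod p) × (Fin q → ZMod p) //
    t.1 ∈ Z ∧ t.2 ∈ Z ∧ LinearIndependent (ZMod p) ![t.1, t.2]}
  let g : In ⊕ ((Z × ZMod p) ⊕ Z) → (Fin q → ZMod p) × (Fin q → ZMod p) :=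
    Sum.elim (fun t => t.1) (Sum.elim (fun t => ((t.1 : Fin q → ZMod p), t.2 • (t.1 : Fin q → ZMod p)))
      fun t => (0, (t : Fin q → ZMod p)))
  have h1 : ∀ z : Z × Z, ∃ w, g w = ((z.1 : Fin q → ZMod p), (z.2 : Fin q → ZMod p)) := by
    rintro ⟨x, x'⟩
    by_cases hi : LinearIndependent (ZMod p) ![(x : Fin q → ZMod p), (x' : Fin q → ZMod p)]
    · exact ⟨Sum.inl ⟨(x, x'), x.2, x'.2, hi⟩, rfl⟩
    · by_cases hx : (x : Fin q → ZMod p) = 0
      · refine ⟨Sum.inr (Sum.inr x'), ?_⟩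
        show ((0 : Fin q → ZMod p), (x' : Fin q → ZMod p)) = ((x : Fin q → ZMod p), (x' : Fin q → ZMod p))
        rw [hx]
      · rw [LinearIndependent.pair_iff' hx] at hi
        obtain ⟨l, hl⟩ : ∃ l : ZMod p, l • (x : Fin q → ZMod p) = x' := by
          by_contra hn
          exact hi fun l hl => hn ⟨l, hl⟩
        refine ⟨Sum.inr (Sum.inl (x, l)), ?_⟩
        show ((x : Fin q → ZMod p), l • (x : Fin q → ZMod p)) =
          ((x : Fin q → ZMod p), (x' : Fin q → ZMod p))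
        rw [hl]
  choose f hf using h1
  have hinj : Function.Injective f := by
    rintro ⟨x, x'⟩ ⟨y, y'⟩ h
    have h2 : ((x : Fin q → ZMod p), (x' : Fin q → ZMod p)) = ((y : Fin q → ZMod p), (y' : Fin q → ZMod p)) := by
      rw [← hf (x, x'), h, hf (y, y')]
    rw [Prod.mk.injEq] at h2
    exact Prod.ext (Subtype.ext h2.1) (Subtype.ext h2.2)
  have h3 := Nat.card_le_card_of_injective f hinj
  rw [Nat.card_prod, Nat.card_sum, Nat.card_sum, Nat.card_prod, Nat.card_zmod, ← pow_two] at h3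
  have h4 : Nat.card In = QQ Z := rfl
  rw [h4] at h3
  refine h3.trans (le_of_eq ?_)
  ring

end LVX
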