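import Mathlib
import Pool.Agent.Lib.MP_17a322_ntLX.MDefs
import Pool.Agent.Lib.MP_17a322_ntLX.M2
import Pool.Agent.Lib.MP_17a322_ntLX.M3
import Pool.Agent.Lib.MP_17a322_ntLX.M4

/-!
# BLOCK MOM, leaf M8: third moment

By `sum_desc` with `m = 3` the sum is the number of `(a, f)` with `f : Fin 3 ↪ V`, `f j ∈ Z`, `a (f j) = y`.
By `fib_three` (and `fib_two`) such an `(a, f)` is of one of two kinds.
(A) `f 0, f 1, f 2` linearly independent: the number of `(a, f)` of this kind times `p ^ (s * 3)` is at most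
`card Z ^ 3 * p ^ (s * q)` (for each `f` in `Z ^ 3` independent, `mat_card` with `m = 3`).
(B) `f 0, f 1` independent and `f 2 = l • f 0 + (1 - l) • f 1` for some `l`: the pair `(a, (f 0, f 1, l))`
determines `(a, f)`; for each `(x, x', l)` counted by `TT Z` with `x, x'` independent the number of `a` with
`a x = a x' = y` times `p ^ (s * 2)` is `p ^ (s * q)`. So the number of kind (B) times `p ^ (s * 2)` is at most
`TT Z * p ^ (s * q)`; multiply by `p ^ s`.
-/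

set_option autoImplicit false

namespace LVX

private theorem M8_comb {p : ℕ} [Fact p.Prime] {q s : ℕ} {y : Fin s → ZMod p} {a : Fin s → Fin q → ZMod p}
    {x x' : Fin q → ZMod p} (hx : ∀ i, ∑ k, a i k * x k = y i) (hx' : ∀ i, ∑ k, a i k * x' k = y i) (l : ZMod p)
    (i : Fin s) : ∑ k, a i k * (l • x + (1 - l) • x') k = y i := by
  have h1 : ∀ k, a i k * (l • x + (1 - l) • x') k = l * (a i k * x k) + (1 - l) * (a i k * x' k) := by
    intro k
    rw [Pi.add_apply, Pi.smul_apply, Pi.smul_apply, smul_eq_mul, smul_eq_mul]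
    ring
  rw [Finset.sum_congr rfl fun k _ => h1 k, Finset.sum_add_distrib, ← Finset.mul_sum, ← Finset.mul_sum, hx i,
    hx' i]
  ring

/-- kind (A) -/
private abbrev M8_A {p : ℕ} [Fact p.Prime] {q s : ℕ} (Z : Set (Fin q → ZMod p)) (y : Fin s → ZMod p) : Type :=
  (g : {g : Fin 3 → Fin q → ZMod p // (∀ j, g j ∈ Z) ∧ LinearIndependent (ZMod p) g}) ×
    {a : Fin s → Fin q → ZMod p // ∀ j i, ∑ k, a i k * g.1 j k = y i}

/-- kind (B) -/
private abbrev M8_B {p : ℕ} [Fact p.Prime] {q s : ℕ} (Z : Set (Fin q → ZMod p)) (y : Fin s → ZMod p) : Type :=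
  (t : {t : ((Fin q → ZMod p) × (Fin q → ZMod p)) × ZMod p //
      (t.1.1 ∈ Z ∧ t.1.2 ∈ Z ∧ t.2 • t.1.1 + (1 - t.2) • t.1.2 ∈ Z) ∧
        LinearIndependent (ZMod p) ![t.1.1, t.1.2]}) ×
    {a : Fin s → Fin q → ZMod p // ∀ j i, ∑ k, a i k * (![t.1.1.1, t.1.1.2] : Fin 2 → Fin q → ZMod p) j k = y i}

private theorem M8_cardA {p : ℕ} [Fact p.Prime] {q s : ℕ} (Z : Set (Fin q → ZMod p)) (y : Fin s → ZMod p) :
    Nat.card (M8_A Z y) * p ^ (s * 3) ≤ Nat.card Z ^ 3 * p ^ (s * q) := by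
  classical
  rw [Nat.card_sigma, Finset.sum_mul, Finset.sum_congr rfl fun g _ => mat_card g.1 g.2.2 y, Finset.sum_const,
    smul_eq_mul]
  refine Nat.mul_le_mul_right _ ?_
  have h1 : (Finset.univ : Finset {g : Fin 3 → Fin q → ZMod p //
      (∀ j, g j ∈ Z) ∧ LinearIndependent (ZMod p) g}).card =
      Nat.card {g : Fin 3 → Fin q → ZMod p // (∀ j, g j ∈ Z) ∧ LinearIndependent (ZMod p) g} := by
    rw [Nat.card_eq_fintype_card, Finset.card_univ]
  rw [h1]
  have h2 : Nat.card (Fin 3 → Z) = Nat.card Z ^ 3 := by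
    rw [Nat.card_fun, Nat.card_fin]
  rw [← h2]
  refine Nat.card_le_card_of_injective (fun g => fun j => (⟨g.1 j, g.2.1 j⟩ : Z)) ?_
  intro g g' h
  refine Subtype.ext (funext fun j => ?_)
  exact congrArg Subtype.val (congrFun h j)

private theorem M8_cardB {p : ℕ} [Fact p.Prime] {q s : ℕ} (Z : Set (Fin q → ZMod p)) (y : Fin s → ZMod p) :
    Nat.card (M8_B Z y) * p ^ (s * 2) ≤ TT Z * p ^ (s * q) := by
  classical
  rw [Nat.card_sigma, Finset.sum_mul, Finset.sum_congr rfl fun t _ => mat_card _ t.2.2 y, Finset.sum_const,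
    smul_eq_mul]
  refine Nat.mul_le_mul_right _ ?_
  have h1 : (Finset.univ : Finset {t : ((Fin q → ZMod p) × (Fin q → ZMod p)) × ZMod p //
      (t.1.1 ∈ Z ∧ t.1.2 ∈ Z ∧ t.2 • t.1.1 + (1 - t.2) • t.1.2 ∈ Z) ∧
        LinearIndependent (ZMod p) ![t.1.1, t.1.2]}).card =
      Nat.card {t : ((Fin q → ZMod p) × (Fin q → ZMod p)) × ZMod p //
      (t.1.1 ∈ Z ∧ t.1.2 ∈ Z ∧ t.2 • t.1.1 + (1 - t.2) • t.1.2 ∈ Z) ∧
        LinearIndependent (ZMod p) ![t.1.1, t.1.2]} := by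
    rw [Nat.card_eq_fintype_card, Finset.card_univ]
  rw [h1]
  unfold TT
  refine Nat.card_le_card_of_injective (fun t => ⟨t.1, t.2.1⟩) ?_
  intro t t' h
  exact Subtype.ext (congrArg (fun u : {t : ((Fin q → ZMod p) × (Fin q → ZMod p)) × ZMod p //
      t.1.1 ∈ Z ∧ t.1.2 ∈ Z ∧ t.2 • t.1.1 + (1 - t.2) • t.1.2 ∈ Z} => u.1) h)

theorem mom_three {p : ℕ} [Fact p.Prime] {q s : ℕ} (Z : Set (Fin q → ZMod p)) (y : Fin s → ZMod p)
    (hy : ∃ i, y i ≠ 0) :
    (∑ a : Fin s → Fin q → ZMod p, (NN Z y a).descFactorial 3) * p ^ (s * 3) ≤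
      Nat.card Z ^ 3 * p ^ (s * q) + TT Z * p ^ s * p ^ (s * q) := by
  classical
  rw [sum_desc]
  -- the triples without the condition of being distinct
  have h1 : Nat.card {t : (Fin s → Fin q → ZMod p) × (Fin 3 ↪ (Fin q → ZMod p)) //
        ∀ j, t.2 j ∈ Z ∧ ∀ i, ∑ k, t.1 i k * t.2 j k = y i} ≤
      Nat.card {t : (Fin s → Fin q → ZMod p) × (Fin 3 → (Fin q → ZMod p)) //
        (∀ j, t.2 j ∈ Z ∧ ∀ i, ∑ k, t.1 i k * t.2 j k = y i) ∧ (LinearIndependent (ZMod p) t.2 ∨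
          (LinearIndependent (ZMod p) ![t.2 0, t.2 1] ∧ ∃ l : ZMod p, t.2 2 = l • t.2 0 + (1 - l) • t.2 1))} := by
    refine Nat.card_le_card_of_injective (fun t => ⟨(t.1.1, fun j => t.1.2 j), ?_⟩) ?_
    · obtain ⟨⟨a, f⟩, ht⟩ := t
      refine ⟨ht, ?_⟩
      have hne : f 0 ≠ f 1 := fun h => by
        have := f.injective h
        exact absurd this (by decide)
      have h2 := fib_three hy (ht 0).2 (ht 1).2 (ht 2).2 hne
      have h3 : (![f 0, f 1, f 2] : Fin 3 → Fin q → ZMod p) = fun j => f j := by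
        funext j
        fin_cases j <;> rfl
      rcases h2 with h2 | h2
      · left
        rw [h3] at h2
        exact h2
      · right
        exact ⟨fib_two hy (ht 0).2 (ht 1).2 hne, h2⟩
    · rintro ⟨⟨a, f⟩, ht⟩ ⟨⟨a', f'⟩, ht'⟩ h
      have h2 := congrArg Subtype.val h
      have h3 : a = a' := congrArg Prod.fst h2
      have h4 : (fun j => f j) = fun j => f' j := congrArg Prod.snd h2
      have h5 : f = f' := Function.Embedding.ext fun j => congrFun h4 j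
      subst h3 h5
      rfl
  have h2 : Nat.card {t : (Fin s → Fin q → ZMod p) × (Fin 3 → (Fin q → ZMod p)) //
        (∀ j, t.2 j ∈ Z ∧ ∀ i, ∑ k, t.1 i k * t.2 j k = y i) ∧ (LinearIndependent (ZMod p) t.2 ∨
          (LinearIndependent (ZMod p) ![t.2 0, t.2 1] ∧ ∃ l : ZMod p, t.2 2 = l • t.2 0 + (1 - l) • t.2 1))} ≤
      Nat.card (M8_A Z y) + Nat.card (M8_B Z y) := by
    have hfA : Finite (M8_A Z y) := by
      unfold M8_A
      infer_instance
    have hfB : Finite (M8_B Z y) := by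
      unfold M8_B
      infer_instance
    rw [← Nat.card_sum]
    refine Nat.card_le_card_of_surjective (Sum.elim
      (fun r : M8_A Z y => ⟨(r.2.1, r.1.1), fun j => ⟨r.1.2.1 j, fun i => r.2.2 j i⟩, Or.inl r.1.2.2⟩)
      (fun r : M8_B Z y => ⟨(r.2.1, ![r.1.1.1.1, r.1.1.1.2,
        r.1.1.2 • r.1.1.1.1 + (1 - r.1.1.2) • r.1.1.1.2]), ?_, Or.inr ⟨?_, r.1.1.2, rfl⟩⟩)) ?_
    · intro j
      fin_cases j
      · exact ⟨r.1.2.1.1, fun i => r.2.2 0 i⟩
      · exact ⟨r.1.2.1.2.1, fun i => r.2.2 1 i⟩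
      · exact ⟨r.1.2.1.2.2, fun i => M8_comb (r.2.2 0) (r.2.2 1) _ i⟩
    · exact r.1.2.2
    · rintro ⟨⟨a, g⟩, hg, hor⟩
      rcases hor with hli | ⟨hli, l, hl⟩
      · exact ⟨Sum.inl ⟨⟨g, fun j => (hg j).1, hli⟩, ⟨a, fun j i => (hg j).2 i⟩⟩, rfl⟩
      · have hl' : g 2 = l • g 0 + (1 - l) • g 1 := hl
        refine ⟨Sum.inr ⟨⟨((g 0, g 1), l), ⟨(hg 0).1, (hg 1).1, ?_⟩, hli⟩, ⟨a, ?_⟩⟩, ?_⟩
        · show l • g 0 + (1 - l) • g 1 ∈ Z
          rw [← hl']
          exact (hg 2).1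
        · intro j i
          fin_cases j
          · exact (hg 0).2 i
          · exact (hg 1).2 i
        · refine Subtype.ext (Prod.ext rfl ?_)
          funext j
          fin_cases j
          · rfl
          · rfl
          · exact hl'.symm
  have h3 := M8_cardA (s := s) Z y
  have h4 := M8_cardB (s := s) Z y
  have h5 : p ^ (s * 3) = p ^ (s * 2) * p ^ s := by
    rw [← pow_add, ← Nat.mul_succ]
  calc _ ≤ (Nat.card (M8_A Z y) + Nat.card (M8_B Z y)) * p ^ (s * 3) := Nat.mul_le_mul_right _ (h1.trans h2)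
    _ = Nat.card (M8_A Z y) * p ^ (s * 3) + Nat.card (M8_B Z y) * p ^ (s * 2) * p ^ s := by
      rw [add_mul]
      congr 1
      rw [h5, mul_assoc]
    _ ≤ Nat.card Z ^ 3 * p ^ (s * q) + TT Z * p ^ (s * q) * p ^ s :=
      Nat.add_le_add h3 (Nat.mul_le_mul_right _ h4)
    _ = _ := by ring

end LVX
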