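import Mathlib

/-!
# BLOCK MOM, leaf M9: the final inequality (real numbers)

Put `ε = 1 / (8 (C + 4)) ≤ 1 / 32`, `μ f = (∑ f) / W`, `W = card Ω > 0`, `z ≤ (1 + ε) P`.
Case `z ≤ 9 P / 10`: `#{N ≠ 0} ≤ ∑ N ≤ z W / P ≤ 9 W / 10 ≤ (1 - ε) W`.
Case `z > 9 P / 10`: as `8 ≤ p`, `p ^ 2 ≤ P`: `p + 1 ≤ (1 / 8 + 1 / 64) P` (`p ≤ P / p ≤ P / 8`, `1 ≤ P / 64`), so
by `h2'` `μ[N (N - 1)] P ^ 2 ≥ z (z - (p + 1)) ≥ (9/10) (9/10 - 9/64) P ^ 2 ≥ P ^ 2 / 2`.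
By `h2` `μ[N (N - 1)] ≤ (1 + ε) ^ 2`, by `h3` and `hT` `μ[N (N-1) (N-2)] ≤ (1 + ε) ^ 3 + C`, so
`μ[N ^ 2 (N - 1)] = μ[N (N-1) (N-2)] + 2 μ[N (N-1)] ≤ C + 4`
(`Nat.descFactorial`: `N.descFactorial 2 = N (N - 1)`, `N.descFactorial 3 = N (N - 1) (N - 2)`; as reals this holds
for every `N : ℕ` with the real subtraction `(N : ℝ) - 1` etc.).
Cauchy-Schwarz (`Finset.sum_mul_sq_le_sq_mul_sq` or `inner_mul_le_norm_mul_norm`) with the natural subtraction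
`M = ((N - 1 : ℕ) : ℝ) = (N - 1)^+`: `(∑ N M) ^ 2 ≤ (∑ M) (∑ N ^ 2 M)` (write `N M = √M * (N √M)`), hence
`μ[M] ≥ (1 / 4) / (C + 4) = 2 ε`. Finally `1_{N ≠ 0} = N - M` (natural numbers: `N = 0` or `N = (N - 1) + 1`), so
`#{N ≠ 0} = ∑ N - ∑ M ≤ (1 + ε) W - 2 ε W`.
-/

set_option autoImplicit false

namespace LVX

private theorem M9_two (n : ℕ) : (n.descFactorial 2 : ℝ) = (n : ℝ) * ((n - 1 : ℕ) : ℝ) := by
  have h : n.descFactorial 2 = n * (n - 1) := by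
    simp [Nat.descFactorial_succ, Nat.descFactorial_zero]
    ring
  rw [h]
  push_cast
  ring

private theorem M9_three (n : ℕ) : (n : ℝ) ^ 2 * ((n - 1 : ℕ) : ℝ) =
    (n.descFactorial 3 : ℝ) + 2 * (n.descFactorial 2 : ℝ) := by
  rcases n with _ | n
  · simp [Nat.descFactorial_succ]
  · rcases n with _ | n
    · simp [Nat.descFactorial_succ]
    · have h2 : (n + 1 + 1).descFactorial 2 = (n + 2) * (n + 1) := by
        simp [Nat.descFactorial_succ, Nat.descFactorial_zero]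
        ring
      have h3 : (n + 1 + 1).descFactorial 3 = (n + 2) * (n + 1) * n := by
        simp [Nat.descFactorial_succ, Nat.descFactorial_zero]
        ring
      rw [h2, h3]
      have h1 : (n + 1 + 1 - 1 : ℕ) = n + 1 := rfl
      rw [h1]
      push_cast
      ring

private theorem M9_ind (n : ℕ) : (if n ≠ 0 then (1 : ℝ) else 0) = (n : ℝ) - ((n - 1 : ℕ) : ℝ) := by
  rcases n with _ | n
  · simp
  · have h1 : (n + 1 - 1 : ℕ) = n := rfl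
    rw [h1, if_pos (Nat.succ_ne_zero n)]
    push_cast
    ring

private theorem M9_card {Ω : Type} [Fintype Ω] (N : Ω → ℕ) :
    (Nat.card {a // N a ≠ 0} : ℝ) = ∑ a, (N a : ℝ) - ∑ a, ((N a - 1 : ℕ) : ℝ) := by
  classical
  rw [← Finset.sum_sub_distrib, Nat.card_eq_fintype_card, Fintype.card_subtype,
    Finset.card_eq_sum_ones, Finset.sum_filter]
  push_cast
  exact Finset.sum_congr rfl fun a _ => M9_ind (N a)

private theorem M9_cs {Ω : Type} [Fintype Ω] (N : Ω → ℕ) :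
    (∑ a, ((N a).descFactorial 2 : ℝ)) ^ 2 ≤ (∑ a, ((N a - 1 : ℕ) : ℝ)) *
      (∑ a, ((N a).descFactorial 3 : ℝ) + 2 * ∑ a, ((N a).descFactorial 2 : ℝ)) := by
  have h := Finset.sum_mul_sq_le_sq_mul_sq (Finset.univ : Finset Ω)
    (fun a => √((N a - 1 : ℕ) : ℝ)) (fun a => (N a : ℝ) * √((N a - 1 : ℕ) : ℝ))
  have e1 : ∀ a, √((N a - 1 : ℕ) : ℝ) ^ 2 = ((N a - 1 : ℕ) : ℝ) := fun a =>
    Real.sq_sqrt (Nat.cast_nonneg _)
  have e2 : ∑ a, √((N a - 1 : ℕ) : ℝ) * ((N a : ℝ) * √((N a - 1 : ℕ) : ℝ)) =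
      ∑ a, ((N a).descFactorial 2 : ℝ) := by
    refine Finset.sum_congr rfl fun a _ => ?_
    rw [M9_two]
    have := e1 a
    calc √((N a - 1 : ℕ) : ℝ) * ((N a : ℝ) * √((N a - 1 : ℕ) : ℝ))
        = (N a : ℝ) * √((N a - 1 : ℕ) : ℝ) ^ 2 := by ring
      _ = _ := by rw [this]
  have e3 : ∑ a, √((N a - 1 : ℕ) : ℝ) ^ 2 = ∑ a, ((N a - 1 : ℕ) : ℝ) :=
    Finset.sum_congr rfl fun a _ => e1 a
  have e4 : ∑ a, ((N a : ℝ) * √((N a - 1 : ℕ) : ℝ)) ^ 2 =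
      ∑ a, ((N a).descFactorial 3 : ℝ) + 2 * ∑ a, ((N a).descFactorial 2 : ℝ) := by
    rw [Finset.mul_sum, ← Finset.sum_add_distrib]
    refine Finset.sum_congr rfl fun a _ => ?_
    rw [mul_pow, e1, M9_three]
  rw [e2, e3, e4] at h
  exact h

theorem mom_fin {Ω : Type} [Fintype Ω] [Nonempty Ω] (N : Ω → ℕ) (p P z T C : ℝ) (hC : 0 ≤ C)
    (hp : 8 ≤ p) (hP : p ^ 2 ≤ P) (hz0 : 0 ≤ z) (hT0 : 0 ≤ T)
    (hz : 8 * (C + 4) * z ≤ (8 * (C + 4) + 1) * P) (hT : T ≤ C * P ^ 2)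
    (h1 : (∑ a, (N a : ℝ)) * P ≤ z * Fintype.card Ω)
    (h2 : (∑ a, ((N a).descFactorial 2 : ℝ)) * P ^ 2 ≤ z ^ 2 * Fintype.card Ω)
    (h2' : z ^ 2 * Fintype.card Ω ≤
      (∑ a, ((N a).descFactorial 2 : ℝ)) * P ^ 2 + (p + 1) * z * Fintype.card Ω)
    (h3 : (∑ a, ((N a).descFactorial 3 : ℝ)) * P ^ 3 ≤
      z ^ 3 * Fintype.card Ω + T * P * Fintype.card Ω) :
    (Nat.card {a // N a ≠ 0} : ℝ) ≤ (1 - 1 / (8 * (C + 4))) * Fintype.card Ω := by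
  have hcs := M9_cs N
  rw [M9_card]
  have hM0 : 0 ≤ ∑ a, ((N a - 1 : ℕ) : ℝ) := Finset.sum_nonneg fun a _ => Nat.cast_nonneg _
  have hS20 : 0 ≤ ∑ a, ((N a).descFactorial 2 : ℝ) :=
    Finset.sum_nonneg fun a _ => Nat.cast_nonneg _
  have hW : (0 : ℝ) < Fintype.card Ω := by exact_mod_cast Fintype.card_pos
  generalize (Fintype.card Ω : ℝ) = W at *
  generalize ∑ a, (N a : ℝ) = S1 at *
  generalize ∑ a, ((N a).descFactorial 2 : ℝ) = S2 at *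
  generalize ∑ a, ((N a).descFactorial 3 : ℝ) = S3 at *
  generalize ∑ a, ((N a - 1 : ℕ) : ℝ) = M at *
  have hP64 : 64 ≤ P := by nlinarith
  have hP0 : 0 < P := by linarith
  have hp0 : 0 < p := by linarith
  obtain ⟨t, ht⟩ : ∃ t, t = z / P := ⟨_, rfl⟩
  have hzt : z = t * P := by rw [ht]; field_simp
  have ht0 : 0 ≤ t := by rw [ht]; positivity
  subst hzt
  obtain ⟨ε, hε⟩ : ∃ ε, ε = 1 / (8 * (C + 4)) := ⟨_, rfl⟩
  rw [← hε]
  have hε1 : ε * (8 * (C + 4)) = 1 := by rw [hε]; field_simp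
  have hε0 : 0 < ε := by rw [hε]; positivity
  have hε2 : ε ≤ 1 / 32 := by nlinarith
  have ht1 : t ≤ 1 + ε := by
    have h4 : 8 * (C + 4) * t ≤ 8 * (C + 4) + 1 := by
      have h5 : (8 * (C + 4) * t) * P ≤ (8 * (C + 4) + 1) * P := by nlinarith
      exact le_of_mul_le_mul_right h5 hP0
    have h6 : ε * (8 * (C + 4) * t) ≤ ε * (8 * (C + 4) + 1) := mul_le_mul_of_nonneg_left h4 hε0.le
    have h7 : ε * (8 * (C + 4) * t) = t := by
      calc ε * (8 * (C + 4) * t) = (ε * (8 * (C + 4))) * t := by ring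
        _ = t := by rw [hε1, one_mul]
    have h8 : ε * (8 * (C + 4) + 1) = 1 + ε := by
      calc ε * (8 * (C + 4) + 1) = ε * (8 * (C + 4)) + ε := by ring
        _ = 1 + ε := by rw [hε1]
    rw [h7, h8] at h6
    exact h6
  have g1 : S1 ≤ t * W := by
    have h4 : S1 * P ≤ (t * W) * P := by linarith
    exact le_of_mul_le_mul_right h4 hP0
  have g2 : S2 ≤ t ^ 2 * W := by
    have h4 : S2 * P ^ 2 ≤ (t ^ 2 * W) * P ^ 2 := by linarith
    exact le_of_mul_le_mul_right h4 (by positivity)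
  have g3 : S3 ≤ (t ^ 3 + C) * W := by
    have h4 : T * P * W ≤ (C * P ^ 2) * P * W := by gcongr
    have h5 : S3 * P ^ 3 ≤ ((t ^ 3 + C) * W) * P ^ 3 := by nlinarith
    exact le_of_mul_le_mul_right h5 (by positivity)
  by_cases hc : t ≤ 9 / 10
  · have h4 : t * W ≤ (9 / 10) * W := mul_le_mul_of_nonneg_right hc hW.le
    have h5 : ε * W ≤ (1 / 32) * W := mul_le_mul_of_nonneg_right hε2 hW.le
    nlinarith
  · push Not at hc
    have hpP : p + 1 ≤ (9 / 64) * P := by nlinarith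
    have g2' : (1 / 2) * W ≤ S2 := by
      have h4 : (p + 1) * (t * P) * W ≤ ((9 / 64) * P) * (t * P) * W := by gcongr
      have h5 : (t ^ 2 * W) * P ^ 2 ≤ (S2 + (9 / 64) * t * W) * P ^ 2 := by nlinarith
      have h6 : t ^ 2 * W ≤ S2 + (9 / 64) * t * W := le_of_mul_le_mul_right h5 (by positivity)
      have h7 : (1 / 2) ≤ t ^ 2 - (9 / 64) * t := by nlinarith
      have h8 : (1 / 2) * W ≤ (t ^ 2 - (9 / 64) * t) * W := mul_le_mul_of_nonneg_right h7 hW.le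
      linarith
    have ht33 : t ≤ 33 / 32 := by linarith
    have ht2 : t ^ 2 ≤ 11 / 10 := by nlinarith
    have ht3 : t ^ 3 ≤ 6 / 5 := by nlinarith [mul_nonneg ht0 ht0]
    have g4 : S3 + 2 * S2 ≤ (C + 4) * W := by
      have h4 : (t ^ 3 + C) * W + 2 * (t ^ 2 * W) = (t ^ 3 + C + 2 * t ^ 2) * W := by ring
      have h5 : (t ^ 3 + C + 2 * t ^ 2) * W ≤ (C + 4) * W :=
        mul_le_mul_of_nonneg_right (by linarith) hW.le
      linarith
    have g5 : ((1 / 2) * W) ^ 2 ≤ M * ((C + 4) * W) := by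
      calc ((1 / 2) * W) ^ 2 ≤ S2 ^ 2 := by gcongr
        _ ≤ M * (S3 + 2 * S2) := hcs
        _ ≤ M * ((C + 4) * W) := mul_le_mul_of_nonneg_left g4 hM0
    have g6 : (1 / 4) * W ≤ M * (C + 4) := by
      have h4 : ((1 / 4) * W) * W ≤ (M * (C + 4)) * W := by nlinarith
      exact le_of_mul_le_mul_right h4 hW
    have g7 : 2 * ε * W ≤ M := by
      have h4 : (8 * ε) * ((1 / 4) * W) ≤ (8 * ε) * (M * (C + 4)) :=
        mul_le_mul_of_nonneg_left g6 (by positivity)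
      have h5 : (8 * ε) * (M * (C + 4)) = M := by
        calc (8 * ε) * (M * (C + 4)) = (ε * (8 * (C + 4))) * M := by ring
          _ = M := by rw [hε1, one_mul]
      rw [h5] at h4
      linarith
    have h9 : t * W ≤ (1 + ε) * W := mul_le_mul_of_nonneg_right ht1 hW.le
    nlinarith

end LVX
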