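import Mathlib
import Pool.Agent.Lib.MP_17a322_ntLX.M5
import Pool.Agent.Lib.MP_17a322_ntLX.M6
import Pool.Agent.Lib.MP_17a322_ntLX.M7
import Pool.Agent.Lib.MP_17a322_ntLX.M8
import Pool.Agent.Lib.MP_17a322_ntLX.M9

/-!
# BLOCK MOM.  Linear sections of a cone: the moment inequality

PROOF.  `V = Fin q → ZMod p`, `Ω = Fin s → V` (the random linear map `a`), `N(a)` the number of `x ∈ Z` with `a x = y`.  As `y ≠ 0`, `x = 0` does not occur.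
(i) for linearly independent `x_1, ..., x_m` (`m = 1, 2, 3`) the number of `a` with `a x_i = y` for all `i` is `|Ω| / p ^ (s m)` (row by row: `v ↦ (v x_1, ..., v x_m)` is surjective).
(ii) `∑ N = |Z \ 0| |Ω| / p ^ s`, so if `|Z| ≤ 9 p ^ s / 10` we are done (`1 / (8 (C + 4)) ≤ 1 / 32`).  Assume `|Z| > 9 p ^ s / 10`.
(iii) two distinct dependent vectors have no common `a` (`x' = l x`, `y = l y`, `l = 1`), so `∑ N (N - 1) = Q |Ω| / p ^ (2 s)`, `Q` the number of pairs of independent vectors in `Z`, `Q ≥ |Z| ^ 2 - (p + 1) |Z| ≥ p ^ (2 s) / 2` (`s ≥ 2`, `p ≥ 8`) and `Q ≤ |Z| ^ 2`.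
(iv) `∑ N (N - 1) (N - 2) ≤ |Ω| (|Z| ^ 3 / p ^ (3 s) + T / p ^ (2 s))`, `T` the cardinality in `h3`: three distinct vectors of a fibre are pairwise independent; if dependent, `x'' = α x + β x'` and `y = (α + β) y`, so `β = 1 - α`.
(v) with `μ` the mean over `Ω`, `μ[N] ≤ 1 + 1 / (8 (C + 4))`, `μ[N (N - 1)] ≥ 1 / 2`, `μ[N ^ 2 (N - 1)] = μ[N (N - 1) (N - 2)] + 2 μ[N (N - 1)] ≤ C + 4` (as `(1 + ε) ^ 3 + 2 (1 + ε) ^ 2 ≤ 4` for `ε ≤ 1 / 32`), and Cauchy-Schwarz with `N (N - 1) = √(N - 1)^+ * N √(N - 1)^+` gives `μ[(N - 1)^+] ≥ 1 / (4 (C + 4))`; finally `P(N ≥ 1) = μ[N] - μ[(N - 1)^+] ≤ 1 + 1 / (8 (C + 4)) - 1 / (4 (C + 4))`.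
-/

namespace LVX

theorem mom {p : ℕ} [Fact p.Prime] (hp : 8 ≤ p) {q s : ℕ} (hs : 2 ≤ s) (Z : Set (Fin q → ZMod p))
    (hZ : ∀ x ∈ Z, ∀ l : ZMod p, l • x ∈ Z) (C : ℕ)
    (h1 : 8 * (C + 4) * Nat.card Z ≤ (8 * (C + 4) + 1) * p ^ s)
    (h3 : Nat.card {t : ((Fin q → ZMod p) × (Fin q → ZMod p)) × ZMod p //
      t.1.1 ∈ Z ∧ t.1.2 ∈ Z ∧ t.2 • t.1.1 + (1 - t.2) • t.1.2 ∈ Z} ≤ C * p ^ (2 * s))
    (y : Fin s → ZMod p) (hy : ∀ i, y i ≠ 0) :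
    (Nat.card {a : Fin s → Fin q → ZMod p // ∃ x ∈ Z, ∀ i, ∑ k, a i k * x k = y i} : ℝ) ≤
      (1 - 1 / (8 * (C + 4))) * (p : ℝ) ^ (s * q) := by
  have hy' : ∃ i, y i ≠ 0 := ⟨⟨0, by omega⟩, hy _⟩
  have hcard : (Fintype.card (Fin s → Fin q → ZMod p) : ℝ) = (p : ℝ) ^ (s * q) := by
    rw [Fintype.card_fun, Fintype.card_fun, ZMod.card, Fintype.card_fin, Fintype.card_fin]
    push_cast
    rw [← pow_mul, mul_comm q s]
  have hp0 : (8 : ℝ) ≤ p := by exact_mod_cast hp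
  have key := mom_fin (Ω := Fin s → Fin q → ZMod p) (fun a => NN Z y a) (p : ℝ) ((p : ℝ) ^ s)
    (Nat.card Z : ℝ) (TT Z : ℝ) (C : ℝ) (Nat.cast_nonneg _) hp0
    (pow_le_pow_right₀ (by linarith) hs) (Nat.cast_nonneg _) (Nat.cast_nonneg _)
    (by exact_mod_cast h1)
    (by
      rw [← pow_mul, mul_comm s 2]
      exact_mod_cast h3)
    (by
      rw [hcard]
      exact_mod_cast mom_one Z y hy')
    (by
      rw [hcard, ← pow_mul]
      have h := mom_two Z y hy'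
      have h' := Nat.mul_le_mul_right (p ^ (s * q)) (QQ_le Z)
      rw [← h] at h'
      exact_mod_cast h')
    (by
      rw [hcard, ← pow_mul]
      have h := mom_two Z y hy'
      have h' := Nat.mul_le_mul_right (p ^ (s * q)) (QQ_ge Z)
      rw [add_mul, ← h] at h'
      exact_mod_cast h')
    (by
      rw [hcard, ← pow_mul]
      exact_mod_cast mom_three Z y hy')
  rw [hcard] at key
  have he : Nat.card {a : Fin s → Fin q → ZMod p // ∃ x ∈ Z, ∀ i, ∑ k, a i k * x k = y i} =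
      Nat.card {a : Fin s → Fin q → ZMod p // NN Z y a ≠ 0} := by
    refine Nat.card_congr (Equiv.subtypeEquivRight fun a => ?_)
    unfold NN
    rw [Nat.card_ne_zero]
    constructor
    · rintro ⟨x, hx, h⟩
      exact ⟨⟨⟨x, hx, h⟩⟩, inferInstance⟩
    · rintro ⟨⟨⟨x, hx, h⟩⟩, _⟩
      exact ⟨x, hx, h⟩
  rw [he]
  exact key

end LVX
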