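import Pool.Agent.Lib.MP_17a322_ntLX.NLc
import Pool.Agent.Lib.MP_17a322_ntLX.Cone
import Pool.Agent.Lib.MP_17a322_ntLX.Mom

/-!
# LEAF NLd: random linear sections of a nonlinear variety modulo a prime

PROOF.  Rename the variables (`Vr 0 q ≃ Fin q`, as in `Cone`; `NL` is preserved) and apply `nlc`; the set `Z` of the zeros in `Fin q → ZMod p` satisfies the hypotheses of `mom` (stable under scalars by homogeneity).  `Cn s` follows from `8 (C + 4) |Z| ≤ (8 (C + 4) + 1) p ^ s`, as `8 (C + 4) ≥ 10`, with `j = 0`.  When all `d i = 1`, `Mo 0 q d` is the set of the pairs of an index in `Fin s` and an element of `Sym (Vr 0 q) 1`, i.e. of `Fin q`, and `Fv a i x = ∑ k, a i k x k`: so the number of the `a` is that of `mom`, and `Fintype.card (Mo 0 q d) = s * q`.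
-/

namespace LVX

open NumberField
open LVH (Vr fv co)

private theorem NLd_smul {σ R S : Type} [CommRing R] [CommRing S] (f : R →+* S) {n : ℕ} {g : MvPolynomial σ R}
    (hg : g.IsHomogeneous n) (x : σ → S) (l : S) :
    MvPolynomial.eval₂ f (l • x) g = l ^ n * MvPolynomial.eval₂ f x g := by
  rw [MvPolynomial.eval₂_eq, MvPolynomial.eval₂_eq, Finset.mul_sum]
  refine Finset.sum_congr rfl fun d hd => ?_
  have h1 : d.degree = n := by
    by_contra h
    exact (MvPolynomial.mem_support_iff.1 hd) (hg.coeff_eq_zero h)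
  have h2 : ∏ i ∈ d.support, (l • x) i ^ d i = l ^ n * ∏ i ∈ d.support, x i ^ d i := by
    rw [← h1, Finsupp.degree_apply, ← Finset.prod_pow_eq_pow_sum, ← Finset.prod_mul_distrib]
    refine Finset.prod_congr rfl fun i _ => ?_
    rw [Pi.smul_apply, smul_eq_mul, mul_pow]
  rw [h2]
  ring

private theorem NLd_prime {A A' B B' : Type} [CommRing A] [CommRing A'] [CommRing B] [CommRing B'] (E : A ≃+* A')
    (EL : B ≃+* B') (f : A →+* B) (f' : A' →+* B') (h : f'.comp (E : A →+* A') = (EL : B →+* B').comp f) (P : Ideal A)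
    (hP : (P.map f).IsPrime) : ((P.map (E : A →+* A')).map f').IsPrime := by
  rw [Ideal.map_map, h, ← Ideal.map_map]
  exact Ideal.map_isPrime_of_equiv EL

private theorem NLd_mem {A A' : Type} [CommRing A] [CommRing A'] (E : A ≃+* A') (P : Ideal A) (g : A')
    (hg : g ∈ P.map (E : A →+* A')) : E.symm g ∈ P := by
  have h1 : g ∈ P.comap E.symm := by
    rw [Ideal.comap_symm]
    exact hg
  exact h1

private theorem NLd_dim {A A' : Type} [CommRing A] [CommRing A'] (E : A ≃+* A') (P : Ideal A) :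
    ringKrullDim (A' ⧸ (P.map (E : A →+* A'))) = ringKrullDim (A ⧸ P) :=
  (ringKrullDim_eq_of_ringEquiv (Ideal.quotientEquiv P (P.map (E : A →+* A')) E rfl)).symm

private theorem NLd_e (q : ℕ) : ⇑(Equiv.emptySum (Fin 0) (Fin q)).symm = (Sum.inr : Fin q → Vr 0 q) := by
  funext i
  apply (Equiv.emptySum (Fin 0) (Fin q)).injective
  rw [Equiv.apply_symm_apply]
  exact (Equiv.emptySum_apply_inr i).symm

private theorem NLd_arith {M N P : ℕ} (hM : 10 ≤ M) (h : M * N ≤ (M + 1) * P) : 10 * N ≤ 11 * P := by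
  have h5 : M * (10 * N) ≤ M * (11 * P) := by
    calc M * (10 * N) = 10 * (M * N) := by ring
      _ ≤ 10 * ((M + 1) * P) := Nat.mul_le_mul_left _ h
      _ = (10 * M + 10) * P := by ring
      _ ≤ (11 * M) * P := Nat.mul_le_mul_right _ (by omega)
      _ = M * (11 * P) := by ring
  exact Nat.le_of_mul_le_mul_left h5 (by omega)

private def NLd_idx (s q : ℕ) : Fin s × Fin q ≃ Mo 0 q (fun _ : Fin s => 1) where
  toFun t := ⟨t.1, Sym.oneEquiv ((Equiv.emptySum (Fin 0) (Fin q)).symm t.2)⟩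
  invFun m := (m.1, Equiv.emptySum (Fin 0) (Fin q) (Sym.oneEquiv.symm m.2))
  left_inv t := by
    obtain ⟨i, k⟩ := t
    refine Prod.ext rfl ?_
    change Equiv.emptySum (Fin 0) (Fin q) (Sym.oneEquiv.symm (Sym.oneEquiv
      ((Equiv.emptySum (Fin 0) (Fin q)).symm k))) = k
    rw [Equiv.symm_apply_apply, Equiv.apply_symm_apply]
  right_inv m := by
    obtain ⟨i, k⟩ := m
    change (⟨i, Sym.oneEquiv ((Equiv.emptySum (Fin 0) (Fin q)).symm
      (Equiv.emptySum (Fin 0) (Fin q) (Sym.oneEquiv.symm k)))⟩ : Mo 0 q (fun _ : Fin s => 1)) = ⟨i, k⟩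
    rw [Equiv.symm_apply_apply, Equiv.apply_symm_apply]

private theorem NLd_Fv {R : Type} [CommRing R] {s q : ℕ} (a : Mo 0 q (fun _ : Fin s => 1) → R) (i : Fin s)
    (u : Fin 0 → R) (z : Fin q → R) :
    Fv a i (Sum.elim u z) = ∑ k, a (NLd_idx s q (i, k)) * z k := by
  unfold Fv fv
  symm
  refine Fintype.sum_equiv ((Equiv.emptySum (Fin 0) (Fin q)).symm.trans Sym.oneEquiv) _ _ fun k => ?_
  have h1 : LVH.mon (Sum.elim u z : Vr 0 q → R)
      (((Equiv.emptySum (Fin 0) (Fin q)).symm.trans Sym.oneEquiv) k) = z k := by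
    rw [Equiv.trans_apply, NLd_e]
    unfold LVH.mon
    change ((({Sum.inr k} : Multiset (Vr 0 q))).map (Sum.elim u z)).prod = z k
    rw [Multiset.map_singleton, Multiset.prod_singleton]
    rfl
  rw [h1]
  rfl

theorem nld (K : Type) [Field K] [NumberField K] {q s : ℕ} (P : Ideal (MvPolynomial (Vr 0 q) K)) (hP : GI P s)
    (hs : 2 ≤ s) (hNL : LW.NL P) (d : Fin s → ℕ) (hd : ∀ i, d i = 1) :
    ∃ G : Finset (MvPolynomial (Vr 0 q) (𝓞 K)), (∀ g ∈ G, ∃ n, g.IsHomogeneous n) ∧
      (∀ g ∈ G, MvPolynomial.map (algebraMap (𝓞 K) K) g ∈ P) ∧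
        ∃ c : ℝ, 0 < c ∧ ∃ p1 : ℕ, ∀ (p : ℕ) [Fact p.Prime], p1 ≤ p → ∀ φ : 𝓞 K →+* ZMod p, Cn s (Zs G φ) ∧
          ∀ (u : Fin 0 → ZMod p) (y : Fin s → ZMod p), (∀ i, y i ≠ 0) →
            (Nat.card {a : Mo 0 q d → ZMod p // ∃ z : Fin q → ZMod p, (Sum.elim u z : Vr 0 q → ZMod p) ∈ Zs G φ ∧
              ∀ i, Fv a i (Sum.elim u z) = y i} : ℝ) ≤ (1 - c) * (p : ℝ) ^ Fintype.card (Mo 0 q d) := by
  classical
  obtain ⟨hP1, hP2, hP3⟩ := hP
  obtain rfl : d = fun _ => 1 := funext hd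
  let e : Vr 0 q ≃ Fin q := Equiv.emptySum (Fin 0) (Fin q)
  have he : ⇑e.symm = (Sum.inr : Fin q → Vr 0 q) := NLd_e q
  let E : MvPolynomial (Vr 0 q) K ≃+* MvPolynomial (Fin q) K := (MvPolynomial.renameEquiv K e).toRingEquiv
  let EL : MvPolynomial (Vr 0 q) (AlgebraicClosure K) ≃+* MvPolynomial (Fin q) (AlgebraicClosure K) :=
    (MvPolynomial.renameEquiv (AlgebraicClosure K) e).toRingEquiv
  have hE : ∀ g, E g = MvPolynomial.rename e g := fun g => rfl
  have hEs : ∀ g, E.symm g = MvPolynomial.rename e.symm g := fun g => rfl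
  have hEL : ∀ g, EL g = MvPolynomial.rename e g := fun g => rfl
  let P' : Ideal (MvPolynomial (Fin q) K) := P.map (E : MvPolynomial (Vr 0 q) K →+* MvPolynomial (Fin q) K)
  have hmem : ∀ g, g ∈ P' → MvPolynomial.rename e.symm g ∈ P := by
    intro g hg
    rw [← hEs]
    exact NLd_mem E P g hg
  have hmem' : ∀ g, g ∈ P → MvPolynomial.rename e g ∈ P' := by
    intro g hg
    rw [← hE]
    exact Ideal.mem_map_of_mem (E : MvPolynomial (Vr 0 q) K →+* MvPolynomial (Fin q) K) hg
  have hprime : (P'.map (MvPolynomial.map (σ := Fin q) (algebraMap K (AlgebraicClosure K)))).IsPrime := by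
    refine NLd_prime E EL (MvPolynomial.map (σ := Vr 0 q) (algebraMap K (AlgebraicClosure K)))
      (MvPolynomial.map (σ := Fin q) (algebraMap K (AlgebraicClosure K))) ?_ P hP2
    refine RingHom.ext fun g => ?_
    change MvPolynomial.map (algebraMap K (AlgebraicClosure K)) (E g) =
      EL (MvPolynomial.map (algebraMap K (AlgebraicClosure K)) g)
    rw [hE, hEL, MvPolynomial.map_rename]
  have hdim : ringKrullDim (MvPolynomial (Fin q) K ⧸ P') = s := by
    rw [← hP3]
    exact NLd_dim E P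
  have hh : ∀ g ∈ P', ∀ n, MvPolynomial.homogeneousComponent n g ∈ P' := by
    intro g hg n
    have h1 := hP1 _ (hmem g hg) n
    rw [← MvPolynomial.rename_homogeneousComponent] at h1
    have h2 := hmem' _ h1
    rw [MvPolynomial.rename_rename] at h2
    have h3 : ⇑e ∘ ⇑e.symm = id := by
      funext i
      simp
    rw [h3, MvPolynomial.rename_id] at h2
    exact h2
  have hNL' : LW.NL P' := by
    obtain ⟨x, x', h1, h2, g, hg, h3⟩ := hNL
    refine ⟨x ∘ e.symm, x' ∘ e.symm, ?_, ?_, MvPolynomial.rename e g, hmem' g hg, ?_⟩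
    · intro g hg
      have h4 := h1 _ (hmem g hg)
      rw [MvPolynomial.aeval_rename] at h4
      exact h4
    · intro g hg
      have h4 := h2 _ (hmem g hg)
      rw [MvPolynomial.aeval_rename] at h4
      exact h4
    · rw [MvPolynomial.aeval_rename]
      have h4 : (x ∘ e.symm + x' ∘ e.symm) ∘ e = x + x' := by
        funext i
        simp
      rw [h4]
      exact h3
  obtain ⟨G0, hG0, hG0', C, p1, hp1⟩ := nlc K P' hh hprime (by omega) hdim hNL'
  have hev : ∀ (p : ℕ) (φ : 𝓞 K →+* ZMod p) (u : Fin 0 → ZMod p) (z : Fin q → ZMod p)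
      (g : MvPolynomial (Fin q) (𝓞 K)),
      MvPolynomial.eval₂ φ (Sum.elim u z : Vr 0 q → ZMod p) (MvPolynomial.rename e.symm g) =
        MvPolynomial.eval₂ φ z g := by
    intro p φ u z g
    rw [MvPolynomial.eval₂_rename]
    have h1 : (Sum.elim u z : Vr 0 q → ZMod p) ∘ e.symm = z := by
      funext i
      rw [Function.comp_apply, congrFun he i]
      rfl
    rw [h1]
  refine ⟨G0.image (MvPolynomial.rename e.symm), ?_, ?_, 1 / (8 * (C + 4)), by positivity, max p1 8, ?_⟩
  · intro g hg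
    obtain ⟨g0, hg0, rfl⟩ := Finset.mem_image.1 hg
    obtain ⟨n, hn⟩ := hG0 g0 hg0
    exact ⟨n, hn.rename_isHomogeneous⟩
  · intro g hg
    obtain ⟨g0, hg0, rfl⟩ := Finset.mem_image.1 hg
    rw [MvPolynomial.map_rename]
    exact hmem _ (hG0' g0 hg0)
  · intro p hp hpp φ
    have hZ : ∀ (u : Fin 0 → ZMod p) (z : Fin q → ZMod p),
        (Sum.elim u z : Vr 0 q → ZMod p) ∈ Zs (G0.image (MvPolynomial.rename e.symm)) φ ↔
          ∀ g ∈ G0, MvPolynomial.eval₂ φ z g = 0 := by
      intro u z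
      constructor
      · intro h g hg
        rw [← hev p φ u z g]
        exact h _ (Finset.mem_image_of_mem _ hg)
      · intro h g hg
        obtain ⟨g0, hg0, rfl⟩ := Finset.mem_image.1 hg
        rw [hev]
        exact h g0 hg0
    obtain ⟨c1, c3⟩ := hp1 p (le_trans (le_max_left _ _) hpp) φ
    have hcard : ∀ u : Fin 0 → ZMod p, Nat.card {z : Fin q → ZMod p //
        (Sum.elim u z : Vr 0 q → ZMod p) ∈ Zs (G0.image (MvPolynomial.rename e.symm)) φ} =
          Nat.card {x : Fin q → ZMod p // ∀ g ∈ G0, MvPolynomial.eval₂ φ x g = 0} :=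
      fun u => Nat.card_congr (Equiv.subtypeEquivRight (hZ u))
    have h10 := NLd_arith (by omega) c1
    refine ⟨⟨?_, ?_, ?_⟩, ?_⟩
    · intro x hx l g hg
      obtain ⟨g0, hg0, rfl⟩ := Finset.mem_image.1 hg
      obtain ⟨n, hn⟩ := hG0 g0 hg0
      rw [NLd_smul φ hn.rename_isHomogeneous, hx _ hg, mul_zero]
    · intro u _
      rw [hcard u]
      exact h10
    · rw [hcard]
      omega
    · intro u y hy
      have hm := mom (p := p) (le_trans (le_max_right _ _) hpp) hs
        {z : Fin q → ZMod p | ∀ g ∈ G0, MvPolynomial.eval₂ φ z g = 0} (by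
          intro x hx l g hg
          obtain ⟨n, hn⟩ := hG0 g hg
          rw [NLd_smul φ hn, hx g hg, mul_zero]) C c1 c3 y hy
      have hc : Fintype.card (Mo 0 q (fun _ : Fin s => 1)) = s * q := by
        rw [← Fintype.card_congr (NLd_idx s q), Fintype.card_prod, Fintype.card_fin, Fintype.card_fin]
      let Ψ : (Mo 0 q (fun _ : Fin s => 1) → ZMod p) ≃ (Fin s → Fin q → ZMod p) :=
        (Equiv.arrowCongr (NLd_idx s q).symm (Equiv.refl _)).trans (Equiv.curry _ _ _)
      have hΨ : ∀ a i k, Ψ a i k = a (NLd_idx s q (i, k)) := fun a i k => rfl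
      have hEq : Nat.card {a : Mo 0 q (fun _ : Fin s => 1) → ZMod p // ∃ z : Fin q → ZMod p,
          (Sum.elim u z : Vr 0 q → ZMod p) ∈ Zs (G0.image (MvPolynomial.rename e.symm)) φ ∧
            ∀ i, Fv a i (Sum.elim u z) = y i} =
          Nat.card {a : Fin s → Fin q → ZMod p //
            ∃ x ∈ {z : Fin q → ZMod p | ∀ g ∈ G0, MvPolynomial.eval₂ φ z g = 0},
              ∀ i, ∑ k, a i k * x k = y i} := by
        refine Nat.card_congr (Equiv.subtypeEquiv Ψ fun a => ?_)
        refine exists_congr fun z => ?_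
        refine and_congr (hZ u z) ?_
        refine forall_congr' fun i => ?_
        rw [NLd_Fv]
        exact Iff.rfl
      rw [hEq, hc]
      exact hm

end LVX
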