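import Pool.Agent.Lib.MP_17a322_ntLX.E5E
import Pool.Agent.Lib.MP_17a322_ntLX.E5F
import Pool.Agent.Lib.MP_17a322_ntLX.E6
import Pool.Agent.Lib.MP_17a322_ntLX.NLd
import Pool.Agent.Lib.MP_17a322_ntLH.E7

/-! The density of the local condition, in the three cases. -/

namespace LVX

open Finset NumberField
open LVH (Vr fv co cofib)

theorem Cn.mono {p j q r s : ℕ} (hp : 1 ≤ p) (hrs : r ≤ s) {Z : Set (Vr j q → ZMod p)} (h : Cn r Z) : Cn s Z := by
  have h0 : p ^ r ≤ p ^ s := Nat.pow_le_pow_right hp hrs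
  exact ⟨h.1, fun u hu => (h.2.1 u hu).trans (Nat.mul_le_mul_left _ h0), h.2.2.trans (Nat.mul_le_mul_left _ h0)⟩

/-- the finite part and the part at infinity -/
theorem comb {p : ℕ} [Fact p.Prime] {j q s : ℕ} {Z : Set (Vr j q → ZMod p)} (hZ : Cn s Z) (d : Fin s → ℕ) {c : ℝ}
    (hc : 0 < c) (hp : 8 / c + 2 ≤ p) (u : Fin j → ZMod p) (y : Fin s → ZMod p)
    (hf : (Nat.card {a : Mo j q d → ZMod p // ∃ z : Fin q → ZMod p, (Sum.elim u z : Vr j q → ZMod p) ∈ Z ∧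
      ∀ i, Fv a i (Sum.elim u z) = y i} : ℝ) ≤ (1 - c) * (p : ℝ) ^ Fintype.card (Mo j q d))
    {e : ℕ} (ω : Fin e → ZMod p) (hω : ω ≠ 0) :
    (Nat.card (RR Z d ω u y) : ℝ) ≤ (1 - c / 2) * (p : ℝ) ^ Fintype.card (Mo j q d × Fin e) := by
  have hpr : p.Prime := Fact.out
  have hp0 : (0 : ℝ) < p := by exact_mod_cast hpr.pos
  set P : Set (Mo j q d → ZMod p) := {a | ∃ z : Fin q → ZMod p, (Sum.elim u z : Vr j q → ZMod p) ∈ Z ∧
    ∀ i, Fv a i (Sum.elim u z) = y i} with hP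
  set P' : Set (Mo j q d → ZMod p) := {a | ∃ z : Fin q → ZMod p, z ≠ 0 ∧
    (Sum.elim (fun _ => 0) z : Vr j q → ZMod p) ∈ Z ∧ ∀ i, Fv a i (Sum.elim (fun _ => 0) z) = 0} with hP'
  have hX : (0 : ℝ) < (p : ℝ) ^ Fintype.card (Mo j q d) := pow_pos hp0 _
  have h1 : (Nat.card P : ℝ) ≤ (1 - c) * (p : ℝ) ^ Fintype.card (Mo j q d) := hf
  have h2 : (Nat.card P' : ℝ) ≤ c / 4 * (p : ℝ) ^ Fintype.card (Mo j q d) := by
    have h3 : Nat.card P' * (p - 1) ≤ 2 * p ^ Fintype.card (Mo j q d) := inf_part hZ d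
    have h4 : (Nat.card P' : ℝ) * ((p : ℝ) - 1) ≤ 2 * (p : ℝ) ^ Fintype.card (Mo j q d) := by
      have h5 : ((p - 1 : ℕ) : ℝ) = (p : ℝ) - 1 := by rw [Nat.cast_sub hpr.one_lt.le, Nat.cast_one]
      rw [← h5]
      exact_mod_cast h3
    have h6 : 8 / c ≤ (p : ℝ) - 1 := by linarith
    have h7 : (0 : ℝ) ≤ Nat.card P' := Nat.cast_nonneg _
    have h8 : (Nat.card P' : ℝ) * (8 / c) ≤ 2 * (p : ℝ) ^ Fintype.card (Mo j q d) :=
      (mul_le_mul_of_nonneg_left h6 h7).trans h4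
    have h9 : (Nat.card P' : ℝ) = (Nat.card P' : ℝ) * (8 / c) * (c / 8) := by
      field_simp
    rw [h9]
    calc (Nat.card P' : ℝ) * (8 / c) * (c / 8) ≤ 2 * (p : ℝ) ^ Fintype.card (Mo j q d) * (c / 8) :=
          mul_le_mul_of_nonneg_right h8 (by positivity)
      _ = c / 4 * (p : ℝ) ^ Fintype.card (Mo j q d) := by ring
  have h4 : (Nat.card ((P ∪ P' : Set (Mo j q d → ZMod p))) : ℝ) ≤ (1 - c / 2) * (p : ℝ) ^ Fintype.card (Mo j q d) := by
    have h5 : Nat.card ((P ∪ P' : Set (Mo j q d → ZMod p))) ≤ Nat.card P + Nat.card P' := by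
      rw [Nat.card_coe_set_eq, Nat.card_coe_set_eq, Nat.card_coe_set_eq]
      exact Set.ncard_union_le _ _
    have h6 : (Nat.card ((P ∪ P' : Set (Mo j q d → ZMod p))) : ℝ) ≤ (Nat.card P : ℝ) + (Nat.card P' : ℝ) := by exact_mod_cast h5
    nlinarith [mul_pos hc hX]
  exact cofib ω hω (P ∪ P') _ h4

/-- the local density statement for the finite set `G` of equations and the degrees `d` -/
def LD {K : Type} [Field K] [NumberField K] {j q s : ℕ} (G : Finset (MvPolynomial (Vr j q) (𝓞 K))) (d : Fin s → ℕ) : Prop :=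
  ∃ c : ℝ, 0 < c ∧ c < 1 ∧ ∃ p0 : ℕ, ∀ p : ℕ, p.Prime → p0 ≤ p → ∀ φ : 𝓞 K →+* ZMod p,
    ∀ {e : ℕ} (ω : Fin e → ZMod p), ω ≠ 0 → ∀ u : Fin j → ZMod p, (∀ l, u l ≠ 0) → ∀ y : Fin s → ZMod p,
      (∀ i, y i ≠ 0) → (Nat.card (RR (Zs G φ) d ω u y) : ℝ) ≤ (1 - c) * (p : ℝ) ^ Fintype.card (Mo j q d × Fin e)

private theorem not_NL_bot {K σ : Type} [Field K] : ¬ LW.NL (⊥ : Ideal (MvPolynomial σ K)) := by
  rintro ⟨x, x', -, -, g, hg, h⟩
  rw [Ideal.mem_bot] at hg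
  rw [hg, map_zero] at h
  exact h rfl

theorem local_dens (K : Type) [Field K] [NumberField K] {j q r s : ℕ} (P : Ideal (MvPolynomial (Vr j q) K))
    (hP : GI P (j + r)) (hj : j = 0 ∨ P = ⊥) (hrs : r ≤ s) (d : Fin s → ℕ) (hd : ∀ i, 1 ≤ d i) (hjr : 2 ≤ j + r)
    (h : r < s ∨ (∃ i, 2 ≤ d i) ∨ LW.NL P) :
    ∃ G : Finset (MvPolynomial (Vr j q) (𝓞 K)), (∀ g ∈ G, ∃ n, g.IsHomogeneous n) ∧
      (∀ g ∈ G, MvPolynomial.map (algebraMap (𝓞 K) K) g ∈ P) ∧ LD G d := by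
  rcases lt_or_eq_of_le hrs with hlt | heq
  · -- more forms than the dimension of the cone
    obtain ⟨G, hGh, hGP, p1, hp1⟩ := coneZ K P hP hj (by
      intro h0
      omega)
    refine ⟨G, hGh, hGP, 1 / 4, by norm_num, by norm_num, max p1 20, fun p hp hpp φ e ω hω u hu y hy => ?_⟩
    have : Fact p.Prime := ⟨hp⟩
    have hpr : (20 : ℝ) ≤ p := by exact_mod_cast (le_max_right _ _).trans hpp
    have hZ := hp1 p ((le_max_left _ _).trans hpp) φ
    have hX : (0 : ℝ) < (p : ℝ) ^ Fintype.card (Mo j q d) := pow_pos (by linarith) _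
    have h1 := fin_lt hZ d hd hlt u hu y hy
    have h2 : (11 / 10 / p : ℝ) ≤ 1 - 1 / 2 := by
      rw [div_le_iff₀ (by linarith)]
      linarith
    have h3 := comb (hZ.mono hp.one_lt.le hrs) d (c := 1 / 2) (by norm_num) (by
        rw [show (8 : ℝ) / (1 / 2) + 2 = 18 by norm_num]
        linarith) u y
      (h1.trans (mul_le_mul_of_nonneg_right h2 hX.le)) ω hω
    refine h3.trans (le_of_eq ?_)
    norm_num
  · subst heq
    by_cases hd2 : ∃ i, 2 ≤ d i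
    · obtain ⟨i0, hi0⟩ := hd2
      obtain ⟨G, hGh, hGP, p1, hp1⟩ := cone K P hP hj i0.pos
      obtain ⟨D, hD⟩ : ∃ D : ℕ, D = 1 + ∑ i, d i := ⟨_, rfl⟩
      refine ⟨G, hGh, hGP, 1 / 200, by norm_num, by norm_num, max p1 (10000 * (D + 1)),
        fun p hp hpp φ e ω hω u hu y hy => ?_⟩
      have : Fact p.Prime := ⟨hp⟩
      have hpD : 10000 * ((D : ℝ) + 1) ≤ p := by exact_mod_cast (le_max_right _ _).trans hpp
      have hD0 : (0 : ℝ) ≤ D := Nat.cast_nonneg _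
      have hp0 : (0 : ℝ) < p := by exact_mod_cast hp.pos
      have hZ := hp1 p ((le_max_left _ _).trans hpp) φ
      have hX : (0 : ℝ) < (p : ℝ) ^ Fintype.card (Mo j q d) := pow_pos hp0 _
      have h1 := fin_part hZ d hd hjr i0 hi0 u hu y hy
      rw [← hD] at h1
      have h2 : (1 - 1 / 60 + (D : ℝ) / p : ℝ) ≤ 1 - 1 / 100 := by
        have h3 : (D : ℝ) / p ≤ 1 / 10000 := by
          rw [div_le_iff₀ hp0]
          linarith
        linarith
      have h3 := comb hZ d (c := 1 / 100) (by norm_num) (by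
        rw [show (8 : ℝ) / (1 / 100) + 2 = 802 by norm_num]
        linarith) u y
        (h1.trans (mul_le_mul_of_nonneg_right h2 hX.le)) ω hω
      refine h3.trans (le_of_eq ?_)
      norm_num
    · have hNL : LW.NL P := (h.resolve_left (lt_irrefl _)).resolve_left hd2
      have hj0 : j = 0 := by
        rcases hj with hj | hj
        · exact hj
        · rw [hj] at hNL
          exact absurd hNL not_NL_bot
      subst hj0
      rw [zero_add] at hP hjr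
      have hd1 : ∀ i, d i = 1 := by
        intro i
        have h4 : ¬ 2 ≤ d i := fun h5 => hd2 ⟨i, h5⟩
        have h5 := hd i
        omega
      obtain ⟨G, hGh, hGP, c, hc, p1, hp1⟩ := nld K P hP hjr hNL d hd1
      obtain ⟨c', hc'⟩ : ∃ c' : ℝ, c' = min c (1 / 2) := ⟨_, rfl⟩
      have hc0 : 0 < c' := by rw [hc']; exact lt_min hc (by norm_num)
      have hc1 : c' ≤ c := by rw [hc']; exact min_le_left _ _
      have hc2 : c' ≤ 1 / 2 := by rw [hc']; exact min_le_right _ _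
      refine ⟨G, hGh, hGP, c' / 2, by positivity, by linarith, max p1 ⌈8 / c' + 2⌉₊,
        fun p hp hpp φ e ω hω u hu y hy => ?_⟩
      have : Fact p.Prime := ⟨hp⟩
      have hp0 : (0 : ℝ) < p := by exact_mod_cast hp.pos
      have hX : (0 : ℝ) < (p : ℝ) ^ Fintype.card (Mo 0 q d) := pow_pos hp0 _
      obtain ⟨hZ, h1⟩ := hp1 p ((le_max_left _ _).trans hpp) φ
      have hpc : 8 / c' + 2 ≤ p := (Nat.le_ceil _).trans (by exact_mod_cast (le_max_right _ _).trans hpp)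
      exact comb hZ d hc0 hpc u y ((h1 u y hy).trans (mul_le_mul_of_nonneg_right (by linarith) hX.le)) ω hω

end LVX
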