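import Pool.Agent.Lib.MP_17a322_ntLX.Defs
import Pool.Agent.Lib.MP_17a322_ntLH.F5

/-! The local heights: as LH.F5. -/

namespace LVX

open NumberField
open LVH (Vr fv mon fv_smul fv_le)

theorem Dv_smul {R : Type} [CommRing R] {j q s : ℕ} {d : Fin s → ℕ} (a : Mo j q d → R) (l : R) (x : Vr j q → R) :
    Dv a (l • x) = l ^ dg j d * Dv a x := by
  unfold Dv dg Fv
  have h1 : ∏ k : Fin j, (l • x) (Sum.inl k) = l ^ j * ∏ k : Fin j, x (Sum.inl k) := by
    simp only [Pi.smul_apply, smul_eq_mul]
    rw [Finset.prod_mul_distrib, Finset.prod_const, Finset.card_univ, Fintype.card_fin]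
  have h2 : ∏ i : Fin s, fv (fun α => a ⟨i, α⟩) (l • x) = l ^ (∑ i, d i) * ∏ i : Fin s, fv (fun α => a ⟨i, α⟩) x := by
    rw [← Finset.prod_pow_eq_pow_sum, ← Finset.prod_mul_distrib]
    exact Finset.prod_congr rfl fun i _ => fv_smul _ _ _
  rw [h1, h2, pow_add]
  ring

private theorem F5_sup_pos {ι K : Type} [Finite ι] [Field K] (v : AbsoluteValue K ℝ) {x : ι → K} (hx : x ≠ 0) :
    0 < ⨆ w, v (x w) := by
  obtain ⟨w, hw⟩ := Function.ne_iff.1 hx
  exact lt_of_lt_of_le (v.pos hw) (le_ciSup (Set.finite_range fun w => v (x w)).bddAbove w)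

theorem lam_smul {K : Type} [Field K] {j q s : ℕ} {d : Fin s → ℕ} (v : AbsoluteValue K ℝ) (a : Mo j q d → K)
    {l : K} (hl : l ≠ 0) {x : Vr j q → K} (hx : x ≠ 0) (hD : Dv a x ≠ 0) : lam v a (l • x) = lam v a x := by
  unfold lam
  have h1 : (⨆ w, v ((l • x) w)) = v l * ⨆ w, v (x w) := by
    rw [Real.mul_iSup_of_nonneg (v.nonneg l)]
    simp only [Pi.smul_apply, smul_eq_mul, map_mul]
  have h2 := F5_sup_pos v hx
  have h3 : 0 < v l := v.pos hl
  have h4 : 0 < v (Dv a x) := v.pos hD
  rw [h1, Dv_smul, map_mul, map_pow, Real.log_mul h3.ne' h2.ne', Real.log_mul (pow_pos h3 _).ne' h4.ne', Real.log_pow]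
  ring

theorem lam_nonneg {K : Type} [Field K] [NumberField K] {j q s : ℕ} {d : Fin s → ℕ} (v : FinitePlace K) (a : Mo j q d → K)
    (ha : ∀ t, v (a t) ≤ 1) {x : Vr j q → K} (hx : x ≠ 0) (hD : Dv a x ≠ 0) : 0 ≤ lam v.1 a x := by
  have hM : 0 < ⨆ w, v (x w) := F5_sup_pos v.1 hx
  have h0 : ∀ w, v (x w) ≤ ⨆ w, v (x w) := fun w => le_ciSup (Set.finite_range fun w => v (x w)).bddAbove w
  have h1 : v (Dv a x) ≤ (⨆ w, v (x w)) ^ dg j d := by
    unfold Dv dg
    rw [map_mul, map_prod, map_prod, pow_add, ← Finset.prod_pow_eq_pow_sum]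
    refine mul_le_mul ?_ ?_ (Finset.prod_nonneg fun i _ => apply_nonneg v _) (pow_nonneg hM.le _)
    · refine (Finset.prod_le_prod (fun i _ => apply_nonneg v _) fun i _ => h0 (Sum.inl i)).trans (le_of_eq ?_)
      rw [Finset.prod_const, Finset.card_univ, Fintype.card_fin]
    · refine Finset.prod_le_prod (fun i _ => apply_nonneg v _) fun i _ => ?_
      unfold Fv
      exact fv_le v _ (fun t => ha _) x
  have h2 : 0 < v (Dv a x) := v.1.pos hD
  have h3 := Real.log_le_log h2 h1
  rw [Real.log_pow] at h3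
  have h4 : lam v.1 a x = (dg j d : ℝ) * Real.log (⨆ w, v (x w)) - Real.log (v (Dv a x)) := rfl
  rw [h4]
  linarith

private theorem F5_fin {K : Type} [Field K] [NumberField K] {ι : Type} [Finite ι] {x : ι → K} (hx : x ≠ 0) :
    (Function.mulSupport fun v : FinitePlace K => ⨆ w, v (x w)).Finite := by
  have h1 : (⋃ w : {w : ι // x w ≠ 0}, Function.mulSupport fun v : FinitePlace K => v (x w.1)).Finite :=
    Set.finite_iUnion fun w => FinitePlace.hasFiniteMulSupport w.2
  refine h1.subset fun v hv => ?_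
  by_contra hcon
  rw [Set.mem_iUnion] at hcon
  push Not at hcon
  have h2 : ∀ w, x w ≠ 0 → v (x w) = 1 := fun w hw => by
    by_contra h
    exact hcon ⟨w, hw⟩ h
  rw [Function.mem_mulSupport] at hv
  refine hv ?_
  obtain ⟨w, hw⟩ := Function.ne_iff.1 hx
  have : Nonempty ι := ⟨w⟩
  refine le_antisymm (ciSup_le fun w' => ?_) ?_
  · rcases eq_or_ne (x w') 0 with h | h
    · rw [h, map_zero]
      exact zero_le_one
    · exact (h2 w' h).le
  · rw [← h2 w hw]
    exact le_ciSup (Set.finite_range fun w => v (x w)).bddAbove w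

theorem height_eq {K : Type} [Field K] [NumberField K] {j q s : ℕ} {d : Fin s → ℕ} (a : Mo j q d → K) {x : Vr j q → K}
    (hx : x ≠ 0) (hD : Dv a x ≠ 0) : (Function.support fun v : FinitePlace K => lam v.1 a x).Finite ∧
      (dg j d : ℝ) * Height.logHeight x =
        ∑ v : InfinitePlace K, (v.mult : ℝ) * lam v.1 a x + ∑ᶠ v : FinitePlace K, lam v.1 a x := by
  have hM : ∀ v : FinitePlace K, 0 < ⨆ w, v (x w) := fun v => F5_sup_pos v.1 hx
  have hM' : ∀ v : InfinitePlace K, 0 < ⨆ w, v (x w) := fun v => F5_sup_pos v.1 hx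
  have hDv : ∀ v : FinitePlace K, 0 < v (Dv a x) := fun v => v.1.pos hD
  have hDv' : ∀ v : InfinitePlace K, 0 < v (Dv a x) := fun v => v.1.pos hD
  have hlam : ∀ v : FinitePlace K, lam v.1 a x = (dg j d : ℝ) * Real.log (⨆ w, v (x w)) - Real.log (v (Dv a x)) :=
    fun v => rfl
  have hlam' : ∀ v : InfinitePlace K, lam v.1 a x = (dg j d : ℝ) * Real.log (⨆ w, v (x w)) - Real.log (v (Dv a x)) :=
    fun v => rfl
  have s1 : (Function.support fun v : FinitePlace K => (dg j d : ℝ) * Real.log (⨆ w, v (x w))).Finite := by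
    refine (F5_fin hx).subset fun v hv => ?_
    rw [Function.mem_support] at hv
    rw [Function.mem_mulSupport]
    intro h
    exact hv (by rw [h, Real.log_one, mul_zero])
  have s2 : (Function.support fun v : FinitePlace K => Real.log (v (Dv a x))).Finite := by
    refine (FinitePlace.hasFiniteMulSupport hD).subset fun v hv => ?_
    rw [Function.mem_support] at hv
    rw [Function.mem_mulSupport]
    intro h
    exact hv (by rw [h, Real.log_one])
  refine ⟨(s1.union s2).subset fun v hv => ?_, ?_⟩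
  · rw [Function.mem_support, hlam v] at hv
    by_contra hcon
    rw [Set.mem_union, Function.mem_support, Function.mem_support] at hcon
    push Not at hcon
    exact hv (by rw [hcon.1, hcon.2, sub_zero])
  · have h1 : ∑ᶠ v : FinitePlace K, lam v.1 a x =
        (dg j d : ℝ) * (∑ᶠ v : FinitePlace K, Real.log (⨆ w, v (x w))) - ∑ᶠ v : FinitePlace K, Real.log (v (Dv a x)) := by
      rw [mul_finsum, ← finsum_sub_distrib s1 s2]
      exact finsum_congr hlam
    have h2 : Height.logHeight x = ∑ v : InfinitePlace K, (v.mult : ℝ) * Real.log (⨆ w, v (x w)) +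
        ∑ᶠ v : FinitePlace K, Real.log (⨆ w, v (x w)) := by
      rw [Height.logHeight_eq_log_mulHeight, NumberField.mulHeight_eq hx, Real.log_mul, Real.log_prod, Real.log_finprod hM]
      · congr 1
        exact Finset.sum_congr rfl fun v _ => Real.log_pow _ _
      · intro v _
        exact (pow_pos (hM' v) _).ne'
      · exact (Finset.prod_pos fun v _ => pow_pos (hM' v) _).ne'
      · exact (finprod_induction (fun r : ℝ => 0 < r) one_pos (fun _ _ h h' => mul_pos h h') hM).ne'
    have h3 : 0 = ∑ v : InfinitePlace K, (v.mult : ℝ) * Real.log (v (Dv a x)) +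
        ∑ᶠ v : FinitePlace K, Real.log (v (Dv a x)) := by
      have h4 := congrArg Real.log (NumberField.prod_abs_eq_one hD)
      rw [Real.log_one, Real.log_mul, Real.log_prod, Real.log_finprod hDv] at h4
      · rw [← h4]
        congr 1
        exact Finset.sum_congr rfl fun v _ => Real.log_pow _ _
      · intro v _
        exact (pow_pos (hDv' v) _).ne'
      · exact (Finset.prod_pos fun v _ => pow_pos (hDv' v) _).ne'
      · exact (finprod_induction (fun r : ℝ => 0 < r) one_pos (fun _ _ h h' => mul_pos h h') hDv).ne'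
    have h5 : ∑ v : InfinitePlace K, (v.mult : ℝ) * lam v.1 a x =
        (dg j d : ℝ) * (∑ v : InfinitePlace K, (v.mult : ℝ) * Real.log (⨆ w, v (x w))) -
          ∑ v : InfinitePlace K, (v.mult : ℝ) * Real.log (v (Dv a x)) := by
      rw [Finset.mul_sum, ← Finset.sum_sub_distrib]
      refine Finset.sum_congr rfl fun v _ => ?_
      rw [hlam' v]
      ring
    rw [h1, h2, h5]
    linarith

end LVX
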