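import Pool.Agent.Lib.MP_17a322_ntLX.T9S
import Pool.Agent.Lib.MP_17a322_ntLX.SetT
import Pool.Agent.Lib.MP_17a322_ntLX.F6
import Pool.Agent.Lib.MP_17a322_ntLX.Cone
import Pool.Agent.Lib.MP_17a322_ntLH.F1
import Pool.Agent.Lib.MP_17a322_ntLH.F2U
import Pool.Agent.Lib.MP_17a322_ntLH.F3
import Pool.Agent.Lib.MP_17a322_ntLH.F4
import Pool.Agent.Lib.MP_17a322_ntLH.F9

/-! Assembly. -/

namespace LVX

open Finset NumberField
open LVH (Vr fv co fv_zero fin_ne scale ideal_reps sunit_rank exists_M1 card_places place_coprime place_int pl_place)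

/-- the trivial bound -/
private theorem triv {ι : Type} [Fintype ι] [DecidableEq ι] (H : ℕ) (Q : (ι → ℤ) → Prop) :
    (Nat.card {c : ι → ℤ // (∀ t, |c t| ≤ (H : ℤ)) ∧ Q c} : ℝ) ≤ (2 * (H : ℝ) + 1) ^ Fintype.card ι := by
  classical
  rw [MWS.VM_card]
  have h1 : ((Fintype.piFinset (fun _ : ι => Icc (-(H : ℤ)) H)).filter Q).card ≤ (2 * H + 1) ^ Fintype.card ι := by
    refine (card_filter_le _ _).trans ?_
    rw [Fintype.card_piFinset, prod_const, Int.card_Icc, Finset.card_univ]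
    exact Nat.pow_le_pow_left (by omega) _
  exact_mod_cast h1

private theorem x_ne {K : Type} [Field K] {j q s : ℕ} {d : Fin s → ℕ} (hd : ∀ i, 1 ≤ d i) (hjs : 2 ≤ j + s)
    (a : Mo j q d → K) {x : Vr j q → K} (h : Dv a x ≠ 0) : x ≠ 0 := by
  rintro rfl
  apply h
  unfold Dv
  rcases Nat.eq_zero_or_pos j with hj | hj
  · have hs : 0 < s := by omega
    have h1 : Fv a ⟨0, hs⟩ (0 : Vr j q → K) = 0 := fv_zero (hd _) _
    rw [prod_eq_zero (mem_univ (⟨0, hs⟩ : Fin s)) h1, mul_zero]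
  · rw [prod_eq_zero (mem_univ (⟨0, hj⟩ : Fin j)) (by rfl), zero_mul]

/-- the analysis of the constants -/
private theorem large (η c1 A1 A2 : ℝ) (hη : 0 < η) (hc1 : 0 < c1) (h0 : ℕ) (m : ℕ) : ∃ H1 : ℕ,
    ∀ H : ℕ, H1 ≤ H → h0 ≤ H ∧ m * (A1 + Real.log H ^ (η / 2)) ≤ Real.log H ^ η ∧
      A2 + c1 * Real.log H + m * (c1 * Real.log H) ≤ Real.log H ^ (1 + η) ∧ (2 : ℝ) ≤ (H : ℝ) ^ c1 := by
  have hcast : Filter.Tendsto (fun H : ℕ => (H : ℝ)) Filter.atTop Filter.atTop := tendsto_natCast_atTop_atTop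
  have hlog : Filter.Tendsto (fun H : ℕ => Real.log H) Filter.atTop Filter.atTop := Real.tendsto_log_atTop.comp hcast
  have hη2 : 0 < η / 2 := by positivity
  have e2 : ∀ᶠ H : ℕ in Filter.atTop, |A2| + c1 + m * c1 ≤ Real.log H ^ η :=
    ((tendsto_rpow_atTop hη).comp hlog).eventually_ge_atTop _
  have e3 : ∀ᶠ H : ℕ in Filter.atTop, (2 : ℝ) ≤ Real.log H := hlog.eventually_ge_atTop _
  have e4 : ∀ᶠ H : ℕ in Filter.atTop, (2 : ℝ) ≤ (H : ℝ) ^ c1 :=
    ((tendsto_rpow_atTop hc1).comp hcast).eventually_ge_atTop _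
  have e5 : ∀ᶠ H : ℕ in Filter.atTop, m * (|A1| + 1) ≤ Real.log H ^ (η / 2) :=
    ((tendsto_rpow_atTop hη2).comp hlog).eventually_ge_atTop _
  obtain ⟨H1, hH1⟩ := Filter.eventually_atTop.1
    ((Filter.eventually_ge_atTop h0).and (e2.and (e3.and (e4.and e5))))
  refine ⟨H1, fun H hH => ?_⟩
  obtain ⟨a1, a3, a4, a5, a6⟩ := hH1 H hH
  have hl : 0 < Real.log H := by linarith
  have hl1 : 1 ≤ Real.log H := by linarith
  have h3 : Real.log H ^ (η / 2) * Real.log H ^ (η / 2) = Real.log H ^ η := by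
    rw [← Real.rpow_add hl]
    congr 1
    ring
  have h4 : 1 ≤ Real.log H ^ (η / 2) := Real.one_le_rpow hl1 hη2.le
  have hm : (0 : ℝ) ≤ m := Nat.cast_nonneg _
  refine ⟨a1, ?_, ?_, a5⟩
  · calc m * (A1 + Real.log H ^ (η / 2)) ≤ m * (|A1| * Real.log H ^ (η / 2) + Real.log H ^ (η / 2)) := by
          refine mul_le_mul_of_nonneg_left (add_le_add ?_ le_rfl) hm
          exact (le_abs_self A1).trans (le_mul_of_one_le_right (abs_nonneg A1) h4)
      _ = m * (|A1| + 1) * Real.log H ^ (η / 2) := by ring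
      _ ≤ Real.log H ^ (η / 2) * Real.log H ^ (η / 2) := mul_le_mul_of_nonneg_right a6 (by positivity)
      _ = Real.log H ^ η := h3
  · have h6 : A2 ≤ |A2| * Real.log H := (le_abs_self A2).trans (le_mul_of_one_le_right (abs_nonneg A2) hl1)
    rw [Real.rpow_add hl, Real.rpow_one]
    calc A2 + c1 * Real.log H + m * (c1 * Real.log H) ≤ (|A2| + c1 + m * c1) * Real.log H := by nlinarith
      _ ≤ Real.log H ^ η * Real.log H := mul_le_mul_of_nonneg_right a3 hl.le
      _ = Real.log H * Real.log H ^ η := mul_comm _ _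

private theorem cf_int {K : Type} [Field K] [NumberField K] {τ : Type} {e : ℕ} (ω : Fin e → 𝓞 K)
    (c : τ × Fin e → ℤ) (v : FinitePlace K) (t : τ) : v (cf ω c t) ≤ 1 := by
  have h1 : cf ω c t = ((∑ k, (c (t, k) : 𝓞 K) * ω k : 𝓞 K) : K) := by
    unfold cf co
    simp
  rw [h1]
  exact place_int K v _

private theorem mS_mono {K : Type} [Field K] [NumberField K] {j q s : ℕ} {d : Fin s → ℕ} {S S' : Finset (FinitePlace K)}
    (h : S ⊆ S') (a : Mo j q d → K) (ha : ∀ (v : FinitePlace K) (t), v (a t) ≤ 1) {x : Vr j q → K} (hx : x ≠ 0)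
    (hD : Dv a x ≠ 0) : mS S a x ≤ mS S' a x := by
  unfold mS
  refine div_le_div_of_nonneg_right (add_le_add le_rfl ?_) (Nat.cast_nonneg _)
  exact sum_le_sum_of_subset_of_nonneg h fun v _ _ => lam_nonneg v a (ha v) hx hD

private theorem eval_smul {K : Type} [Field K] [NumberField K] {σ : Type} (h : MvPolynomial σ (𝓞 K)) {n : ℕ}
    (hn : h.IsHomogeneous n) (l : K) (x : σ → K) (h0 : MvPolynomial.eval₂ (algebraMap (𝓞 K) K) x h = 0) :
    MvPolynomial.eval₂ (algebraMap (𝓞 K) K) (l • x) h = 0 := by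
  have h1 : MvPolynomial.eval₂ (algebraMap (𝓞 K) K) (l • x) h = l ^ n * MvPolynomial.eval₂ (algebraMap (𝓞 K) K) x h := by
    rw [MvPolynomial.eval₂_eq, MvPolynomial.eval₂_eq, mul_sum]
    refine sum_congr rfl fun d hd => ?_
    have h2 : ∏ i ∈ d.support, (l • x) i ^ d i = l ^ n * ∏ i ∈ d.support, x i ^ d i := by
      have h3 : ∑ i ∈ d.support, d i = n := by
        have h4 := hn (MvPolynomial.mem_support_iff.1 hd)
        rw [Finsupp.weight_apply, Finsupp.sum] at h4
        simpa using h4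
      rw [← h3, ← prod_pow_eq_pow_sum, ← prod_mul_distrib]
      exact prod_congr rfl fun i _ => by rw [Pi.smul_apply, smul_eq_mul, mul_pow]
    rw [h2]
    ring
  rw [h1, h0, mul_zero]

/-- the proximity inequality at all points for one set of places -/
private def Gp {K : Type} [Field K] [NumberField K] {j q s : ℕ} (P : Ideal (MvPolynomial (Vr j q) K)) {d : Fin s → ℕ}
    (a : Mo j q d → K) (B : ℝ) (S : Finset (FinitePlace K)) : Prop :=
  ∀ x : Vr j q → K, On P x → Dv a x ≠ 0 → mS S a x < dg j d * (Height.logHeight x / Module.finrank ℚ K) - B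

open Classical in
theorem main (K : Type) [Field K] [NumberField K] : ∃ δ η : ℝ, 0 < δ ∧ 0 < η ∧ ∀ (j q r s : ℕ)
    (P : Ideal (MvPolynomial (Vr j q) K)), GI P (j + r) → (j = 0 ∨ P = ⊥) → 2 ≤ j + r → r ≤ s →
    ∀ d : Fin s → ℕ, (∀ i, 1 ≤ d i) → (r < s ∨ (∃ i, 2 ≤ d i) ∨ LW.NL P) → ∀ (e : ℕ) (ω : Fin e → 𝓞 K), ω ≠ 0 →
      ∃ c0 C : ℝ, 0 < c0 ∧ ∀ H : ℕ, 1 ≤ H →
        (Nat.card {c : Mo j q d × Fin e → ℤ // (∀ t, |c t| ≤ (H : ℤ)) ∧ ¬ ∀ S : Finset (FinitePlace K),
          (S.card : ℝ) ≤ Real.log H ^ η →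
          ∑ v ∈ S, Real.log (Ideal.absNorm v.maximalIdeal.asIdeal : ℝ) ≤ c0 * Real.log H →
            ∀ x : Vr j q → K, On P x → Dv (cf ω c) x ≠ 0 →
              mS S (cf ω c) x < dg j d * (Height.logHeight x / Module.finrank ℚ K) - c0 * Real.log H} : ℝ) ≤
                C * (H : ℝ) ^ ((Fintype.card (Mo j q d × Fin e) : ℝ) - δ) := by
  obtain ⟨δ, η, hδ, hη, hcl⟩ := one_class K
  obtain ⟨B, hB, hBc, hW⟩ := ideal_reps K
  obtain ⟨r0, hr0⟩ := sunit_rank K
  refine ⟨δ / 2, η / 2, by positivity, by positivity, fun j q rr s J hJ hjJ hjr hrs d hd h2 e ω hω => ?_⟩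
  have hjs : 2 ≤ j + s := by omega
  obtain ⟨G, hGh, hGP, hGc⟩ := local_dens K J hJ hjJ hrs d hd hjr h2
  obtain ⟨k0, hk0⟩ := Function.ne_iff.1 hω
  have hk0' : ((ω k0 : 𝓞 K) : K) ≠ 0 := by
    intro h
    apply hk0
    exact RingOfIntegers.ext h
  obtain ⟨S2, hS2, hsc⟩ := scale K (fin_ne K hk0').toFinset
  obtain ⟨h0, hh0⟩ := hcl d hd G hGh hGc e
  have hjs0 : (0 : ℝ) < ((j + s : ℕ) : ℝ) := by
    have : 0 < j + s := by omega
    exact_mod_cast this
  have hn : (0 : ℝ) < (Module.finrank ℚ K : ℝ) := by exact_mod_cast (Module.finrank_pos : 0 < Module.finrank ℚ K)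
  have hn1 : (1 : ℝ) ≤ (Module.finrank ℚ K : ℝ) := by exact_mod_cast (Module.finrank_pos : 0 < Module.finrank ℚ K)
  obtain ⟨c1, hc1⟩ : ∃ c1 : ℝ, c1 = δ / (2 * B * (((j + s : ℕ) : ℝ) + 1)) := ⟨_, rfl⟩
  have hc10 : 0 < c1 := by rw [hc1]; positivity
  have hc0 : c1 / Module.finrank ℚ K ≤ c1 := div_le_self hc10.le hn1
  obtain ⟨A2, hA2⟩ : ∃ A2 : ℝ, A2 = ∑ v ∈ S2, Real.log (Ideal.absNorm v.maximalIdeal.asIdeal : ℝ) := ⟨_, rfl⟩
  obtain ⟨H1, hH1⟩ := large η c1 (r0 + S2.card) A2 hη hc10 h0 (j + s)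
  obtain ⟨N, hN⟩ : ∃ N : ℕ, N = Fintype.card (Mo j q d × Fin e) := ⟨_, rfl⟩
  obtain ⟨C', hC'⟩ : ∃ C' : ℝ, C' = (2 * (H1 : ℝ) + 1) ^ N * ((H1 : ℝ) + 1) ^ (δ / 2) := ⟨_, rfl⟩
  have hC'0 : 0 ≤ C' := by rw [hC']; positivity
  refine ⟨c1 / Module.finrank ℚ K, C' + 1, by positivity, fun H hH => ?_⟩
  have hHr : (1 : ℝ) ≤ H := by exact_mod_cast hH
  have hHpos : (0 : ℝ) < H := by linarith
  have hHl : 0 ≤ Real.log H := Real.log_nonneg hHr
  rw [← hN]
  have hpow : (0 : ℝ) < (H : ℝ) ^ ((N : ℝ) - δ / 2) := Real.rpow_pos_of_pos hHpos _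
  rcases lt_or_ge H H1 with hlt | hge
  · -- small `H`
    refine (triv H _).trans ?_
    rw [← hN]
    have hlt' : (H : ℝ) ≤ H1 := by exact_mod_cast hlt.le
    calc (2 * (H : ℝ) + 1) ^ N ≤ (2 * (H1 : ℝ) + 1) ^ N := pow_le_pow_left₀ (by positivity) (by linarith) _
      _ = (2 * (H1 : ℝ) + 1) ^ N * 1 := (mul_one _).symm
      _ ≤ (2 * (H1 : ℝ) + 1) ^ N * (((H1 : ℝ) + 1) ^ (δ / 2) * (H : ℝ) ^ ((N : ℝ) - δ / 2)) := by
          refine mul_le_mul_of_nonneg_left ?_ (by positivity)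
          have h3 : (H : ℝ) ^ (-(δ / 2)) ≤ (H : ℝ) ^ ((N : ℝ) - δ / 2) :=
            Real.rpow_le_rpow_of_exponent_le hHr (by have : (0 : ℝ) ≤ N := Nat.cast_nonneg _; linarith)
          have h4 : (H : ℝ) ^ (δ / 2) ≤ ((H1 : ℝ) + 1) ^ (δ / 2) :=
            Real.rpow_le_rpow hHpos.le (by linarith) (by positivity)
          calc (1 : ℝ) = (H : ℝ) ^ (δ / 2) * (H : ℝ) ^ (-(δ / 2)) := by
                rw [← Real.rpow_add hHpos, add_neg_cancel, Real.rpow_zero]
            _ ≤ ((H1 : ℝ) + 1) ^ (δ / 2) * (H : ℝ) ^ ((N : ℝ) - δ / 2) := by gcongr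
      _ = C' * (H : ℝ) ^ ((N : ℝ) - δ / 2) := by rw [hC']; ring
      _ ≤ (C' + 1) * (H : ℝ) ^ ((N : ℝ) - δ / 2) := mul_le_mul_of_nonneg_right (by linarith) hpow.le
  · -- large `H`
    obtain ⟨a1, a3, a4, a5⟩ := hH1 H hge
    have hXpos : 0 < (H : ℝ) ^ c1 := Real.rpow_pos_of_pos hHpos _
    have hXl : Real.log ((H : ℝ) ^ c1) = c1 * Real.log H := Real.log_rpow hHpos _
    have inner : ∀ T : Finset (FinitePlace K), (T.card : ℝ) ≤ Real.log H ^ (η / 2) →
        ∑ v ∈ T, Real.log (Ideal.absNorm v.maximalIdeal.asIdeal : ℝ) ≤ c1 * Real.log H →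
          (Nat.card {c : Mo j q d × Fin e → ℤ // (∀ t, |c t| ≤ (H : ℤ)) ∧
            ¬ Gp J (cf ω c) (c1 / Module.finrank ℚ K * Real.log H) T} : ℝ) * 1 ≤
              (((H : ℝ) ^ c1) ^ B) ^ (j + s) * (H : ℝ) ^ ((N : ℝ) - δ) := by
      intro T hTc hTl
      obtain ⟨S0, hS0⟩ : ∃ S0 : Finset (FinitePlace K), S0 = S2 ∪ T := ⟨_, rfl⟩
      have hS0c : (S0.card : ℝ) ≤ S2.card + Real.log H ^ (η / 2) := by
        have h1 : S0.card ≤ S2.card + T.card := by rw [hS0]; exact card_union_le _ _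
        calc (S0.card : ℝ) ≤ (S2.card : ℝ) + T.card := by exact_mod_cast h1
          _ ≤ _ := by linarith
      have hlogn : ∀ v : FinitePlace K, 0 ≤ Real.log (Ideal.absNorm v.maximalIdeal.asIdeal : ℝ) := fun v =>
        Real.log_natCast_nonneg _
      have hS0l : ∑ v ∈ S0, Real.log (Ideal.absNorm v.maximalIdeal.asIdeal : ℝ) ≤ A2 + c1 * Real.log H := by
        calc ∑ v ∈ S0, Real.log (Ideal.absNorm v.maximalIdeal.asIdeal : ℝ)
            ≤ ∑ v ∈ S2, Real.log (Ideal.absNorm v.maximalIdeal.asIdeal : ℝ) +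
              ∑ v ∈ T, Real.log (Ideal.absNorm v.maximalIdeal.asIdeal : ℝ) := by
              rw [hS0, ← sum_union_inter]
              exact le_add_of_nonneg_right (sum_nonneg fun v _ => hlogn v)
          _ ≤ A2 + c1 * Real.log H := by rw [← hA2]; linarith
      obtain ⟨r, g, hrc, hg, hgen⟩ := hr0 S0
      obtain ⟨M0, hM0, hM0', hM0l⟩ := exists_M1 K S0
      obtain ⟨W, hWc, hWm, hWr⟩ := hW S0 ((H : ℝ) ^ c1) a5
      have hWm' : ∀ w : W, ∃ m : ℕ, m ≠ 0 ∧ (m : ℝ) ≤ (H : ℝ) ^ c1 ∧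
          ∀ v : FinitePlace K, v ∉ S0 → v (m : K) = 1 → v (w : K) = 1 := fun w => (hWm w w.2).2
      choose mm hmm0 hmm1 hmm2 using hWm'
      have hcard : Fintype.card (Vr j s → W) = W.card ^ (j + s) := by
        rw [Fintype.card_fun, Fintype.card_sum, Fintype.card_fin, Fintype.card_fin, Fintype.card_coe]
      have ε : Fin (W.card ^ (j + s)) ≃ (Vr j s → W) := by
        rw [← hcard]
        exact (Fintype.equivFin _).symm
      have hunion := MWS.VM_union (ι := Mo j q d × Fin e) (H := H) (N := W.card ^ (j + s))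
        (fun c => ¬ Gp J (cf ω c) (c1 / Module.finrank ℚ K * Real.log H) T)
        (fun i c => Ptc G (fun k => (ω k : K)) g (fun w => ((ε i w : W) : K)) c)
        (by
          intro c _ hc
          unfold Gp at hc
          push Not at hc
          obtain ⟨x, hxP, hx, hxm⟩ := hc
          have hx0 := x_ne hd hjs (cf ω c) hx
          have hSS : T ⊆ S0 := by
            rw [hS0]
            exact subset_union_right
          obtain ⟨l, hl, hls⟩ := hsc (Vr j q) x hx0
          have hx0' : l • x ≠ 0 := smul_ne_zero hl hx0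
          have hDx : Dv (cf ω c) (l • x) ≠ 0 := by
            rw [Dv_smul]
            exact mul_ne_zero (pow_ne_zero _ hl) hx
          have hmS : mS T (cf ω c) (l • x) = mS T (cf ω c) x := by
            unfold mS
            congr 2
            · exact sum_congr rfl fun v _ => by rw [lam_smul v.1 _ hl hx0 hx]
            · exact sum_congr rfl fun v _ => by rw [lam_smul v.1 _ hl hx0 hx]
          have hB' : (dg j d : ℝ) * Height.logHeight (l • x) ≤
              (Module.finrank ℚ K : ℝ) * mS T (cf ω c) (l • x) + Real.log ((H : ℝ) ^ c1) := by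
            rw [hmS, Height.logHeight_smul_eq_logHeight _ hl, hXl]
            have h5 := mul_le_mul_of_nonneg_left hxm hn.le
            have h6 : (Module.finrank ℚ K : ℝ) * (dg j d * (Height.logHeight x / Module.finrank ℚ K) -
                c1 / Module.finrank ℚ K * Real.log H) = dg j d * Height.logHeight x - c1 * Real.log H := by
              field_simp
            rw [h6] at h5
            linarith
          have hcomp := comps (S := T) (S0 := S0) hSS (cf ω c)
            (fun v t => cf_int ω c v t) hx0' hDx (fun v hv => by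
              have h7 : v ∉ S2 := fun h => hv (by rw [hS0]; exact mem_union_left _ h)
              simpa using hls v h7) hB'
          have hex : ∀ w : Vr j s, ∃ (b : W) (n : Fin r → ℤ), cmp (cf ω c) (l • x) w = (b : K) * ∏ m, g m ^ n m := by
            intro w
            obtain ⟨b1, b2, b3⟩ := hcomp w
            obtain ⟨b, hb, hbv⟩ := hWr _ b1 b2 b3
            have hb0 : b ≠ 0 := (hWm b hb).1
            obtain ⟨n, hn'⟩ := hgen (cmp (cf ω c) (l • x) w / b) (div_ne_zero b1 hb0) (fun v hv => by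
              rw [map_div₀, hbv v hv, div_self]
              exact (FinitePlace.pos_iff.2 hb0).ne')
            exact ⟨⟨b, hb⟩, n, by rw [← hn', mul_div_cancel₀ _ hb0]⟩
          choose b n hbn using hex
          refine ⟨ε.symm b, l • x, n, fun h hh => ?_, fun i => ?_, fun i => ?_⟩
          · obtain ⟨n', hn'⟩ := hGh h hh
            have h8 : MvPolynomial.eval₂ (algebraMap (𝓞 K) K) x h = 0 := by
              have h9 := hxP _ (hGP h hh)
              rwa [MvPolynomial.eval_map] at h9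
            exact eval_smul h hn' l x h8
          · have h7 := hbn (Sum.inl i)
            rw [ε.apply_symm_apply]
            exact h7
          · have h7 := hbn (Sum.inr i)
            rw [ε.apply_symm_apply]
            exact h7)
        1 ((H : ℝ) ^ ((N : ℝ) - δ)) zero_le_one
        (fun i => by
          rw [mul_one, hN]
          refine hh0 r (M0 * ∏ w : Vr j s, mm (ε i w)) H a1 ?_ ?_ ?_ _ g _ ⟨fun m => (hg m).1, fun w => (hWm _ (ε i w).2).1, ?_⟩
          · exact mul_ne_zero hM0 (prod_ne_zero_iff.2 fun w _ => hmm0 _)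
          · refine le_trans ?_ a3
            rw [Nat.cast_mul, mul_comm]
            refine mul_le_mul_of_nonneg_left ?_ hjs0.le
            have h1 : (r : ℝ) ≤ r0 + S0.card := by exact_mod_cast hrc
            linarith
          · refine le_trans ?_ a4
            rw [Nat.cast_mul, Real.log_mul (by exact_mod_cast hM0) (by
              have : (∏ w : Vr j s, mm (ε i w)) ≠ 0 := prod_ne_zero_iff.2 fun w _ => hmm0 _
              exact_mod_cast this), Nat.cast_prod, Real.log_prod (fun w _ => by exact_mod_cast hmm0 _)]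
            have h8 : ∑ w : Vr j s, Real.log (mm (ε i w)) ≤ ∑ _w : Vr j s, c1 * Real.log H := by
              refine sum_le_sum fun w _ => ?_
              rw [← Real.log_rpow hHpos]
              exact Real.log_le_log (by exact_mod_cast Nat.pos_of_ne_zero (hmm0 _)) (hmm1 _)
            rw [sum_const, card_univ, Fintype.card_sum, Fintype.card_fin, Fintype.card_fin, nsmul_eq_mul] at h8
            linarith
          · intro p hp hpM π
            have hpM0 : ¬ p ∣ M0 := fun h => hpM (h.mul_right _)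
            have hpm : ∀ w, ¬ p ∣ mm (ε i w) := fun w h =>
              hpM ((h.trans (dvd_prod_of_mem (fun w => mm (ε i w)) (mem_univ w))).mul_left _)
            obtain ⟨v, hv1, hv2⟩ := pl_place K hp π
            have hvS : v ∉ S0 := by
              intro h
              have h9 := hM0' v h
              rw [place_coprime K v hp hv1 hpM0] at h9
              exact lt_irrefl _ h9
            have hu : ∀ y : K, v y = 1 → y ∈ π.V ∧ y⁻¹ ∈ π.V := fun y hy =>
              ⟨hv2 y hy.le, hv2 y⁻¹ (by rw [map_inv₀, hy, inv_one])⟩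
            refine ⟨fun k => hv2 _ (place_int K v _), ⟨k0, hk0', (hu _ ?_).2⟩, fun m => hu _ ((hg m).2 v hvS), fun w =>
              hu _ (hmm2 _ v hvS (place_coprime K v hp hv1 (hpm w)))⟩
            by_contra hne
            exact hvS (by
              rw [hS0]
              exact mem_union_left _ (hS2 ((Set.Finite.mem_toFinset _).2 hne))))
      refine hunion.trans ?_
      refine mul_le_mul_of_nonneg_right ?_ (Real.rpow_pos_of_pos hHpos _).le
      push_cast
      exact pow_le_pow_left₀ (Nat.cast_nonneg _) hWc _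
    obtain ⟨TT, hTTc, hTT⟩ := setT K ((H : ℝ) ^ c1) hXpos
    obtain ⟨TF, hTF⟩ : ∃ TF : Finset (Finset (FinitePlace K)), TF = TT.filter fun T =>
      (T.card : ℝ) ≤ Real.log H ^ (η / 2) := ⟨_, rfl⟩
    have hTFc : (TF.card : ℝ) ≤ ((H : ℝ) ^ c1) ^ B := by
      have h1 : TF.card ≤ TT.card := by
        rw [hTF]
        exact card_filter_le _ _
      calc (TF.card : ℝ) ≤ (Nat.card {I : Ideal (𝓞 K) // (Ideal.absNorm I : ℝ) ≤ (H : ℝ) ^ c1} : ℝ) := by
            exact_mod_cast h1.trans hTTc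
        _ ≤ _ := hBc _ a5
    have hmem : ∀ T ∈ TF, (T.card : ℝ) ≤ Real.log H ^ (η / 2) ∧
        ∑ v ∈ T, Real.log (Ideal.absNorm v.maximalIdeal.asIdeal : ℝ) ≤ c1 * Real.log H := by
      intro T hT
      rw [hTF, mem_filter, hTT, hXl] at hT
      exact ⟨hT.2, hT.1⟩
    have ε' : Fin TF.card ≃ TF := by
      have h1 := Fintype.equivFin TF
      rw [Fintype.card_coe] at h1
      exact h1.symm
    have hout := MWS.VM_union (ι := Mo j q d × Fin e) (H := H) (N := TF.card)
      (fun c => ¬ ∀ S : Finset (FinitePlace K), (S.card : ℝ) ≤ Real.log H ^ (η / 2) →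
          ∑ v ∈ S, Real.log (Ideal.absNorm v.maximalIdeal.asIdeal : ℝ) ≤ c1 / Module.finrank ℚ K * Real.log H →
            ∀ x : Vr j q → K, On J x → Dv (cf ω c) x ≠ 0 → mS S (cf ω c) x <
              dg j d * (Height.logHeight x / Module.finrank ℚ K) - c1 / Module.finrank ℚ K * Real.log H)
      (fun i c => ¬ Gp J (cf ω c) (c1 / Module.finrank ℚ K * Real.log H) (ε' i : Finset (FinitePlace K)))
      (by
        intro c _ hc
        by_contra hcon
        push Not at hcon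
        refine hc fun S hSc hSl x hxP hx => ?_
        have hS : S ∈ TF := by
          rw [hTF, mem_filter, hTT, hXl]
          exact ⟨hSl.trans (mul_le_mul_of_nonneg_right hc0 hHl), hSc⟩
        have h1 := hcon (ε'.symm ⟨S, hS⟩)
        rw [ε'.apply_symm_apply] at h1
        exact h1 x hxP hx)
      1 ((((H : ℝ) ^ c1) ^ B) ^ (j + s) * (H : ℝ) ^ ((N : ℝ) - δ)) zero_le_one
      (fun i => inner _ (hmem _ (ε' i).2).1 (hmem _ (ε' i).2).2)
    rw [mul_one] at hout
    refine hout.trans ?_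
    have h10 : ((H : ℝ) ^ c1) ^ B * (((H : ℝ) ^ c1) ^ B) ^ (j + s) = (H : ℝ) ^ (δ / 2) := by
      rw [← pow_succ', ← Real.rpow_natCast, ← Real.rpow_mul hHpos.le, ← Real.rpow_mul hHpos.le]
      congr 1
      rw [hc1]
      push_cast
      field_simp
    calc (TF.card : ℝ) * ((((H : ℝ) ^ c1) ^ B) ^ (j + s) * (H : ℝ) ^ ((N : ℝ) - δ))
        ≤ ((H : ℝ) ^ c1) ^ B * ((((H : ℝ) ^ c1) ^ B) ^ (j + s) * (H : ℝ) ^ ((N : ℝ) - δ)) :=
          mul_le_mul_of_nonneg_right hTFc (by positivity)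
      _ = (H : ℝ) ^ (δ / 2) * (H : ℝ) ^ ((N : ℝ) - δ) := by rw [← mul_assoc, h10]
      _ = (H : ℝ) ^ ((N : ℝ) - δ / 2) := by
          rw [← Real.rpow_add hHpos]
          congr 1
          ring
      _ ≤ (C' + 1) * (H : ℝ) ^ ((N : ℝ) - δ / 2) := le_mul_of_one_le_left hpow.le (by linarith)

end LVX
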