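import Pool.Agent.Lib.MP_17a322_ntLX.T3
import Pool.Agent.Lib.LW.Main
import Pool.Agent.Lib.LW.Pairs

/-!
# LEAF NLc: the reductions of the cone of a nonlinear variety

PROOF.  `G1` from `LW.lang_weil'`, `G2`, `C2`, `p2` from `LW.pairs`; `G` = the homogeneous components (`MvPolynomial.homogeneousComponent`, of degrees up to the total degree) of the elements of `G1 ∪ G2`, `D0` the maximum of their degrees (of the total degrees).  A zero of `G` modulo `p` is a zero of `G1` and of `G2`; the images of the elements of `G` are in `P` (`hh`; see the lemmas of `Cone`).  With `C = 4 * D0 + C2` and `k = 8 * (C + 4)` (`p0` from `lang_weil'` for this `k`): `|Z| ≤ 2 p ^ s`, so `T3` gives `D0 * 4 p ^ (2 s) + p * C2 * p ^ (2 s - 1)`.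
-/

namespace LVX

open NumberField

private theorem NLc_map_hc {σ R S : Type} [CommRing R] [CommRing S] (f : R →+* S) (n : ℕ) (g : MvPolynomial σ R) :
    MvPolynomial.map f (MvPolynomial.homogeneousComponent n g) =
      MvPolynomial.homogeneousComponent n (MvPolynomial.map f g) := by
  ext d
  rw [MvPolynomial.coeff_map, MvPolynomial.coeff_homogeneousComponent, MvPolynomial.coeff_homogeneousComponent,
    MvPolynomial.coeff_map]
  split_ifs <;> simp

theorem nlc (K : Type) [Field K] [NumberField K] {q s : ℕ} (P : Ideal (MvPolynomial (Fin q) K))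
    (hh : ∀ g ∈ P, ∀ n, MvPolynomial.homogeneousComponent n g ∈ P)
    (hP : (P.map (MvPolynomial.map (σ := Fin q) (algebraMap K (AlgebraicClosure K)))).IsPrime) (hs : 1 ≤ s)
    (hdim : ringKrullDim (MvPolynomial (Fin q) K ⧸ P) = s) (hNL : LW.NL P) :
    ∃ G : Finset (MvPolynomial (Fin q) (𝓞 K)), (∀ g ∈ G, ∃ n, g.IsHomogeneous n) ∧
      (∀ g ∈ G, MvPolynomial.map (algebraMap (𝓞 K) K) g ∈ P) ∧
        ∃ C p1 : ℕ, ∀ (p : ℕ) [Fact p.Prime], p1 ≤ p → ∀ φ : 𝓞 K →+* ZMod p,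
          8 * (C + 4) * Nat.card {x : Fin q → ZMod p // ∀ g ∈ G, MvPolynomial.eval₂ φ x g = 0} ≤
            (8 * (C + 4) + 1) * p ^ s ∧
          Nat.card {t : ((Fin q → ZMod p) × (Fin q → ZMod p)) × ZMod p //
            (∀ g ∈ G, MvPolynomial.eval₂ φ t.1.1 g = 0) ∧ (∀ g ∈ G, MvPolynomial.eval₂ φ t.1.2 g = 0) ∧
              ∀ g ∈ G, MvPolynomial.eval₂ φ (t.2 • t.1.1 + (1 - t.2) • t.1.2) g = 0} ≤ C * p ^ (2 * s) := by
  classical
  obtain ⟨G1, hG1, h1⟩ := LW.lang_weil' K P hP hs hdim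
  obtain ⟨G2, hG2, C2, p2, h2⟩ := LW.pairs K P hP hs hdim hNL
  let D0 : ℕ := (G1 ∪ G2).sup fun g => g.totalDegree
  let C : ℕ := 4 * D0 + C2
  obtain ⟨p0, hp0⟩ := h1 (8 * (C + 4)) (by omega)
  let G : Finset (MvPolynomial (Fin q) (𝓞 K)) := (G1 ∪ G2).biUnion fun g =>
    (Finset.range (g.totalDegree + 1)).image fun n => MvPolynomial.homogeneousComponent n g
  have hmem : ∀ g ∈ G, ∃ g0 ∈ G1 ∪ G2, ∃ n, n ≤ g0.totalDegree ∧ MvPolynomial.homogeneousComponent n g0 = g := by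
    intro g hg
    obtain ⟨g0, hg0, hg1⟩ := Finset.mem_biUnion.1 hg
    obtain ⟨n, hn, hn1⟩ := Finset.mem_image.1 hg1
    exact ⟨g0, hg0, n, Nat.lt_succ_iff.1 (Finset.mem_range.1 hn), hn1⟩
  have hhom : ∀ g ∈ G, ∃ n, n ≤ D0 ∧ g.IsHomogeneous n := by
    intro g hg
    obtain ⟨g0, hg0, n, hn, rfl⟩ := hmem g hg
    exact ⟨n, hn.trans (Finset.le_sup (f := fun g : MvPolynomial (Fin q) (𝓞 K) => g.totalDegree) hg0),
      MvPolynomial.homogeneousComponent_isHomogeneous n _⟩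
  have hGP : ∀ g ∈ G, MvPolynomial.map (algebraMap (𝓞 K) K) g ∈ P := by
    intro g hg
    obtain ⟨g0, hg0, n, _, rfl⟩ := hmem g hg
    rw [NLc_map_hc]
    refine hh _ ?_ n
    rcases Finset.mem_union.1 hg0 with h | h
    · exact hG1 g0 h
    · exact hG2 g0 h
  have hzero : ∀ (p : ℕ) (φ : 𝓞 K →+* ZMod p) (x : Fin q → ZMod p),
      (∀ g ∈ G, MvPolynomial.eval₂ φ x g = 0) → ∀ g ∈ G1 ∪ G2, MvPolynomial.eval₂ φ x g = 0 := by
    intro p φ x hx g hg
    rw [← MvPolynomial.sum_homogeneousComponent g, MvPolynomial.eval₂_sum]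
    refine Finset.sum_eq_zero fun n hn => ?_
    exact hx _ (Finset.mem_biUnion.2 ⟨g, hg, Finset.mem_image.2 ⟨n, hn, rfl⟩⟩)
  refine ⟨G, fun g hg => ?_, hGP, C, max (max p0 p2) 3, ?_⟩
  · obtain ⟨n, _, hn⟩ := hhom g hg
    exact ⟨n, hn⟩
  intro p hp hpp φ
  have hpp0 : p0 ≤ p := (le_max_left _ _).trans ((le_max_left _ _).trans hpp)
  have hpp2 : p2 ≤ p := (le_max_right _ _).trans ((le_max_left _ _).trans hpp)
  have hpp3 : 3 ≤ p := (le_max_right _ _).trans hpp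
  have hc1 : Nat.card {x : Fin q → ZMod p // ∀ g ∈ G, MvPolynomial.eval₂ φ x g = 0} ≤
      Nat.card {x : Fin q → ZMod p // ∀ g ∈ G1, MvPolynomial.eval₂ φ x g = 0} := by
    refine Nat.card_le_card_of_injective
      (fun x => ⟨x.1, fun g hg => hzero p φ x.1 x.2 g (Finset.mem_union_left _ hg)⟩) ?_
    intro a b hab
    exact Subtype.ext (congrArg (fun z => z.1) hab)
  have hA : 8 * (C + 4) * Nat.card {x : Fin q → ZMod p // ∀ g ∈ G, MvPolynomial.eval₂ φ x g = 0} ≤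
      (8 * (C + 4) + 1) * p ^ s :=
    (Nat.mul_le_mul_left _ hc1).trans (hp0 p hpp0 φ)
  refine ⟨hA, ?_⟩
  have hc2 : Nat.card {x : (Fin q → ZMod p) × (Fin q → ZMod p) // (∀ g ∈ G, MvPolynomial.eval₂ φ x.1 g = 0) ∧
      (∀ g ∈ G, MvPolynomial.eval₂ φ x.2 g = 0) ∧ ∀ g ∈ G, MvPolynomial.eval₂ φ (x.1 + x.2) g = 0} ≤
      Nat.card {x : (Fin q → ZMod p) × (Fin q → ZMod p) // (∀ g ∈ G2, MvPolynomial.eval₂ φ x.1 g = 0) ∧
      (∀ g ∈ G2, MvPolynomial.eval₂ φ x.2 g = 0) ∧ ∀ g ∈ G2, MvPolynomial.eval₂ φ (x.1 + x.2) g = 0} := by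
    refine Nat.card_le_card_of_injective
      (fun x => ⟨x.1, fun g hg => hzero p φ x.1.1 x.2.1 g (Finset.mem_union_right _ hg),
        fun g hg => hzero p φ x.1.2 x.2.2.1 g (Finset.mem_union_right _ hg),
        fun g hg => hzero p φ (x.1.1 + x.1.2) x.2.2.2 g (Finset.mem_union_right _ hg)⟩) ?_
    intro a b hab
    exact Subtype.ext (congrArg (fun z => z.1) hab)
  have hB := hc2.trans (h2 p hpp2 φ)
  have hT := T3 K G D0 hhom hpp3 φ
  have hN : Nat.card {x : Fin q → ZMod p // ∀ g ∈ G, MvPolynomial.eval₂ φ x g = 0} ≤ 2 * p ^ s := by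
    have hk : 0 < 8 * (C + 4) := by omega
    refine Nat.le_of_mul_le_mul_left (hA.trans ?_) hk
    have : (8 * (C + 4) + 1) * p ^ s ≤ (8 * (C + 4) * 2) * p ^ s := Nat.mul_le_mul_right _ (by omega)
    exact this.trans_eq (by ring)
  refine hT.trans ?_
  have e1 : D0 * Nat.card {x : Fin q → ZMod p // ∀ g ∈ G, MvPolynomial.eval₂ φ x g = 0} ^ 2 ≤
      4 * D0 * p ^ (2 * s) := by
    refine (Nat.mul_le_mul_left D0 (Nat.pow_le_pow_left hN 2)).trans_eq ?_
    rw [mul_pow, ← pow_mul, mul_comm s 2]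
    ring
  have e2 : p * (C2 * p ^ (2 * s - 1)) = C2 * p ^ (2 * s) := by
    have : 2 * s = (2 * s - 1) + 1 := by omega
    conv_rhs => rw [this, pow_succ]
    ring
  have e3 := Nat.mul_le_mul_left p hB
  rw [e2] at e3
  calc _ ≤ 4 * D0 * p ^ (2 * s) + C2 * p ^ (2 * s) := Nat.add_le_add e1 e3
    _ = (4 * D0 + C2) * p ^ (2 * s) := by ring

end LVX
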