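import Mathlib

/-!
# LEAF T3: collinear triples of a cone

PROOF.  For `x, x'` in `Z` with `x + x'` not in `Z`, some `g ∈ G`, homogeneous of degree `n ≤ D0`, has `g(x + x') ≠ 0` modulo `p`; the polynomial `g(T x + (1 - T) x')` in `T` has degree at most `n` and its value at `T = 1/2` is `2 ^ (- n) g(x + x') ≠ 0`, so it has at most `n ≤ D0` roots: at most `D0` values of the third parameter.  For the other pairs, at most `p` values.
-/

namespace LVX

open NumberField

private theorem T3_smul {σ R S : Type} [CommRing R] [CommRing S] (f : R →+* S) {n : ℕ} {g : MvPolynomial σ R}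
    (hg : g.IsHomogeneous n) (x : σ → S) (l : S) :
    MvPolynomial.eval₂ f (l • x) g = l ^ n * MvPolynomial.eval₂ f x g := by
  rw [MvPolynomial.eval₂_eq, MvPolynomial.eval₂_eq, Finset.mul_sum]
  refine Finset.sum_congr rfl fun d hd => ?_
  have h1 : d.degree = n := by
    by_contra h
    exact (MvPolynomial.mem_support_iff.1 hd) (hg.coeff_eq_zero h)
  have h2 : ∏ i ∈ d.support, (l • x) i ^ d i = l ^ n * ∏ i ∈ d.support, x i ^ d i := by
    rw [← h1, Finsupp.degree_apply, ← Finset.prod_pow_eq_pow_sum, ← Finset.prod_mul_distrib]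
    refine Finset.prod_congr rfl fun i _ => ?_
    rw [Pi.smul_apply, smul_eq_mul, mul_pow]
  rw [h2]
  ring

/-- the restriction to a line -/
private noncomputable def T3_h {R F : Type} [CommRing R] [Field F] {q : ℕ} (f : R →+* F) (g : MvPolynomial (Fin q) R)
    (x x' : Fin q → F) : Polynomial F :=
  MvPolynomial.eval₂ (Polynomial.C.comp f)
    (fun i => Polynomial.X * Polynomial.C (x i) + (1 - Polynomial.X) * Polynomial.C (x' i)) g

private theorem T3_eval {R F : Type} [CommRing R] [Field F] {q : ℕ} (f : R →+* F) (g : MvPolynomial (Fin q) R)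
    (x x' : Fin q → F) (t : F) :
    (T3_h f g x x').eval t = MvPolynomial.eval₂ f (t • x + (1 - t) • x') g := by
  unfold T3_h
  rw [MvPolynomial.eval₂_eq, MvPolynomial.eval₂_eq, Polynomial.eval_finsetSum]
  refine Finset.sum_congr rfl fun d _ => ?_
  rw [Polynomial.eval_mul, Polynomial.eval_prod, RingHom.comp_apply, Polynomial.eval_C]
  congr 1
  refine Finset.prod_congr rfl fun i _ => ?_
  rw [Polynomial.eval_pow, Polynomial.eval_add, Polynomial.eval_mul, Polynomial.eval_mul, Polynomial.eval_sub,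
    Polynomial.eval_one, Polynomial.eval_X, Polynomial.eval_C, Polynomial.eval_C, Pi.add_apply, Pi.smul_apply,
    Pi.smul_apply, smul_eq_mul, smul_eq_mul]

private theorem T3_deg {R F : Type} [CommRing R] [Field F] {q : ℕ} (f : R →+* F) {g : MvPolynomial (Fin q) R}
    {n : ℕ} (hg : g.IsHomogeneous n) (x x' : Fin q → F) : (T3_h f g x x').natDegree ≤ n := by
  unfold T3_h
  rw [MvPolynomial.eval₂_eq]
  refine Polynomial.natDegree_sum_le_of_forall_le _ _ fun d hd => ?_
  have h1 : d.degree = n := by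
    by_contra h
    exact (MvPolynomial.mem_support_iff.1 hd) (hg.coeff_eq_zero h)
  rw [RingHom.comp_apply]
  refine le_trans (Polynomial.natDegree_C_mul_le _ _) ?_
  refine le_trans (Polynomial.natDegree_prod_le _ _) ?_
  rw [← h1, Finsupp.degree_apply]
  refine Finset.sum_le_sum fun i _ => ?_
  have h2 : (Polynomial.X * Polynomial.C (x i) + (1 - Polynomial.X) * Polynomial.C (x' i) : Polynomial F).natDegree ≤ 1 := by
    refine le_trans (Polynomial.natDegree_add_le _ _) (max_le ?_ ?_)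
    · exact le_trans (Polynomial.natDegree_mul_C_le _ _) Polynomial.natDegree_X_le
    · refine le_trans (Polynomial.natDegree_mul_C_le _ _) ?_
      refine le_trans (Polynomial.natDegree_sub_le _ _) (max_le ?_ Polynomial.natDegree_X_le)
      rw [Polynomial.natDegree_one]
      exact Nat.zero_le _
  refine le_trans Polynomial.natDegree_pow_le ?_
  calc d i * _ ≤ d i * 1 := Nat.mul_le_mul_left _ h2
    _ = d i := mul_one _

/-- a line through a pair whose sum is not in the set has few points -/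
private theorem T3_line {R : Type} [CommRing R] {p q : ℕ} [Fact p.Prime] (hp : 3 ≤ p) (f : R →+* ZMod p)
    {g : MvPolynomial (Fin q) R} {n D0 : ℕ} (hn : n ≤ D0) (hg : g.IsHomogeneous n) (x x' : Fin q → ZMod p)
    (h : MvPolynomial.eval₂ f (x + x') g ≠ 0) :
    (Finset.univ.filter fun t : ZMod p => MvPolynomial.eval₂ f (t • x + (1 - t) • x') g = 0).card ≤ D0 := by
  classical
  have h2 : (2 : ZMod p) ≠ 0 := by
    intro h0
    have h1 : ((2 : ℕ) : ZMod p) = 0 := by exact_mod_cast h0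
    rw [ZMod.natCast_eq_zero_iff] at h1
    have := Nat.le_of_dvd (by norm_num) h1
    omega
  have hne : T3_h f g x x' ≠ 0 := by
    intro h0
    have h1 := T3_eval f g x x' (2 : ZMod p)⁻¹
    rw [h0, Polynomial.eval_zero] at h1
    have h3 : (1 : ZMod p) - (2 : ZMod p)⁻¹ = (2 : ZMod p)⁻¹ := by
      field_simp
      ring
    rw [h3, ← smul_add, T3_smul f hg] at h1
    exact (mul_ne_zero (pow_ne_zero _ (inv_ne_zero h2)) h) h1.symm
  have h3 : (Finset.univ.filter fun t : ZMod p => MvPolynomial.eval₂ f (t • x + (1 - t) • x') g = 0) ⊆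
      (T3_h f g x x').roots.toFinset := by
    intro t ht
    rw [Finset.mem_filter] at ht
    rw [Multiset.mem_toFinset, Polynomial.mem_roots hne, Polynomial.IsRoot, T3_eval]
    exact ht.2
  calc _ ≤ (T3_h f g x x').roots.toFinset.card := Finset.card_le_card h3
    _ ≤ Multiset.card (T3_h f g x x').roots := Multiset.toFinset_card_le _
    _ ≤ (T3_h f g x x').natDegree := Polynomial.card_roots' _
    _ ≤ n := T3_deg f hg x x'
    _ ≤ D0 := hn

theorem T3 (K : Type) [Field K] [NumberField K] {q : ℕ} (G : Finset (MvPolynomial (Fin q) (𝓞 K))) (D0 : ℕ)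
    (hG : ∀ g ∈ G, ∃ n, n ≤ D0 ∧ g.IsHomogeneous n) {p : ℕ} [Fact p.Prime] (hp : 3 ≤ p) (φ : 𝓞 K →+* ZMod p) :
    Nat.card {t : ((Fin q → ZMod p) × (Fin q → ZMod p)) × ZMod p //
      (∀ g ∈ G, MvPolynomial.eval₂ φ t.1.1 g = 0) ∧ (∀ g ∈ G, MvPolynomial.eval₂ φ t.1.2 g = 0) ∧
        ∀ g ∈ G, MvPolynomial.eval₂ φ (t.2 • t.1.1 + (1 - t.2) • t.1.2) g = 0} ≤
      D0 * Nat.card {x : Fin q → ZMod p // ∀ g ∈ G, MvPolynomial.eval₂ φ x g = 0} ^ 2 +
        p * Nat.card {x : (Fin q → ZMod p) × (Fin q → ZMod p) // (∀ g ∈ G, MvPolynomial.eval₂ φ x.1 g = 0) ∧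
          (∀ g ∈ G, MvPolynomial.eval₂ φ x.2 g = 0) ∧ ∀ g ∈ G, MvPolynomial.eval₂ φ (x.1 + x.2) g = 0} := by
  classical
  set P : (Fin q → ZMod p) → Prop := fun x => ∀ g ∈ G, MvPolynomial.eval₂ φ x g = 0 with hP
  set Z : Finset (Fin q → ZMod p) := Finset.univ.filter P with hZ
  have hmem : ∀ x, x ∈ Z ↔ P x := fun x => by rw [hZ, Finset.mem_filter]; exact ⟨fun h => h.2, fun h => ⟨Finset.mem_univ _, h⟩⟩
  have e1 : Nat.card {x : Fin q → ZMod p // ∀ g ∈ G, MvPolynomial.eval₂ φ x g = 0} = Z.card := by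
    rw [Nat.card_eq_fintype_card, Fintype.card_subtype]
  have e2 : Nat.card {x : (Fin q → ZMod p) × (Fin q → ZMod p) // (∀ g ∈ G, MvPolynomial.eval₂ φ x.1 g = 0) ∧
      (∀ g ∈ G, MvPolynomial.eval₂ φ x.2 g = 0) ∧ ∀ g ∈ G, MvPolynomial.eval₂ φ (x.1 + x.2) g = 0} =
      ((Z ×ˢ Z).filter fun x => P (x.1 + x.2)).card := by
    rw [Nat.card_eq_fintype_card, Fintype.card_subtype]
    congr 1
    ext x
    rw [Finset.mem_filter, Finset.mem_filter, Finset.mem_product, hmem, hmem]
    exact ⟨fun h => ⟨⟨h.2.1, h.2.2.1⟩, h.2.2.2⟩, fun h => ⟨Finset.mem_univ _, h.1.1, h.1.2, h.2⟩⟩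
  have e3 : Nat.card {t : ((Fin q → ZMod p) × (Fin q → ZMod p)) × ZMod p //
      (∀ g ∈ G, MvPolynomial.eval₂ φ t.1.1 g = 0) ∧ (∀ g ∈ G, MvPolynomial.eval₂ φ t.1.2 g = 0) ∧
        ∀ g ∈ G, MvPolynomial.eval₂ φ (t.2 • t.1.1 + (1 - t.2) • t.1.2) g = 0} ≤
      ∑ x ∈ Z ×ˢ Z, (Finset.univ.filter fun t : ZMod p => P (t • x.1 + (1 - t) • x.2)).card := by
    rw [Nat.card_eq_fintype_card, Fintype.card_subtype]
    refine le_trans (Finset.card_le_card (t := (Z ×ˢ Z).biUnion fun x =>
      (Finset.univ.filter fun t : ZMod p => P (t • x.1 + (1 - t) • x.2)).image fun t => (x, t)) ?_) ?_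
    · intro t ht
      rw [Finset.mem_filter] at ht
      rw [Finset.mem_biUnion]
      refine ⟨t.1, Finset.mem_product.2 ⟨(hmem _).2 ht.2.1, (hmem _).2 ht.2.2.1⟩, ?_⟩
      exact Finset.mem_image.2 ⟨t.2, Finset.mem_filter.2 ⟨Finset.mem_univ _, ht.2.2.2⟩, rfl⟩
    · exact le_trans Finset.card_biUnion_le (Finset.sum_le_sum fun x _ => Finset.card_image_le)
  rw [e1, e2]
  refine le_trans e3 ?_
  have e4 : ∀ x ∈ Z ×ˢ Z, (Finset.univ.filter fun t : ZMod p => P (t • x.1 + (1 - t) • x.2)).card ≤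
      D0 + if P (x.1 + x.2) then p else 0 := by
    intro x _
    by_cases h : P (x.1 + x.2)
    · rw [if_pos h]
      refine le_trans (Finset.card_le_univ _) ?_
      rw [ZMod.card]
      exact Nat.le_add_left _ _
    · rw [if_neg h, add_zero]
      rw [hP] at h
      push Not at h
      obtain ⟨g, hg, hne⟩ := h
      obtain ⟨n, hn, hgn⟩ := hG g hg
      refine le_trans (Finset.card_le_card ?_) (T3_line hp φ hn hgn x.1 x.2 hne)
      intro t ht
      rw [Finset.mem_filter] at ht ⊢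
      exact ⟨ht.1, ht.2 g hg⟩
  refine le_trans (Finset.sum_le_sum e4) ?_
  rw [Finset.sum_add_distrib, Finset.sum_const, Finset.card_product, ← Finset.sum_filter, Finset.sum_const, smul_eq_mul,
    smul_eq_mul]
  refine le_of_eq ?_
  ring

end LVX
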