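import Pool.Agent.Lib.MP_17a322_ntLX.PDefs
import Pool.Agent.Lib.MP_17a322_ntLH.T4R
import Pool.Agent.Lib.MP_17a322_ntLH.E1

/-!
# LEAF T7: the reduction of a point (cone version)

PROOF.  As LH.T7 (`LVH.local_RR`); `Rd π (a : K) (ro π a)` for `a ∈ 𝓞 K`; a zero `x` of the homogeneous polynomial `g`, with coordinates in `V`, reduces to a zero of `g` modulo `p` (`MvPolynomial.eval₂` is a sum of products, `Rd.sum`, `Rd.mul`, ...); if some coordinate is not in `V`, the vector `(z k)⁻¹ • x` is also a zero, by homogeneity (`MvPolynomial.IsHomogeneous.eval₂` or directly).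
-/

namespace LVX

open Finset NumberField
open LVH (Vr fv co Pl Rd)

private theorem T7_Fv {K : Type} [Field K] {p : ℕ} {π : Pl K p} {j q s e : ℕ} {d : Fin s → ℕ}
    {ω : Fin e → K} {ω' : Fin e → ZMod p} (hω : ∀ k, Rd π (ω k) (ω' k))
    {c : Mo j q d × Fin e → K} {c' : Mo j q d × Fin e → ZMod p} (hc : ∀ t, Rd π (c t) (c' t))
    {x : Vr j q → K} {x' : Vr j q → ZMod p} (hx : ∀ t, Rd π (x t) (x' t)) (i : Fin s) :
    Rd π (Fv (co ω c) i x) (Fv (co ω' c') i x') := by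
  unfold Fv fv co
  exact Rd.sum _ fun α _ => (Rd.sum _ fun k _ => (hc (⟨i, α⟩, k)).mul (hω k)).mul (Rd.mon hx α)

private theorem T7_max {K : Type} [Field K] {p : ℕ} (π : Pl K p) {s : ℕ} (z : Fin s → K)
    (h : ¬ ∀ i, z i ∈ π.V) : ∃ k, z k ∉ π.V ∧ ∀ i, (z k)⁻¹ * z i ∈ π.V := by
  obtain ⟨i0, hi0⟩ := not_forall.1 h
  have hne : Nonempty (Fin s) := ⟨i0⟩
  obtain ⟨k, hk⟩ := Finite.exists_max fun i => π.V.valuation (z i)
  have h1 : z k ∉ π.V := by
    intro h2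
    rw [← ValuationSubring.valuation_le_one_iff] at h2
    exact hi0 ((ValuationSubring.valuation_le_one_iff _ _).1 ((hk i0).trans h2))
  have h0 : z k ≠ 0 := fun h2 => h1 (h2 ▸ π.V.zero_mem)
  refine ⟨k, h1, fun i => ?_⟩
  rw [← ValuationSubring.valuation_le_one_iff, map_mul, map_inv₀]
  have h3 : π.V.valuation (z k) ≠ 0 := (map_ne_zero _).2 h0
  calc (π.V.valuation (z k))⁻¹ * π.V.valuation (z i)
      ≤ (π.V.valuation (z k))⁻¹ * π.V.valuation (z k) := mul_le_mul_right (hk i) _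
    _ = 1 := inv_mul_cancel₀ h3

private theorem T7_ev {K : Type} [Field K] [NumberField K] {p : ℕ} {π : Pl K p} {ι : Type} {x : ι → K} {x' : ι → ZMod p}
    (hx : ∀ t, Rd π (x t) (x' t)) (g : MvPolynomial ι (𝓞 K)) :
    Rd π (MvPolynomial.eval₂ (algebraMap (𝓞 K) K) x g) (MvPolynomial.eval₂ (ro π) x' g) := by
  induction g using MvPolynomial.induction_on with
  | C a =>
    rw [MvPolynomial.eval₂_C, MvPolynomial.eval₂_C]
    exact ⟨int_mem π a, rfl⟩
  | add g h hg hh =>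
    rw [MvPolynomial.eval₂_add, MvPolynomial.eval₂_add]
    exact hg.add hh
  | mul_X g i hg =>
    rw [MvPolynomial.eval₂_mul, MvPolynomial.eval₂_mul, MvPolynomial.eval₂_X, MvPolynomial.eval₂_X]
    exact hg.mul (hx i)

private theorem T7_hom {R S ι : Type} [CommRing R] [CommRing S] [Fintype ι] (f : R →+* S) {n : ℕ} {g : MvPolynomial ι R}
    (hg : g.IsHomogeneous n) (l : S) (x : ι → S) :
    MvPolynomial.eval₂ f (l • x) g = l ^ n * MvPolynomial.eval₂ f x g := by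
  rw [MvPolynomial.eval₂_eq', MvPolynomial.eval₂_eq', Finset.mul_sum]
  refine Finset.sum_congr rfl fun m hm => ?_
  have h1 : m.degree = n := by
    rw [Finsupp.degree_eq_weight_one]
    exact hg (MvPolynomial.mem_support_iff.1 hm)
  have h2 : ∑ i, m i = n := by
    rw [← h1, Finsupp.degree_eq_sum]
  have h3 : ∏ i, (l • x) i ^ m i = l ^ n * ∏ i, x i ^ m i := by
    rw [← h2, ← Finset.prod_pow_eq_pow_sum, ← Finset.prod_mul_distrib]
    refine Finset.prod_congr rfl fun i _ => ?_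
    rw [Pi.smul_apply, smul_eq_mul, mul_pow]
  rw [h3]
  ring

theorem local_RR {K : Type} [Field K] [NumberField K] {p : ℕ} [Fact p.Prime] (π : Pl K p) {j q s e : ℕ}
    (G : Finset (MvPolynomial (Vr j q) (𝓞 K))) (hG : ∀ g ∈ G, ∃ n, g.IsHomogeneous n) (d : Fin s → ℕ)
    (hd : ∀ i, 1 ≤ d i) (ω : Fin e → K) (ω' : Fin e → ZMod p) (hω : ∀ k, Rd π (ω k) (ω' k))
    (u : Fin j → K) (u' : Fin j → ZMod p) (hu : ∀ l, Rd π (u l) (u' l))
    (y : Fin s → K) (y' : Fin s → ZMod p) (hy : ∀ i, Rd π (y i) (y' i)) (z : Fin q → K)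
    (hx : ∀ g ∈ G, MvPolynomial.eval₂ (algebraMap (𝓞 K) K) (Sum.elim u z) g = 0)
    (c : Mo j q d × Fin e → ℤ) (hz : ∀ i, Fv (co ω (fun t => ((c t : ℤ) : K))) i (Sum.elim u z) = y i) :
    (fun t => ((c t : ℤ) : ZMod p)) ∈ RR (Zs G (ro π)) d ω' u' y' := by
  have hc : ∀ t : Mo j q d × Fin e, Rd π ((c t : ℤ) : K) ((c t : ℤ) : ZMod p) := fun t => Rd.int _
  by_cases hall : ∀ i, z i ∈ π.V
  · have hxr : ∀ t : Vr j q, Rd π (Sum.elim u z t)
        (Sum.elim u' (fun i => π.ρ ⟨z i, hall i⟩) t) := by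
      intro t
      cases t with
      | inl l => exact hu l
      | inr i => exact ⟨hall i, rfl⟩
    refine Or.inl ⟨fun i => π.ρ ⟨z i, hall i⟩, fun g hg => ?_, fun i => ?_⟩
    · have h1 := T7_ev hxr g
      rw [hx g hg] at h1
      exact h1.unique Rd.zero
    have h1 := T7_Fv (d := d) hω hc hxr i
    rw [hz i] at h1
    exact h1.unique (hy i)
  · obtain ⟨k, hk, hki⟩ := T7_max π z hall
    have h0 : z k ≠ 0 := fun h2 => hk (h2 ▸ π.V.zero_mem)
    have hw : (z k)⁻¹ ∈ π.V := (π.V.mem_or_inv_mem (z k)).resolve_left hk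
    have hw0 : Rd π (z k)⁻¹ 0 := by
      refine ⟨hw, π.ker _ ?_⟩
      show ((z k)⁻¹)⁻¹ ∉ π.V
      rw [inv_inv]
      exact hk
    have hxr : ∀ t : Vr j q, Rd π (((z k)⁻¹ • (Sum.elim u z : Vr j q → K)) t)
        (Sum.elim (fun _ : Fin j => (0 : ZMod p)) (fun i => π.ρ ⟨(z k)⁻¹ * z i, hki i⟩) t) := by
      intro t
      cases t with
      | inl l =>
        have h7 := hw0.mul (hu l)
        rw [zero_mul] at h7
        exact h7
      | inr i => exact ⟨hki i, rfl⟩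
    refine Or.inr ⟨fun i => π.ρ ⟨(z k)⁻¹ * z i, hki i⟩, ?_, fun g hg => ?_, fun i => ?_⟩
    · intro h3
      have h4 : π.ρ ⟨(z k)⁻¹ * z k, hki k⟩ = 0 := congrFun h3 k
      have h5 : Rd π (1 : K) 0 := by
        have h6 : Rd π ((z k)⁻¹ * z k) 0 := ⟨hki k, h4⟩
        rwa [inv_mul_cancel₀ h0] at h6
      exact one_ne_zero (Rd.one.unique h5 : (1 : ZMod p) = 0)
    · obtain ⟨n, hn⟩ := hG g hg
      have h1 := T7_ev hxr g
      rw [T7_hom _ hn, hx g hg, mul_zero] at h1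
      exact h1.unique Rd.zero
    · have h1 := T7_Fv (d := d) hω hc hxr i
      have h8 : Fv (co ω (fun t => ((c t : ℤ) : K))) i ((z k)⁻¹ • (Sum.elim u z : Vr j q → K)) =
          (z k)⁻¹ ^ d i * y i := by
        rw [← hz i]
        exact LVH.fv_smul _ _ _
      have h9 := (hw0.pow (d i)).mul (hy i)
      rw [zero_pow (Nat.one_le_iff_ne_zero.1 (hd i)), zero_mul] at h9
      rw [h8] at h1
      exact h1.unique h9

end LVX
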