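import Pool.Agent.Lib.MP_17a322_ntLH.T9A
import Pool.Agent.Lib.MP_17a322_ntLH.T4
import Pool.Agent.Lib.MP_17a322_ntLH.T6
import Pool.Agent.Lib.MP_17a322_ntLX.T7
import Pool.Agent.Lib.MP_17a322_ntLX.E8S

/-! The number of forms with a point of a given class. -/

namespace LVX

open Finset NumberField
open LVH (Vr fv co Pl Rd res rd_res res_ne exists_pl D1 tsieve)

/-- the generators, the multipliers and the lattice are good at the places over the primes not dividing `M` -/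
def Gd {K : Type} [Field K] (M : ℕ) {j s e r : ℕ} (ω : Fin e → K) (g : Fin r → K) (a : Vr j s → K) : Prop :=
  (∀ m, g m ≠ 0) ∧ (∀ w, a w ≠ 0) ∧ ∀ p : ℕ, p.Prime → ¬ p ∣ M → ∀ π : Pl K p,
    (∀ k, ω k ∈ π.V) ∧ (∃ k, ω k ≠ 0 ∧ (ω k)⁻¹ ∈ π.V) ∧ (∀ m, g m ∈ π.V ∧ (g m)⁻¹ ∈ π.V) ∧
      ∀ w, a w ∈ π.V ∧ (a w)⁻¹ ∈ π.V

/-- the point `x` of the class of `a`, with exponents `n`, on which the elements of `G` vanish -/
def Ptc {K : Type} [Field K] [NumberField K] {j q s e r : ℕ} {d : Fin s → ℕ} (G : Finset (MvPolynomial (Vr j q) (𝓞 K)))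
    (ω : Fin e → K) (g : Fin r → K) (a : Vr j s → K) (c : Mo j q d × Fin e → ℤ) : Prop :=
  ∃ (x : Vr j q → K) (n : Vr j s → Fin r → ℤ), (∀ h ∈ G, MvPolynomial.eval₂ (algebraMap (𝓞 K) K) x h = 0) ∧
    (∀ l, x (Sum.inl l) = a (Sum.inl l) * ∏ m, g m ^ n (Sum.inl l) m) ∧
    ∀ i, Fv (co ω (fun t => ((c t : ℤ) : K))) i x = a (Sum.inr i) * ∏ m, g m ^ n (Sum.inr i) m

private theorem cls (L r j s : ℕ) : ∃ E : Fin (L ^ (r * (j + s))) → Vr j s → Fin r → Fin L,
    ∀ f : Vr j s → Fin r → Fin L, ∃ i, E i = f := by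
  have h : Fintype.card (Vr j s → Fin r → Fin L) = L ^ (r * (j + s)) := by
    rw [Fintype.card_fun, Fintype.card_fun, Fintype.card_sum, Fintype.card_fin, Fintype.card_fin, Fintype.card_fin,
      Fintype.card_fin, ← pow_mul]
  have e : Fin (L ^ (r * (j + s))) ≃ (Vr j s → Fin r → Fin L) := by
    rw [← h]
    exact (Fintype.equivFin _).symm
  exact ⟨e, fun f => ⟨e.symm f, e.apply_symm_apply f⟩⟩

theorem one_class (K : Type) [Field K] [NumberField K] : ∃ δ η : ℝ, 0 < δ ∧ 0 < η ∧ ∀ {j q s : ℕ} (d : Fin s → ℕ),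
    (∀ i, 1 ≤ d i) → ∀ (G : Finset (MvPolynomial (Vr j q) (𝓞 K))),
    (∀ g ∈ G, ∃ n, g.IsHomogeneous n) → LD G d → ∀ e : ℕ, ∃ H0 : ℕ, ∀ r M H : ℕ, H0 ≤ H → M ≠ 0 →
      ((r * (j + s) : ℕ) : ℝ) ≤ (Real.log H) ^ η → Real.log M ≤ (Real.log H) ^ (1 + η) →
      ∀ (ω : Fin e → K) (g : Fin r → K) (a : Vr j s → K), Gd M ω g a →
        (Nat.card {c : Mo j q d × Fin e → ℤ // (∀ t, |c t| ≤ (H : ℤ)) ∧ Ptc G ω g a c} : ℝ) ≤
          (H : ℝ) ^ ((Fintype.card (Mo j q d × Fin e) : ℝ) - δ) := by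
  classical
  obtain ⟨δ, η, hδ, hη, hsv⟩ := tsieve K
  refine ⟨δ, η, hδ, hη, fun {j q s} d hd G hGh hGc e => ?_⟩
  obtain ⟨cc, hcc, hcc1, p0, hp0⟩ := hGc
  obtain ⟨H0, hH0⟩ := hsv (Fintype.card (Mo j q d × Fin e)) cc hcc hcc1.le p0
  refine ⟨H0, fun r M H hH hM hr hlM ω g a hG => ?_⟩
  obtain ⟨hg0, ha0, hG⟩ := hG
  choose E hE using fun L : ℕ => cls L r j s
  -- the values modulo `p` of the class `i`
  let val : (L : ℕ) → Fin (L ^ (r * (j + s))) → (p : ℕ) → Pl K p → Vr j s → ZMod p := fun L i p π w =>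
    res π (a w) * ∏ m, res π (g m) ^ (E L i w m : ℕ)
  let R : (L : ℕ) → Fin (L ^ (r * (j + s))) → (p : ℕ) → Set (Mo j q d × Fin e → ZMod p) := fun L i p =>
    if h : p.Prime ∧ D1 K p then
      RR (Zs G (ro (Classical.choice (exists_pl K h.1 h.2)))) d (fun k => res (Classical.choice (exists_pl K h.1 h.2)) (ω k))
        (fun l => val L i p (Classical.choice (exists_pl K h.1 h.2)) (Sum.inl l))
        (fun l => val L i p (Classical.choice (exists_pl K h.1 h.2)) (Sum.inr l))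
    else ∅
  refine hH0 (r * (j + s)) M H hH hM hr hlM _ rfl (Ptc G ω g a) R ?_ ?_
  · intro L _ i p hp hpp hpM hD _
    have : Fact p.Prime := ⟨hp⟩
    have hR : R L i p = RR (Zs G (ro (Classical.choice (exists_pl K hp hD)))) d
        (fun k => res (Classical.choice (exists_pl K hp hD)) (ω k))
        (fun l => val L i p (Classical.choice (exists_pl K hp hD)) (Sum.inl l))
        (fun l => val L i p (Classical.choice (exists_pl K hp hD)) (Sum.inr l)) := dif_pos ⟨hp, hD⟩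
    rw [hR]
    obtain ⟨h1, ⟨k, hk0, hk⟩, h3, h4⟩ := hG p hp hpM (Classical.choice (exists_pl K hp hD))
    have hv : ∀ w, val L i p (Classical.choice (exists_pl K hp hD)) w ≠ 0 := by
      intro w
      refine mul_ne_zero (res_ne (ha0 w) (h4 w).1 (h4 w).2) (prod_ne_zero_iff.2 fun m _ => pow_ne_zero _ ?_)
      exact res_ne (hg0 m) (h3 m).1 (h3 m).2
    refine hp0 p hp hpp _ _ ?_ _ (fun l => hv _) _ (fun l => hv _)
    intro h0
    exact res_ne hk0 (h1 k) hk (congrFun h0 k)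
  · rintro L hL c ⟨x, n, hGx, hx, hc⟩
    have hL' : (0 : ℤ) < L := by exact_mod_cast hL
    obtain ⟨i, hi⟩ := hE L fun w m => ⟨(n w m % (L : ℤ)).toNat, by
      have h1 := Int.emod_lt_of_pos (n w m) hL'
      have h2 := Int.emod_nonneg (n w m) hL'.ne'
      omega⟩
    refine ⟨i, fun p hp hpp hpM hD hpL => ?_⟩
    have : Fact p.Prime := ⟨hp⟩
    have hR : R L i p = RR (Zs G (ro (Classical.choice (exists_pl K hp hD)))) d
        (fun k => res (Classical.choice (exists_pl K hp hD)) (ω k))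
        (fun l => val L i p (Classical.choice (exists_pl K hp hD)) (Sum.inl l))
        (fun l => val L i p (Classical.choice (exists_pl K hp hD)) (Sum.inr l)) := dif_pos ⟨hp, hD⟩
    rw [hR]
    obtain ⟨h1, -, h3, h4⟩ := hG p hp hpM (Classical.choice (exists_pl K hp hD))
    have hv : ∀ w, Rd (Classical.choice (exists_pl K hp hD)) (a w * ∏ m, g m ^ n w m)
        (val L i p (Classical.choice (exists_pl K hp hD)) w) := by
      intro w
      refine (rd_res (h4 w).1).mul ?_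
      have h5 := Rd.prod_zpow (π := Classical.choice (exists_pl K hp hD)) hg0 h3 hpL hL (n w)
      have h6 : ∀ m, ((E L i w m : Fin L) : ℕ) = (n w m % (L : ℤ)).toNat := fun m => by rw [hi]
      simp only [h6]
      exact h5
    have h7 : (Sum.elim (fun l => a (Sum.inl l) * ∏ m, g m ^ n (Sum.inl l) m) (fun l => x (Sum.inr l)) : Vr j q → K) = x := by
      funext w
      rcases w with w | w
      · exact (hx w).symm
      · rfl
    refine local_RR (Classical.choice (exists_pl K hp hD)) G hGh d hd ω _ (fun k => rd_res (h1 k))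
      (fun l => a (Sum.inl l) * ∏ m, g m ^ n (Sum.inl l) m) _ (fun l => hv (Sum.inl l))
      (fun l => a (Sum.inr l) * ∏ m, g m ^ n (Sum.inr l) m) _ (fun l => hv (Sum.inr l)) (fun l => x (Sum.inr l)) ?_ c ?_
    · intro h hh
      rw [h7]
      exact hGx h hh
    · intro l
      rw [h7]
      exact hc l

end LVX
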